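import Pool.Agent.H4G.Six.NR.T12

/-!
# THEOREM NR, the frame (page MP_4f7c28_NR_h58 of helper58; frame: helper96)

`TN O N u v l q m s`: a tree of `O` of volume `N`, with `A = u × v`, `L = ⟨l, u + q⟩` of area
`a = u × l + q × l` and content `c = ct u l q`, `M = ⟨m, u + s⟩` of area `a' = u × m + s × m` and
content `c' = ct u m s`. `NoRoom` is in `NR.Defs`.

`Lv O N u v e p e' p' c a c' a'`: level vectors of a tree: `L = ⟨e, p⟩`, `u × e = c`,
`p × e = a`, `c p = a u`, and the same for `M`.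
-/

set_option autoImplicit false

namespace Pool.Agent.H4G.Six

open Pool.Agent.H4G

variable {X : Type} {O : PO X} {N B K : ℤ} {u v l q m s y e p e' p' l1 q1 m1 s1 : Z2}
  {c a c' a' : ℤ}

/-! ## Trees -/

/-- a tree of volume `N` -/
structure TN (O : PO X) (N : ℤ) (u v l q m s : Z2) : Prop where
  has : Has6 O (u, v, l, q, m, s)
  vol : vol6 (u, v, l, q, m, s) = N

theorem TN.sum (h : TN O N u v l q m s) :
    cr u v + (cr u l + cr q l) + (cr u m + cr s m) = N := by
  rw [← h.vol]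
  simp only [vol6]
  ring

theorem TN.pos (h : TN O N u v l q m s) :
    0 < cr u v ∧ 0 < cr u l ∧ 0 < cr u m ∧ 0 < cr q l ∧ 0 < cr s m := h.has.pos

theorem TN.swap (h : TN O N u v l q m s) : TN O N (-u) (-v) (-m) (-s) (-l) (-q) :=
  ⟨h.has.swap, vol6_swap.trans h.vol⟩

theorem cr_neg_neg : cr (-u) (-v) = cr u v := by
  rw [cr_negl, cr_negr, neg_neg]

/-- the content depends only on the lattice `⟨l, u + q⟩` -/
theorem ct_congr (h : lat l1 (u + q1) = lat l (u + q)) : ct u l1 q1 = ct u l q := by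
  have key : ∀ {l q l1 q1 : Z2}, lat l1 (u + q1) = lat l (u + q) → ct u l q ∣ ct u l1 q1 := by
    intro l q l1 q1 h
    have hd : ∀ z ∈ lat l (u + q), ct u l q ∣ cr u z := by
      intro z hz
      obtain ⟨i, j, rfl⟩ := mem_lat_coords hz
      have e1 : cr u (i • l + j • (u + q)) = i * cr u l + j * cr u q := by
        simp only [cr, Prod.fst_add, Prod.snd_add, Prod.smul_fst, Prod.smul_snd, smul_eq_mul]
        ring
      rw [e1]
      exact dvd_add (Dvd.dvd.mul_left ct_dvd_left _) (Dvd.dvd.mul_left ct_dvd_right _)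
    refine dvd_ct (hd _ ?_) ?_
    · rw [← h]
      exact AddSubgroup.subset_closure (by simp)
    · have h2 := hd (u + q1) (by rw [← h]; exact AddSubgroup.subset_closure (by simp))
      rw [cr_addr, cr_self', zero_add] at h2
      exact h2
  have h0 : ∀ l q : Z2, 0 ≤ ct u l q := fun l q => Int.natCast_nonneg _
  exact Int.dvd_antisymm (h0 _ _) (h0 _ _) (key h.symm) (key h)

/-- CHANGE OF THE SLITS -/
theorem TN.change (h : TN O N u v l q m s) (hl1 : 0 < cr u l1) (hq1 : 0 < cr q1 l1)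
    (hL : lat l1 (u + q1) = lat l (u + q)) (hm1 : 0 < cr u m1) (hs1 : 0 < cr s1 m1)
    (hM : lat m1 (u + s1) = lat m (u + s)) : TN O N u v l1 q1 m1 s1 ∧
      cr u l1 + cr q1 l1 = cr u l + cr q l ∧ cr u m1 + cr s1 m1 = cr u m + cr s m ∧
      ct u l1 q1 = ct u l q ∧ ct u m1 s1 = ct u m s := by
  obtain ⟨p1, p2, p3, p4, p5⟩ := h.has.pos
  have k1 := h.has.change hl1 hq1 hL hm1 hs1 hM
  have b1 : Blk6 (lat l (u + q)) u l q := ⟨p2, p4, rfl⟩
  have b2 : Blk6 (lat m (u + s)) u m s := ⟨p3, p5, rfl⟩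
  have a1 := b1.area ⟨hl1, hq1, hL⟩
  have a2 := b2.area ⟨hm1, hs1, hM⟩
  refine ⟨⟨k1, ?_⟩, by linarith, by linarith, ct_congr hL, ct_congr hM⟩
  rw [← h.vol]
  simp only [vol6]
  linarith

/-- CENTRE EXIT: every centre of `⟨u, v + l + m⟩` -/
theorem TN.center (h : TN O N u v l q m s) {i j : ℤ} (hij : IsCoprime i j)
    (hy : y = i • u + j • (v + l + m)) (h1 : 0 < cr y l) (h2 : 0 < cr y m)
    (h3 : cr y l + cr y m < cr u v + cr u l + cr u m) :
    ∃ v', TN O N y v' l q m s ∧ cr y v' = cr u v + cr u l + cr u m - cr y l - cr y m ∧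
      lat y (v' + l + m) = lat u (v + l + m) := by
  obtain ⟨v', k1, k2, k3, k4⟩ := h.has.recenter hij hy h1 h2 h3
  exact ⟨v', ⟨k1, k4.trans h.vol⟩, k3, k2⟩

/-! ## Level vectors -/

/-- Level vectors of a tree: `L = ⟨e, p⟩`, `M = ⟨e', p'⟩`. -/
structure Lv (O : PO X) (N : ℤ) (u v e p e' p' : Z2) (c a c' a' : ℤ) : Prop where
  tree : TN O N u v e (p - u) e' (p' - u)
  c0 : 0 < c
  c0' : 0 < c'
  ca : c < a
  ca' : c' < a'
  ue : cr u e = c
  ue' : cr u e' = c'
  pe : cr p e = a
  pe' : cr p' e' = a'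
  cp : c • p = a • u
  cp' : c' • p' = a' • u

/-- Bezout in one lattice -/
theorem level_ex (h1 : 0 < cr u l) (h2 : 0 < cr q l) : ∃ e p : Z2,
    lat e p = lat l (u + q) ∧ cr u e = ct u l q ∧ cr p e = cr u l + cr q l ∧
      ct u l q • p = (cr u l + cr q l) • u ∧ 0 < ct u l q ∧ ct u l q < cr u l + cr q l := by
  have hc := ct_pos (q := q) h1
  have hle := ct_le (q := q) h1
  obtain ⟨al, hal⟩ : ct u l q ∣ cr u l := ct_dvd_left
  obtain ⟨be, hbe⟩ : ct u l q ∣ cr u q := ct_dvd_right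
  have hb : ct u l q = cr u l * Int.gcdA (cr u l) (cr u q) +
      cr u q * Int.gcdB (cr u l) (cr u q) := Int.gcd_eq_gcd_ab (cr u l) (cr u q)
  obtain ⟨x, hx⟩ : ∃ x, x = Int.gcdA (cr u l) (cr u q) := ⟨_, rfl⟩
  obtain ⟨w, hw⟩ : ∃ w, w = Int.gcdB (cr u l) (cr u q) := ⟨_, rfl⟩
  rw [← hx, ← hw] at hb
  obtain ⟨C, hC⟩ : ∃ C, C = ct u l q := ⟨_, rfl⟩
  rw [← hC] at hc hle hal hbe hb ⊢
  have hdet : x * al + w * be = 1 := by
    have : C * (x * al + w * be) = C * 1 := by
      calc C * (x * al + w * be) = (C * al) * x + (C * be) * w := by ring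
        _ = cr u l * x + cr u q * w := by rw [← hal, ← hbe]
        _ = C * 1 := by rw [← hb, mul_one]
    exact mul_left_cancel₀ hc.ne' this
  refine ⟨x • l + w • (u + q), (-be) • l + al • (u + q), ?_, ?_, ?_, ?_, hc, by linarith⟩
  · exact closure_pair_eq (α := x) (β := w) (γ := -be) (δ := al) rfl rfl (Or.inl (by linarith))
  · have e1 : cr u (x • l + w • (u + q)) = cr u l * x + cr u q * w := by
      simp only [cr, Prod.fst_add, Prod.snd_add, Prod.smul_fst, Prod.smul_snd, smul_eq_mul]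
      ring
    rw [e1, ← hb]
  · have e1 : cr ((-be) • l + al • (u + q)) (x • l + w • (u + q)) =
        (x * al + w * be) * (cr u l + cr q l) := by
      simp only [cr, Prod.fst_add, Prod.snd_add, Prod.smul_fst, Prod.smul_snd, smul_eq_mul]
      ring
    rw [e1, hdet, one_mul]
  · have e1 : C • ((-be) • l + al • (u + q)) = (-cr u q) • l + cr u l • (u + q) := by
      rw [hbe, hal]
      module
    rw [e1]
    ext
    · simp only [cr, Prod.fst_add, Prod.snd_add, Prod.smul_fst, Prod.smul_snd, smul_eq_mul]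
      ring
    · simp only [cr, Prod.fst_add, Prod.snd_add, Prod.smul_fst, Prod.smul_snd, smul_eq_mul]
      ring

/-- every tree has level vectors -/
theorem TN.lv (h : TN O N u v l q m s) : ∃ e p e' p' : Z2,
    Lv O N u v e p e' p' (ct u l q) (cr u l + cr q l) (ct u m s) (cr u m + cr s m) ∧
      lat e p = lat l (u + q) ∧ lat e' p' = lat m (u + s) := by
  obtain ⟨p1, p2, p3, p4, p5⟩ := h.pos
  obtain ⟨e, p, k1, k2, k3, k4, k5, k6⟩ := level_ex p2 p4
  obtain ⟨e', p', j1, j2, j3, j4, j5, j6⟩ := level_ex p3 p5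
  have x1 : u + (p - u) = p := by abel
  have x2 : u + (p' - u) = p' := by abel
  have h1 := h.change (l1 := e) (q1 := p - u) (m1 := e') (s1 := p' - u) (by rw [k2]; exact k5)
    (by rw [cr_subl, k3, k2]; linarith) (by rw [x1]; exact k1) (by rw [j2]; exact j5)
    (by rw [cr_subl, j3, j2]; linarith) (by rw [x2]; exact j1)
  exact ⟨e, p, e', p', ⟨h1.1, k5, j5, k6, j6, k2, j2, k3, j3, k4, j4⟩, k1, j1⟩

namespace Lv

variable (h : Lv O N u v e p e' p' c a c' a')

include h

theorem sum : cr u v + a + a' = N := by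
  have := h.tree.sum
  rw [cr_subl, cr_subl, h.ue, h.ue', h.pe, h.pe'] at this
  linarith

theorem A0 : 0 < cr u v := h.tree.pos.1

theorem ct : Six.ct u e (p - u) = c := by
  have h1 : c ∣ cr u p := by
    have h2 : c * cr u p = 0 := by
      have := congrArg (cr u) h.cp
      simp only [cr, Prod.smul_fst, Prod.smul_snd, smul_eq_mul] at this ⊢
      linarith
    rcases mul_eq_zero.1 h2 with h3 | h3
    · exact absurd h3 h.c0.ne'
    · rw [h3]; exact dvd_zero _
  have h2 : c ∣ Six.ct u e (p - u) := by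
    refine dvd_ct (by rw [h.ue]) ?_
    have : cr u (p - u) = cr u p := by simp only [cr, Prod.fst_sub, Prod.snd_sub]; ring
    rw [this]; exact h1
  refine Int.dvd_antisymm (Int.natCast_nonneg _) h.c0.le ?_ h2
  have := ct_dvd_left (u := u) (l := e) (q := p - u)
  rwa [h.ue] at this

/-- the second torus first -/
theorem swap : Lv O N (-u) (-v) (-e') (-p') (-e) (-p) c' a' c a := by
  have h1 := h.tree.swap
  have x1 : -(p' - u) = -p' - -u := by abel
  have x2 : -(p - u) = -p - -u := by abel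
  rw [x1, x2] at h1
  refine ⟨h1, h.c0', h.c0, h.ca', h.ca, ?_, ?_, ?_, ?_, ?_, ?_⟩
  · rw [cr_neg_neg]; exact h.ue'
  · rw [cr_neg_neg]; exact h.ue
  · rw [cr_neg_neg]; exact h.pe'
  · rw [cr_neg_neg]; exact h.pe
  · rw [smul_neg, smul_neg, h.cp']
  · rw [smul_neg, smul_neg, h.cp]

theorem ct' : Six.ct u e' (p' - u) = c' := by
  have h1 := h.swap.ct
  have x1 : -p' - -u = -(p' - u) := by abel
  rw [x1, ct_neg] at h1
  exact h1

/-- `c (y × p) = a (y × u)` -/
theorem yp (y : Z2) : c * cr y p = a * cr y u := by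
  have := congrArg (cr y) h.cp
  simp only [cr, Prod.smul_fst, Prod.smul_snd, smul_eq_mul] at this ⊢
  linarith

theorem yp' (y : Z2) : c' * cr y p' = a' * cr y u := by
  have := congrArg (cr y) h.cp'
  simp only [cr, Prod.smul_fst, Prod.smul_snd, smul_eq_mul] at this ⊢
  linarith

/-- the content over a level one vector at any centre: `c (y × q) = (a - c) (y × u)` -/
theorem yq (y : Z2) : c * cr y (p - u) = (a - c) * cr y u := by
  have := h.yp y
  have e1 : cr y (p - u) = cr y p - cr y u := by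
    simp only [cr, Prod.fst_sub, Prod.snd_sub]; ring
  rw [e1]
  linarith

theorem yq' (y : Z2) : c' * cr y (p' - u) = (a' - c') * cr y u := by
  have := h.yp' y
  have e1 : cr y (p' - u) = cr y p' - cr y u := by
    simp only [cr, Prod.fst_sub, Prod.snd_sub]; ring
  rw [e1]
  linarith

theorem up : cr u p = 0 := by
  have := h.yp u
  rw [cr_self', mul_zero] at this
  exact (mul_eq_zero.1 this).resolve_left h.c0.ne'

theorem up' : cr u p' = 0 := by
  have := h.yp' u
  rw [cr_self', mul_zero] at this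
  exact (mul_eq_zero.1 this).resolve_left h.c0'.ne'

theorem pp' : cr p p' = 0 := by
  have h1 := h.yp' p
  have h2 := h.yp u
  rw [cr_self', mul_zero] at h2
  have h3 : cr p u = 0 := by
    rw [cr_swap' u p, (mul_eq_zero.1 h2).resolve_left h.c0.ne', neg_zero]
  rw [h3, mul_zero] at h1
  exact (mul_eq_zero.1 h1).resolve_left h.c0'.ne'

/-- `c P = a c'`, `P = p × e'` -/
theorem relP : c * cr p e' = a * c' := by
  have h1 := h.yp e'
  rw [cr_swap' p e', cr_swap' u e', h.ue'] at h1
  linarith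

/-- `c' P' = a' c`, `P' = p' × e` -/
theorem relP' : c' * cr p' e = a' * c := by
  have h1 := h.yp' e
  rw [cr_swap' p' e, cr_swap' u e, h.ue] at h1
  linarith

/-- the product of two level vectors -/
theorem cr_lm (α k α' k' : ℤ) : cr (α • e + k • p) (α' • e' + k' • p') =
    α * α' * cr e e' + k * α' * cr p e' - α * k' * cr p' e := by
  have h1 := h.pp'
  have e1 : cr (α • e + k • p) (α' • e' + k' • p') =
      α * α' * cr e e' + k * α' * cr p e' - α * k' * cr p' e + k * k' * cr p p' := by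
    simp only [cr, Prod.fst_add, Prod.snd_add, Prod.smul_fst, Prod.smul_snd, smul_eq_mul]
    ring
  rw [e1, h1]
  ring

theorem cr_ul (α k : ℤ) : cr u (α • e + k • p) = α * c := by
  have e1 : cr u (α • e + k • p) = α * cr u e + k * cr u p := by
    simp only [cr, Prod.fst_add, Prod.snd_add, Prod.smul_fst, Prod.smul_snd, smul_eq_mul]
    ring
  rw [e1, h.ue, h.up]
  ring

theorem cr_um (α k : ℤ) : cr u (α • e' + k • p') = α * c' := by
  have e1 : cr u (α • e' + k • p') = α * cr u e' + k * cr u p' := by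
    simp only [cr, Prod.fst_add, Prod.snd_add, Prod.smul_fst, Prod.smul_snd, smul_eq_mul]
    ring
  rw [e1, h.ue', h.up']
  ring

/-- the level one vectors may be changed -/
theorem lev1 (k k' : ℤ) : Lv O N u v (e + k • p) p (e' + k' • p') p' c a c' a' := by
  have x1 : u + (p - u) = p := by abel
  have x2 : u + (p' - u) = p' := by abel
  have y1 : cr u (e + k • p) = c := by
    have := h.cr_ul 1 k
    rw [one_smul, one_mul] at this
    exact this
  have y2 : cr u (e' + k' • p') = c' := by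
    have := h.cr_um 1 k'
    rw [one_smul, one_mul] at this
    exact this
  have y3 : cr p (e + k • p) = a := by
    have : cr p (e + k • p) = cr p e := by
      simp only [cr, Prod.fst_add, Prod.snd_add, Prod.smul_fst, Prod.smul_snd, smul_eq_mul]
      ring
    rw [this, h.pe]
  have y4 : cr p' (e' + k' • p') = a' := by
    have : cr p' (e' + k' • p') = cr p' e' := by
      simp only [cr, Prod.fst_add, Prod.snd_add, Prod.smul_fst, Prod.smul_snd, smul_eq_mul]
      ring
    rw [this, h.pe']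
  have h1 := h.tree.change (l1 := e + k • p) (q1 := p - u) (m1 := e' + k' • p') (s1 := p' - u)
    (by rw [y1]; exact h.c0) (by rw [cr_subl, y3, y1]; linarith [h.ca]) (by
      rw [x1]
      exact closure_pair_eq (α := 1) (β := k) (γ := 0) (δ := 1) (by module) (by module)
        (Or.inl (by norm_num)))
    (by rw [y2]; exact h.c0') (by rw [cr_subl, y4, y2]; linarith [h.ca']) (by
      rw [x2]
      exact closure_pair_eq (α := 1) (β := k') (γ := 0) (δ := 1) (by module) (by module)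
        (Or.inl (by norm_num)))
  exact ⟨h1.1, h.c0, h.c0', h.ca, h.ca', y1, y2, y3, y4, h.cp, h.cp'⟩

/-- SLITS OF ANY LEVEL: `l = α e + k p`, `m = α' e' + k' p'` in the windows. For `α = 1` one may
take `q = p - u` (`slitM` below). -/
theorem slit {α k α' k' : ℤ} (h0 : 0 < α) (h1 : α * c < a) (h2 : IsCoprime α k) (h0' : 0 < α')
    (h1' : α' * c' < a') (h2' : IsCoprime α' k') : ∃ q1 s1 : Z2,
      TN O N u v (α • e + k • p) q1 (α' • e' + k' • p') s1 ∧
      lat (α • e + k • p) (u + q1) = lat e p ∧ lat (α' • e' + k' • p') (u + s1) = lat e' p' ∧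
      cr q1 (α • e + k • p) = a - α * c ∧ cr s1 (α' • e' + k' • p') = a' - α' * c' ∧
      Six.ct u (α • e + k • p) q1 = c ∧ Six.ct u (α' • e' + k' • p') s1 = c' := by
  have x1 : u + (p - u) = p := by abel
  have x2 : u + (p' - u) = p' := by abel
  obtain ⟨q1, a1, a2⟩ := exists_slit (U := u) (l := e) (q := p - u) (l1 := α • e + k • p) h2
    (by rw [x1])
  obtain ⟨s1, b1, b2⟩ := exists_slit (U := u) (l := e') (q := p' - u) (l1 := α' • e' + k' • p') h2'
    (by rw [x2])
  rw [h.cr_ul, cr_subl, h.pe, h.ue] at a2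
  rw [h.cr_um, cr_subl, h.pe', h.ue'] at b2
  have a3 : cr q1 (α • e + k • p) = a - α * c := by rw [a2]; ring
  have b3 : cr s1 (α' • e' + k' • p') = a' - α' * c' := by rw [b2]; ring
  have h3 := h.tree.change (by rw [h.cr_ul]; exact mul_pos h0 h.c0) (by rw [a3]; linarith) a1
    (by rw [h.cr_um]; exact mul_pos h0' h.c0') (by rw [b3]; linarith) b1
  refine ⟨q1, s1, h3.1, a1.trans (by rw [x1]), b1.trans (by rw [x2]), a3, b3, ?_, ?_⟩
  · rw [h3.2.2.2.1, h.ct]
  · rw [h3.2.2.2.2, h.ct']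

/-- level one over `L` with `q = p - u`, any level over `M` -/
theorem slitM (k : ℤ) {α' k' : ℤ} (h0' : 0 < α')
    (h1' : α' * c' < a') (h2' : IsCoprime α' k') : ∃ s1 : Z2,
      TN O N u v (e + k • p) (p - u) (α' • e' + k' • p') s1 ∧
      lat (α' • e' + k' • p') (u + s1) = lat e' p' ∧
      cr s1 (α' • e' + k' • p') = a' - α' * c' ∧ Six.ct u (α' • e' + k' • p') s1 = c' := by
  have hk := h.lev1 k 0
  have x2 : u + (p' - u) = p' := by abel
  obtain ⟨s1, b1, b2⟩ := exists_slit (U := u) (l := e') (q := p' - u) (l1 := α' • e' + k' • p') h2'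
    (by rw [x2])
  rw [h.cr_um, cr_subl, h.pe', h.ue'] at b2
  have b3 : cr s1 (α' • e' + k' • p') = a' - α' * c' := by rw [b2]; ring
  have b1' : lat (α' • e' + k' • p') (u + s1) = lat (e' + (0 : ℤ) • p') (u + (p' - u)) := by
    rw [b1, zero_smul, add_zero]
  have h3 := hk.tree.change hk.tree.pos.2.1 hk.tree.pos.2.2.2.1 rfl
    (by rw [h.cr_um]; exact mul_pos h0' h.c0') (by rw [b3]; linarith) b1'
  refine ⟨s1, h3.1, b1.trans (by rw [x2]), b3, ?_⟩
  rw [h3.2.2.2.2, hk.ct']

end Lv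

/-! ## (T2) in numbers -/

/-- the negation of (T2) for all pairs of low level, in numbers: `r = e × e'`, `P = p × e'`,
`P' = p' × e` -/
def FarN (N B A c a c' a' r P P' : ℤ) : Prop :=
  ∀ α k α' k' : ℤ, 0 < α → α * c < a → IsCoprime α k → 0 < α' → α' * c' < a' → IsCoprime α' k' →
    24 * B ^ 2 * (α * c + α' * c') ≤ N →
    max (α * c) (α' * c') * (A - 2 * (α * c + α' * c')) ≤
      |α * α' * r + k * α' * P - α * k' * P'| * (A + α * c + α' * c')

/-- (T1) -/
theorem NoRoom.thin (hR : NoRoom O N B) (hB : 2 ≤ B) (h : TN O N u v l q m s)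
    (hA : 8 * B ^ 2 * cr u v ≤ N) : N ≤ 4 * B ^ 2 * ct u l q ∧ N ≤ 4 * B ^ 2 * ct u m s :=
  hR.t1 hB h.has h.vol hA

/-! ## (4a), (4b), (4c) -/

/-- no tree has both contents `≤ N / K` -/
def No4a (O : PO X) (N K : ℤ) : Prop := ∀ u v l q m s : Z2, TN O N u v l q m s →
  ¬ (K * ct u l q ≤ N ∧ K * ct u m s ≤ N)

/-- (4c): `c > N / K`, `c' ≤ N / K^21` is impossible -/
def Row4c : Prop := ∀ (X : Type) (O : PO X) (N B K : ℤ) (u v e p e' p' : Z2)
  (c a c' a' : ℤ), 10 ^ 6 ≤ B → B ^ 3 ≤ K → NoRoom O N B → No4a O N K →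
  (∀ u v e p e' p' c a c' a', Lv O N u v e p e' p' c a c' a' → N < K * c → K ^ 9 * c' ≤ N →
    a' ≤ 2 * c') →
  Lv O N u v e p e' p' c a c' a' → N < K * c → K ^ 21 * c' ≤ N → False

end Pool.Agent.H4G.Six
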