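import Pool.Agent.H4G.Six.BMin

/-!
# Centres over the vectors of the first row (helper2)

`exists_rows0`: first rows with `q ∥ u`, `s ∥ u`. `centre_k`: for `l_k = l + k (u + q)` with a small
positive `l_k × m` there is a centre `y = t u + v + l_k + m` with `0 < y × l_k ≤ u × l` and
`(u × l) (y × m) = (u × m) (y × l_k) + W (l_k × m)`.
-/

set_option autoImplicit false

namespace Pool.Agent.H4G.Six

open Pool.Agent.H4G

variable {X : Type} {O : PO X} {N : ℤ} {u v l q m s : Z2}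

/-- twist of `s` -/
theorem Has6.tws (hT : Has6 O (u, v, l, q, m, s)) (k : ℤ) :
    Has6 O (u, v, l, q, m, s + k • m) ∧
      vol6 (u, v, l, q, m, s + k • m) = vol6 (u, v, l, q, m, s) := by
  obtain ⟨p1, p2, p3, p4, p5⟩ := hT.pos
  have e : cr (s + k • m) m = cr s m := by
    simp only [cr, Prod.fst_add, Prod.snd_add, Prod.smul_fst, Prod.smul_snd, smul_eq_mul]
    ring
  refine ⟨hT.change p2 p4 rfl p3 (by rw [e]; exact p5) ?_, ?_⟩
  · exact closure_pair_eq (α := 1) (β := 0) (γ := k) (δ := 1) (by module) (by module)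
      (Or.inl (by norm_num))
  · simp only [vol6]
    rw [e]

/-- FIRST ROWS with `q ∥ u` and `s ∥ u` -/
theorem Has6.rows0 (hT : Has6 O (u, v, l, q, m, s)) (hN : vol6 (u, v, l, q, m, s) = N) :
    ∃ l1 q1 m1 s1 : Z2, Has6 O (u, v, l1, q1, m1, s1) ∧ vol6 (u, v, l1, q1, m1, s1) = N ∧
      lat l1 (u + q1) = lat l (u + q) ∧ lat m1 (u + s1) = lat m (u + s) ∧
      cr u l1 = ct u l q ∧ cr u m1 = ct u m s ∧ cr u q1 = 0 ∧ cr u s1 = 0 ∧
      cr u l1 + cr q1 l1 = cr u l + cr q l ∧ cr u m1 + cr s1 m1 = cr u m + cr s m := by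
  obtain ⟨p1, p2, p3, p4, p5⟩ := hT.pos
  obtain ⟨l1, q1, m1, s1, h1, h2, k1, k2, e1, e2, ⟨a, ha⟩, ⟨b, hb⟩⟩ := hT.rows hN
  have a1 := Blk6.area (L := lat l (u + q)) ⟨p2, p4, rfl⟩ k1
  have a2 := Blk6.area (L := lat m (u + s)) ⟨p3, p5, rfl⟩ k2
  obtain ⟨h3, h4⟩ := h1.twq (-a)
  obtain ⟨h5, h6⟩ := h3.tws (-b)
  refine ⟨l1, q1 + (-a) • l1, m1, s1 + (-b) • m1, h5, h6.trans (h4.trans h2), ?_, ?_, e1, e2,
    ?_, ?_, ?_, ?_⟩
  · rw [← k1.2.2]
    exact closure_pair_eq (α := 1) (β := 0) (γ := -a) (δ := 1) (by module) (by module)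
      (Or.inl (by norm_num))
  · rw [← k2.2.2]
    exact closure_pair_eq (α := 1) (β := 0) (γ := -b) (δ := 1) (by module) (by module)
      (Or.inl (by norm_num))
  · have : cr u (q1 + (-a) • l1) = cr u q1 - a * cr u l1 := by
      simp only [cr, Prod.fst_add, Prod.snd_add, Prod.smul_fst, Prod.smul_snd, smul_eq_mul]
      ring
    rw [this, ha]; ring
  · have : cr u (s1 + (-b) • m1) = cr u s1 - b * cr u m1 := by
      simp only [cr, Prod.fst_add, Prod.snd_add, Prod.smul_fst, Prod.smul_snd, smul_eq_mul]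
      ring
    rw [this, hb]; ring
  · have : cr (q1 + (-a) • l1) l1 = cr q1 l1 := by
      simp only [cr, Prod.fst_add, Prod.snd_add, Prod.smul_fst, Prod.smul_snd, smul_eq_mul]
      ring
    rw [this]
    linarith
  · have : cr (s1 + (-b) • m1) m1 = cr s1 m1 := by
      simp only [cr, Prod.fst_add, Prod.snd_add, Prod.smul_fst, Prod.smul_snd, smul_eq_mul]
      ring
    rw [this]
    linarith

/-- the other vectors of the first row -/
theorem Has6.row_k (hT : Has6 O (u, v, l, q, m, s)) (hN : vol6 (u, v, l, q, m, s) = N)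
    (uq : cr u q = 0) (k : ℤ) :
    Has6 O (u, v, l + k • (u + q), q, m, s) ∧ vol6 (u, v, l + k • (u + q), q, m, s) = N ∧
      cr u (l + k • (u + q)) = cr u l ∧ cr q (l + k • (u + q)) = cr q l ∧
      cr (l + k • (u + q)) m = cr l m + k * cr (u + q) m := by
  obtain ⟨p1, p2, p3, p4, p5⟩ := hT.pos
  have qu : cr q u = 0 := by rw [cr_swap' u q, uq, neg_zero]
  have e1 : cr u (l + k • (u + q)) = cr u l := by
    have : cr u (l + k • (u + q)) = cr u l + k * cr u q := by
      simp only [cr, Prod.fst_add, Prod.snd_add, Prod.smul_fst, Prod.smul_snd, smul_eq_mul]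
      ring
    rw [this, uq]; ring
  have e2 : cr q (l + k • (u + q)) = cr q l := by
    have : cr q (l + k • (u + q)) = cr q l + k * cr q u := by
      simp only [cr, Prod.fst_add, Prod.snd_add, Prod.smul_fst, Prod.smul_snd, smul_eq_mul]
      ring
    rw [this, qu]; ring
  have e3 : cr (l + k • (u + q)) m = cr l m + k * cr (u + q) m := by
    simp only [cr, Prod.fst_add, Prod.snd_add, Prod.smul_fst, Prod.smul_snd, smul_eq_mul]
    ring
  refine ⟨hT.change (by rw [e1]; exact p2) (by rw [e2]; exact p4) ?_ p3 p5 rfl, ?_, e1, e2, e3⟩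
  · exact closure_pair_eq (α := 1) (β := k) (γ := 0) (δ := 1) (by module) (by module)
      (Or.inl (by norm_num))
  · rw [← hN]
    simp only [vol6]
    rw [e1, e2]

/-- the products with `u + q` -/
theorem cr_uq (uq : cr u q = 0) (w : Z2) :
    cr u l * cr (u + q) w = (cr u l + cr q l) * cr u w := by
  have : cr u l * cr (u + q) w - (cr u l + cr q l) * cr u w = cr u q * cr l w := by
    simp only [cr, Prod.fst_add, Prod.snd_add]
    ring
  rw [uq, zero_mul] at this
  linarith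

/-- **THE CENTRE OVER `l_k`** -/
theorem Has6.centre_k (hT : Has6 O (u, v, l, q, m, s)) (hN : vol6 (u, v, l, q, m, s) = N)
    (uq : cr u q = 0) (k : ℤ) (h1 : 0 < cr (l + k • (u + q)) m)
    (h2 : (cr u v + cr u l + cr u m) * cr (l + k • (u + q)) m < cr u l * cr u v) :
    ∃ (t r V : ℤ) (y v' : Z2), y = t • u + (v + (l + k • (u + q)) + m) ∧
      Has6 O (y, v', l + k • (u + q), q, m, s) ∧
      vol6 (y, v', l + k • (u + q), q, m, s) = N ∧
      cr y (l + k • (u + q)) = r ∧ 0 < r ∧ r ≤ cr u l ∧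
      r = cr (v + m) (l + k • (u + q)) + t * cr u l ∧
      cr y m = V ∧ 0 < V ∧ r + V < cr u v + cr u l + cr u m ∧
      cr u l * V = cr u m * r + (cr u v + cr u l + cr u m) * cr (l + k • (u + q)) m ∧
      cr y q = -cr q (v + l + m) ∧ cr y u = -(cr u v + cr u l + cr u m) := by
  obtain ⟨g1, g2, g3, g4, g5⟩ := hT.row_k hN uq k
  obtain ⟨lk, hlk⟩ : ∃ lk, lk = l + k • (u + q) := ⟨_, rfl⟩
  rw [← hlk] at h1 h2 g1 g2 g3 g4 g5 ⊢
  obtain ⟨p1, p2, p3, p4, p5⟩ := hT.pos
  have qu : cr q u = 0 := by rw [cr_swap' u q, uq, neg_zero]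
  obtain ⟨R, hR⟩ : ∃ R, R = cr (v + m) lk := ⟨_, rfl⟩
  obtain ⟨c, hc⟩ : ∃ c, c = cr u l := ⟨_, rfl⟩
  rw [← hc] at h2 g3 p2 ⊢
  obtain ⟨W, hW⟩ : ∃ W, W = cr u v + c + cr u m := ⟨_, rfl⟩
  rw [← hW] at h2 ⊢
  -- the residue
  obtain ⟨t, ht⟩ : ∃ t, t = -((R - 1) / c) := ⟨_, rfl⟩
  obtain ⟨r, hr⟩ : ∃ r, r = R + t * c := ⟨_, rfl⟩
  have r0 : 0 < r ∧ r ≤ c := by
    have e1 := Int.emod_add_mul_ediv (R - 1) c
    have e2 := Int.emod_nonneg (R - 1) p2.ne'
    have e3 := Int.emod_lt_of_pos (R - 1) p2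
    have e4 : r = (R - 1) % c + 1 := by
      rw [hr, ht]
      linarith
    constructor <;> linarith
  obtain ⟨y, hy⟩ : ∃ y, y = t • u + (v + lk + m) := ⟨_, rfl⟩
  have hyl : cr y lk = r := by
    rw [hr, hR, hy, ← g3]
    simp only [cr, Prod.fst_add, Prod.snd_add, Prod.smul_fst, Prod.smul_snd, smul_eq_mul]
    ring
  have hW' : cr u (v + lk + m) = W := by
    rw [hW, cr_addr, cr_addr, g3]
  have hym : c * cr y m = cr u m * r + W * cr lk m := by
    rw [← hyl, ← hW', ← g3, hy]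
    simp only [cr, Prod.fst_add, Prod.snd_add, Prod.smul_fst, Prod.smul_snd, smul_eq_mul]
    ring
  have hW0 : 0 < W := by rw [hW]; linarith
  have V0 : 0 < cr y m := by
    have : 0 < c * cr y m := by
      rw [hym]
      have := mul_pos p3 r0.1
      have := mul_pos hW0 h1
      linarith
    exact (mul_pos_iff_of_pos_left p2).1 this
  have hsum : r + cr y m < W := by
    have h3 : c * (r + cr y m) < c * W := by
      have e1 : c * (r + cr y m) = c * r + (cr u m * r + W * cr lk m) := by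
        rw [← hym]; ring
      have e2 : c * r ≤ c * c := mul_le_mul_of_nonneg_left r0.2 p2.le
      have e3 : cr u m * r ≤ cr u m * c := mul_le_mul_of_nonneg_left r0.2 p3.le
      have e4 : c * W = c * cr u v + c * c + cr u m * c := by rw [hW]; ring
      rw [e1, e4]
      linarith
    exact lt_of_mul_lt_mul_left h3 p2.le
  obtain ⟨v', k1, k2, k3, k4⟩ := g1.recenter (i := t) (j := 1) (u' := y)
    isCoprime_one_right (by rw [hy, one_smul]) (by rw [hyl]; exact r0.1) V0
    (by rw [hyl, g3]; rw [hW] at hsum; linarith)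
  refine ⟨t, r, cr y m, y, v', hy, k1, k4.trans g2, hyl, r0.1, r0.2, by rw [hr, hR], rfl, V0,
    hsum, hym, ?_, ?_⟩
  · have e : cr y q = t * cr u q - cr q (v + lk + m) := by
      rw [hy]
      simp only [cr, Prod.fst_add, Prod.snd_add, Prod.smul_fst, Prod.smul_snd, smul_eq_mul]
      ring
    rw [e, uq, cr_addr, cr_addr, g4, cr_addr, cr_addr]; ring
  · have e : cr y u = -cr u (v + lk + m) := by
      rw [hy]
      simp only [cr, Prod.fst_add, Prod.snd_add, Prod.smul_fst, Prod.smul_snd, smul_eq_mul]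
      ring
    rw [e, hW']

end Pool.Agent.H4G.Six
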