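import Mathlib

/-!
# Theorem NR, case (4a) I: the arithmetic (page NR_h58, typed by helper5)

`L = ⟨e, p⟩` with `u × e = c`, `p ∥ u`, `p × e = a`; `M = ⟨e', p'⟩` with `u × e' = c'`,
`p' ∥ u`, `p' × e' = a'`; `E = e × e'`, `P = p × e' = a c' / c`, `P' = p' × e = a' c / c'`.
The vectors `α e + k p` and `α' e' + k' p'` have the product
`α α' E + k α' P - α k' P'`.
-/

set_option autoImplicit false

namespace Pool.Agent.H4G.Six.NR

/-- a number divisible by `1, …, 2 n` is large -/
theorem four_pow_le_of_dvd {n y : ℕ} (hn : 4 ≤ n) (hy : 0 < y)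
    (h : ∀ d : ℕ, 0 < d → d ≤ 2 * n → d ∣ y) : 4 ^ n < n * y := by
  have h1 : Nat.centralBinom n ∣ y := by
    rw [Nat.dvd_iff_prime_pow_dvd_dvd]
    intro p k hp hk
    rcases Nat.eq_zero_or_pos k with h0 | h0
    · subst h0; simp
    have hne : Nat.centralBinom n ≠ 0 := (Nat.centralBinom_pos n).ne'
    have hk' : k ≤ (Nat.centralBinom n).factorization p :=
      (hp.pow_dvd_iff_le_factorization hne).1 hk
    refine h _ (pow_pos hp.pos _) ?_
    calc p ^ k ≤ p ^ (Nat.centralBinom n).factorization p := Nat.pow_le_pow_right hp.pos hk'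
      _ ≤ 2 * n := Nat.pow_factorization_choose_le (by omega)
  have h2 := Nat.le_of_dvd hy h1
  have h3 := Nat.four_pow_lt_mul_centralBinom n hn
  exact h3.trans_le (Nat.mul_le_mul_left _ h2)

/-- the least non-divisor -/
theorem exists_nondvd {n y : ℕ} (hn : 4 ≤ n) (hy : 0 < y) (h : n * y ≤ 4 ^ n) :
    ∃ d : ℕ, 2 ≤ d ∧ d ≤ 2 * n ∧ d ≤ y + 1 ∧ ¬ d ∣ y := by
  classical
  have hex : ∃ d : ℕ, 0 < d ∧ ¬ d ∣ y := by
    refine ⟨y + 1, by omega, fun h => ?_⟩
    have := Nat.le_of_dvd hy h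
    omega
  have h0 := Nat.find_spec hex
  have hmin : ∀ m : ℕ, 0 < m → ¬ m ∣ y → Nat.find hex ≤ m := fun m h1 h2 =>
    Nat.find_min' hex ⟨h1, h2⟩
  refine ⟨Nat.find hex, ?_, ?_, ?_, h0.2⟩
  · by_contra hc
    have h1 : Nat.find hex = 1 := by have := h0.1; omega
    have := h0.2
    rw [h1] at this
    exact this (one_dvd _)
  · by_contra hc
    push Not at hc
    have := four_pow_le_of_dvd hn hy (fun d hd1 hd2 => by
      by_contra h2
      have := hmin d hd1 h2
      omega)
    omega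
  · refine hmin _ (by omega) (fun h => ?_)
    have := Nat.le_of_dvd hy h
    omega

/-- Dirichlet with reduced fractions, in integers -/
theorem dirichlet {E P n : ℤ} (hP : 0 < P) (hn : 0 < n) :
    ∃ al k : ℤ, 1 ≤ al ∧ al ≤ n ∧ IsCoprime al k ∧ (n + 1) * |al * E + k * P| ≤ P := by
  obtain ⟨j, k, hk0, hkn, h⟩ :=
    Real.exists_int_int_abs_mul_sub_le ((E : ℝ) / P) (n := n.toNat) (by omega)
  have hn' : ((n.toNat : ℕ) : ℤ) = n := Int.toNat_of_nonneg hn.le
  rw [hn'] at hkn
  have hnr : ((n.toNat : ℕ) : ℝ) = (n : ℝ) := by exact_mod_cast congrArg (Int.cast (R := ℝ)) hn'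
  rw [hnr] at h
  have hPr : (0 : ℝ) < P := by exact_mod_cast hP
  have hn1 : (0 : ℝ) < (n : ℝ) + 1 := by
    have : (0 : ℝ) < n := by exact_mod_cast hn
    linarith
  have h1 : ((n : ℝ) + 1) * |(k : ℝ) * E - j * P| ≤ P := by
    have e : (k : ℝ) * E - j * P = (k * (E / P) - j) * P := by field_simp
    rw [e, abs_mul, abs_of_pos hPr]
    rw [le_div_iff₀ hn1] at h
    nlinarith
  have h2 : (n + 1) * |k * E - j * P| ≤ P := by exact_mod_cast h1
  obtain ⟨g, hg⟩ : ∃ g : ℤ, g = Int.gcd k j := ⟨_, rfl⟩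
  have hgpos : 0 < g := by
    rw [hg]
    exact_mod_cast Int.gcd_pos_of_ne_zero_left _ hk0.ne'
  obtain ⟨k1, hk1⟩ : g ∣ k := by rw [hg]; exact Int.gcd_dvd_left _ _
  obtain ⟨j1, hj1⟩ : g ∣ j := by rw [hg]; exact Int.gcd_dvd_right _ _
  have hk1pos : 0 < k1 := by
    by_contra hc
    have : g * k1 ≤ 0 := mul_nonpos_of_nonneg_of_nonpos hgpos.le (not_lt.1 hc)
    linarith
  have hcop : IsCoprime k1 j1 := by
    rw [Int.isCoprime_iff_gcd_eq_one]
    have := Int.gcd_mul_left g k1 j1
    rw [← hk1, ← hj1] at this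
    have h3 : (Int.gcd k j : ℤ) = g.natAbs * Int.gcd k1 j1 := by exact_mod_cast this
    rw [← hg, Int.natCast_natAbs, abs_of_pos hgpos] at h3
    have h4 : g * ((Int.gcd k1 j1 : ℤ) - 1) = 0 := by linarith
    rcases mul_eq_zero.1 h4 with h5 | h5
    · exact absurd h5 hgpos.ne'
    · have : (Int.gcd k1 j1 : ℤ) = 1 := by linarith
      exact_mod_cast this
  refine ⟨k1, -j1, by omega, ?_, hcop.neg_right, ?_⟩
  · have : k1 ≤ g * k1 := by nlinarith
    linarith
  · have e : k * E - j * P = g * (k1 * E + -j1 * P) := by rw [hk1, hj1]; ring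
    rw [e, abs_mul, abs_of_pos hgpos] at h2
    have h3 : |k1 * E + -j1 * P| ≤ g * |k1 * E + -j1 * P| := by
      nlinarith [abs_nonneg (k1 * E + -j1 * P)]
    nlinarith

/-- step 1: `z ≤ 2` -/
theorem caseI_z {a c c' E P : ℤ} (hc' : 0 < c') (hcc : c' ≤ c) (ha : c < a) (hP : P * c = a * c')
    (hL : ∀ al k : ℤ, 1 ≤ al → al * c < a → IsCoprime al k →
      94 * (al * c) ≤ 100 * |al * E + k * P|) : a ≤ 2 * c := by
  have hc : 0 < c := hc'.trans_le hcc
  have hPpos : 0 < P := by
    by_contra hcon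
    have h1 : P * c ≤ 0 := mul_nonpos_of_nonpos_of_nonneg (not_lt.1 hcon) hc.le
    have h2 : 0 < a * c' := mul_pos (hc.trans ha) hc'
    linarith
  -- `n = ⌈a / c⌉ - 1`
  obtain ⟨n, hn1, hn2⟩ : ∃ n : ℤ, n * c < a ∧ a ≤ (n + 1) * c := by
    refine ⟨(a - 1) / c, ?_, ?_⟩
    · have := Int.ediv_mul_le (a - 1) hc.ne'
      linarith
    · have := Int.lt_ediv_add_one_mul_self (a - 1) hc
      linarith
  have hn0 : 1 ≤ n := by
    by_contra hcon
    have : (n + 1) * c ≤ 1 * c := by
      apply mul_le_mul_of_nonneg_right _ hc.le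
      omega
    linarith
  by_contra hcon
  have hn : 2 ≤ n := by
    by_contra h
    have : n = 1 := by omega
    rw [this] at hn2
    apply hcon
    linarith
  obtain ⟨al, k, h1, h2, h3, h4⟩ := dirichlet (E := E) hPpos (n := n) (by omega)
  have h5 := hL al k h1 (by nlinarith) h3
  -- `P ≤ (n + 1) c'`
  have hP1 : P ≤ (n + 1) * c' := by
    have : P * c ≤ (n + 1) * c' * c := by nlinarith
    exact le_of_mul_le_mul_right this hc
  have h6 : |al * E + k * P| ≤ c' := by
    have : (n + 1) * |al * E + k * P| ≤ (n + 1) * c' := h4.trans hP1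
    exact le_of_mul_le_mul_left this (by omega)
  have h7 : al = 1 := by
    by_contra h
    have : 2 ≤ al := by omega
    have : 2 * c ≤ al * c := mul_le_mul_of_nonneg_right this hc.le
    linarith
  subst h7
  simp only [one_mul] at h4 h5 h6
  obtain ⟨F, hF⟩ : ∃ F, F = E + k * P := ⟨_, rfl⟩
  rw [← hF] at h4 h5 h6
  -- the fraction next to `F` with denominator `n`
  have key : ∀ j : ℤ, IsCoprime n j → 94 * (n * c) ≤ 100 * |n * F + j * P| := by
    intro j hj
    have := hL n (n * k + j) (by omega) hn1 (by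
      have := IsCoprime.add_mul_left_right hj k
      rw [add_comm]
      exact this)
    have e : n * E + (n * k + j) * P = n * F + j * P := by rw [hF]; ring
    rwa [e] at this
  have hPn : n * c' < P := by
    have : n * c' * c < P * c := by nlinarith
    exact lt_of_mul_lt_mul_right this hc.le
  rcases le_or_gt 0 F with g | g
  · rw [abs_of_nonneg g] at h4 h5 h6
    have h8 := key (-1) isCoprime_one_right.neg_right
    have h9 : |n * F + -1 * P| ≤ P - n * F := by
      rw [abs_le]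
      constructor
      · linarith
      · nlinarith
    nlinarith
  · rw [abs_of_neg g] at h4 h5 h6
    have h8 := key 1 isCoprime_one_right
    have h9 : |n * F + 1 * P| ≤ P + n * F := by
      rw [abs_le]
      constructor
      · nlinarith
      · linarith
    nlinarith

/-- the residue of `E` modulo `P` -/
theorem exists_near {E P : ℤ} (hP : 0 < P) : ∃ k : ℤ, 2 * |E + k * P| ≤ P := by
  have h1 := Int.emod_nonneg E hP.ne'
  have h2 := Int.emod_lt_of_pos E hP
  have h3 := Int.emod_add_mul_ediv E P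
  rcases le_or_gt (2 * (E % P)) P with h | h
  · refine ⟨-(E / P), ?_⟩
    have e : E + -(E / P) * P = E % P := by linarith [mul_comm (E / P) P]
    rw [e, abs_of_nonneg h1]
    exact h
  · refine ⟨-(E / P) - 1, ?_⟩
    have e : E + (-(E / P) - 1) * P = E % P - P := by linarith [mul_comm (E / P) P]
    rw [e, abs_of_neg (by linarith)]
    linarith

/-- CASE I, both tori small: they are double -/
theorem caseI_core {a a' c c' E P P' T : ℤ} (hc' : 0 < c') (hcc : c' ≤ c) (ha : c < a)
    (ha' : c' < a') (hP : P * c = a * c') (hP' : P' * c' = a' * c) (hT : 100 ≤ T)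
    (hL : ∀ al k : ℤ, 1 ≤ al → al * c < a → IsCoprime al k →
      94 * (al * c) ≤ 100 * |al * E + k * P|)
    (hM : ∀ al k k' : ℤ, 1 ≤ al → al * c' < a' → IsCoprime al k' →
      94 * (al * c') ≤ 100 * |al * (E + k * P) + k' * P'|)
    (h1 : ∀ k k' : ℤ, (T - 2) * c ≤ T * |E + k * P + k' * P'|) :
    ∃ k : ℤ, |E + k * P| ≤ c' ∧ (T - 2) * c ≤ T * |E + k * P| ∧ a ≤ 2 * c ∧ a' ≤ 2 * c' ∧
      (T - 2) * c ≤ T * c' ∧ 2 * ((T - 2) * c) ≤ T * a ∧ 2 * ((T - 2) * c') ≤ T * a' := by
  have hc : 0 < c := hc'.trans_le hcc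
  have hT0 : 0 < T := by linarith
  have hz := caseI_z hc' hcc ha hP hL
  have hPpos : 0 < P := by
    by_contra hcon
    have h1 : P * c ≤ 0 := mul_nonpos_of_nonpos_of_nonneg (not_lt.1 hcon) hc.le
    have h2 : 0 < a * c' := mul_pos (hc.trans ha) hc'
    linarith
  have hP2 : P ≤ 2 * c' := by
    have : P * c ≤ 2 * c' * c := by nlinarith
    exact le_of_mul_le_mul_right this hc
  obtain ⟨k, hk⟩ := exists_near (E := E) hPpos
  have g1 : |E + k * P| ≤ c' := by linarith
  have g2 : (T - 2) * c ≤ T * |E + k * P| := by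
    have := h1 k 0
    simpa using this
  have g3 : (T - 2) * c ≤ T * c' := g2.trans (mul_le_mul_of_nonneg_left g1 hT0.le)
  have g4 : 2 * ((T - 2) * c) ≤ T * a := by
    have e1 : 2 * ((T - 2) * c) ≤ T * P := by
      have : T * (2 * |E + k * P|) ≤ T * P := mul_le_mul_of_nonneg_left hk hT0.le
      linarith
    have e2 : 2 * ((T - 2) * c) * c ≤ T * a * c := by
      calc 2 * ((T - 2) * c) * c ≤ T * P * c := mul_le_mul_of_nonneg_right e1 hc.le
        _ = T * (a * c') := by rw [← hP]; ring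
        _ ≤ T * (a * c) := by
            apply mul_le_mul_of_nonneg_left _ hT0.le
            exact mul_le_mul_of_nonneg_left hcc (hc.trans ha).le
        _ = T * a * c := by ring
    exact le_of_mul_le_mul_right e2 hc
  -- the second torus
  obtain ⟨F, hF⟩ : ∃ F, F = |E + k * P| := ⟨_, rfl⟩
  rw [← hF] at g1 g2
  have hF0 : 0 < F := by
    by_contra hcon
    have e1 : T * F ≤ 0 := mul_nonpos_of_nonneg_of_nonpos hT0.le (not_lt.1 hcon)
    have e2 : 0 < (T - 2) * c := mul_pos (by linarith) hc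
    linarith
  have hP'a : a' ≤ P' := by
    have : a' * c' ≤ P' * c' := by
      rw [hP']
      exact mul_le_mul_of_nonneg_left hcc (hc'.trans ha').le
    exact le_of_mul_le_mul_right this hc'
  -- the sign for which the product is `P' - al F`
  have key : ∀ al : ℤ, 1 ≤ al → al * c' < a' → ∃ k' : ℤ, IsCoprime al k' ∧
      |al * (E + k * P) + k' * P'| = P' - al * F := by
    intro al hal hal'
    have h2 : al * F ≤ al * c' := mul_le_mul_of_nonneg_left g1 (by linarith)
    rcases le_or_gt 0 (E + k * P) with g | g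
    · rw [abs_of_nonneg g] at hF
      refine ⟨-1, isCoprime_one_right.neg_right, ?_⟩
      rw [← hF, abs_of_nonpos (by linarith)]
      ring
    · rw [abs_of_neg g] at hF
      refine ⟨1, isCoprime_one_right, ?_⟩
      have e : E + k * P = -F := by linarith
      rw [e, abs_of_nonneg (by linarith)]
      ring
  have g5 : 2 * ((T - 2) * c') ≤ T * a' := by
    obtain ⟨k', -, hk'⟩ := key 1 le_rfl (by linarith)
    have h3 := h1 k k'
    rw [one_mul] at hk'
    rw [hk', one_mul] at h3
    have e1 : 2 * ((T - 2) * c) ≤ T * P' := by nlinarith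
    have e2 : 2 * ((T - 2) * c') * c ≤ T * a' * c := by
      calc 2 * ((T - 2) * c') * c = 2 * ((T - 2) * c) * c' := by ring
        _ ≤ T * P' * c' := mul_le_mul_of_nonneg_right e1 hc'.le
        _ = T * a' * c := by rw [mul_assoc, hP']; ring
    exact le_of_mul_le_mul_right e2 hc
  refine ⟨k, by rw [← hF]; exact g1, by rw [← hF]; exact g2, hz, ?_, g3, g4, g5⟩
  -- `a' ≤ 2 c'`
  obtain ⟨n, hn1, hn2⟩ : ∃ n : ℤ, n * c' < a' ∧ a' ≤ (n + 1) * c' := by
    refine ⟨(a' - 1) / c', ?_, ?_⟩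
    · have := Int.ediv_mul_le (a' - 1) hc'.ne'
      linarith
    · have := Int.lt_ediv_add_one_mul_self (a' - 1) hc'
      linarith
  have hn0 : 1 ≤ n := by
    by_contra hcon
    have : (n + 1) * c' ≤ 1 * c' := by
      apply mul_le_mul_of_nonneg_right _ hc'.le
      omega
    linarith
  by_contra hcon
  have hn : 2 ≤ n := by
    by_contra h
    have : n = 1 := by omega
    rw [this] at hn2
    apply hcon
    linarith
  obtain ⟨k', hk1, hk2⟩ := key n hn0 hn1
  have h3 := hM n k k' hn0 hn1 hk1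
  rw [hk2] at h3
  -- `P' ≤ (n + 1) c`
  have hPn : P' ≤ (n + 1) * c := by
    have : P' * c' ≤ (n + 1) * c * c' := by
      rw [hP']
      calc a' * c ≤ (n + 1) * c' * c := mul_le_mul_of_nonneg_right hn2 hc.le
        _ = (n + 1) * c * c' := by ring
    exact le_of_mul_le_mul_right this hc'
  -- `T (94 n c' + 100 n F) ≤ 100 T (n + 1) c`
  have h4 : T * (94 * (n * c') + 100 * (n * F)) ≤ T * (100 * ((n + 1) * c)) := by
    apply mul_le_mul_of_nonneg_left _ hT0.le
    linarith
  have h5 : n * ((T - 2) * c) ≤ n * (T * c') := mul_le_mul_of_nonneg_left g3 (by linarith)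
  have h6 : n * ((T - 2) * c) ≤ n * (T * F) := mul_le_mul_of_nonneg_left g2 (by linarith)
  have h7 : 194 * (n * ((T - 2) * c)) ≤ 100 * (T * ((n + 1) * c)) := by nlinarith
  have h8 : 194 * (n * (T - 2)) ≤ 100 * (T * (n + 1)) := by
    have : 194 * (n * (T - 2)) * c ≤ 100 * (T * (n + 1)) * c := by linarith
    exact le_of_mul_le_mul_right this hc
  nlinarith

end Pool.Agent.H4G.Six.NR
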