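import Pool.Agent.H4G.Six.NR.Defs
import Pool.Agent.H4G.Six.ThreeC

/-!
# The tools (T1), (T2) and the progression of centres (pages NR of helper58, STAGE2 of helper75)

* `NoRoom.t1`: a tree with a thin torus `u × v` has large contents.
* `Has6.ap`: if `f` is a primitive vector of `⟨u, v + l + m⟩` with `0 < f × l + f × m` small and
  `|l × m|` small against `f × m`, there are three centres `e`, `e + f`, `e + 2 f` with thin tori.
* `NoRoom.t2`: a tree with `u × l`, `u × m` small and `|l × m|` not large has large contents.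
-/

set_option autoImplicit false

namespace Pool.Agent.H4G.Six

open Pool.Agent.H4G

variable {X : Type} {O : PO X} {N B : ℤ} {u v l q m s f : Z2}

/-! ## (T1) -/

theorem t1_num {A a a' c c' N B : ℤ} (hB : 2 ≤ B) (hA : 0 < A) (h1 : a < B * (A + c'))
    (h2 : a' < B * (A + c)) (h4 : c' < a') (hN : A + a + a' = N)
    (hs : 8 * B ^ 2 * A ≤ N) (hle : a' ≤ a) : N ≤ 4 * B ^ 2 * c ∧ N ≤ 4 * B ^ 2 * c' := by
  have e1 : 0 ≤ (B - 2) * (B * A) := mul_nonneg (by linarith) (mul_nonneg (by linarith) hA.le)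
  have e2 : 0 ≤ (B - 2) * A := mul_nonneg (by linarith) hA.le
  have h5 : 16 * (B * A) ≤ N := by
    have : (B - 2) * (B * A) = B ^ 2 * A - 2 * (B * A) := by ring
    linarith
  have h6 : 2 * A ≤ B * A := by
    have : (B - 2) * A = B * A - 2 * A := by ring
    linarith
  have h7 : 3 * N < 8 * (B * c') := by
    have : B * (A + c') = B * A + B * c' := by ring
    linarith
  have h8 : 3 * N < 8 * (B * a') := by
    have : 0 < B * (a' - c') := mul_pos (by linarith) (by linarith)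
    have e : B * (a' - c') = B * a' - B * c' := by ring
    linarith
  have h9 : B * a' < B ^ 2 * A + B ^ 2 * c := by
    have : 0 < B * (B * (A + c) - a') := mul_pos (by linarith) (by linarith)
    have e : B * (B * (A + c) - a') = B ^ 2 * A + B ^ 2 * c - B * a' := by ring
    linarith
  have hc' : 0 < c' := by
    by_contra hcon
    push Not at hcon
    have : B * c' ≤ 0 := mul_nonpos_of_nonneg_of_nonpos (by linarith) hcon
    linarith
  constructor
  · have e : 4 * B ^ 2 * c = 4 * (B ^ 2 * c) := by ring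
    rw [e]
    linarith
  · have : 0 ≤ (B - 2) * (B * c') := mul_nonneg (by linarith) (mul_nonneg (by linarith) hc'.le)
    have e : (B - 2) * (B * c') = B ^ 2 * c' - 2 * (B * c') := by ring
    have e3 : 4 * B ^ 2 * c' = 4 * (B ^ 2 * c') := by ring
    rw [e3]
    linarith

/-- **(T1)** -/
theorem NoRoom.t1 (h : NoRoom O N B) (hB : 2 ≤ B) (hT : Has6 O (u, v, l, q, m, s))
    (hN : vol6 (u, v, l, q, m, s) = N) (hA : 8 * B ^ 2 * cr u v ≤ N) :
    N ≤ 4 * B ^ 2 * ct u l q ∧ N ≤ 4 * B ^ 2 * ct u m s := by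
  obtain ⟨h1, h2⟩ := h.at hT hN
  obtain ⟨a1, a2, a3, a4, a5, a6, a7, a8⟩ := hT.areas hN
  rcases le_total (cr u m + cr s m) (cr u l + cr q l) with hle | hle
  · exact t1_num hB a1 h1 h2 (a5.trans_lt a7) a8 hA hle
  · exact (t1_num hB a1 h2 h1 (a4.trans_lt a6) (by linarith) hA hle).symm

/-! ## The progression of centres -/

/-- the products of a point `z` of `Λ` from its sum `S = X + Y` -/
theorem ap_num {P R W g T S X Y n : ℤ} (hXY : X + Y = S) (hT : X * R - Y * P = T)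
    (hg : P + R = g) (hg0 : 0 < g) (hn : n * g < W) (hR : T < (W - n * g) * R) (hT0 : 0 ≤ T)
    (hP : 0 < P ∨ 0 ≤ W * P + T ∧ 0 < T) (h1 : W - n * g ≤ S) (h2 : S < W) :
    0 < X ∧ 0 < Y := by
  have hR0 : 0 < R := by
    by_contra hc
    push Not at hc
    have : (W - n * g) * R ≤ 0 := mul_nonpos_of_nonneg_of_nonpos (by linarith) hc
    linarith
  have eX : g * X = S * P + T := by rw [← hXY, ← hg, ← hT]; ring
  have eY : g * Y = S * R - T := by rw [← hXY, ← hg, ← hT]; ring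
  have hS : 0 < S := by linarith
  constructor
  · have : 0 < g * X := by
      rw [eX]
      rcases hP with hP | ⟨hP, hT1⟩
      · have := mul_pos hS hP
        linarith
      · rcases le_or_gt 0 P with h | h
        · have := mul_nonneg hS.le h
          linarith
        · have : 0 < (W - S) * (-P) := mul_pos (by linarith) (by linarith)
          have e : (W - S) * (-P) = S * P - W * P := by ring
          linarith
    exact pos_of_mul_pos_right this hg0.le
  · have : 0 < g * Y := by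
      rw [eY]
      have h3 : (W - n * g) * R ≤ S * R := mul_le_mul_of_nonneg_right h1 hR0.le
      linarith
    exact pos_of_mul_pos_right this hg0.le

/-- among six consecutive integers there are three consecutive ones prime to `κ` -/
theorem three_coprime {p : ℤ} (hp : p = 1 ∨ Prime p ∧ 5 ≤ p) (k : ℤ) :
    ∃ t : ℤ, 0 ≤ t ∧ t ≤ 3 ∧ IsCoprime p (k + t) ∧ IsCoprime p (k + t + 1) ∧
      IsCoprime p (k + t + 2) := by
  rcases hp with rfl | ⟨hp, h5⟩
  · exact ⟨0, le_refl _, by norm_num, isCoprime_one_left, isCoprime_one_left, isCoprime_one_left⟩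
  have hc : ∀ n : ℤ, IsCoprime p n ↔ ¬ p ∣ n := fun n => hp.irreducible.coprime_iff_not_dvd
  have hn : ∀ a b d : ℤ, p ∣ a → b - a = d → 0 < d → d < 5 → ¬ p ∣ b := by
    intro a b d ha hd h0 h1 hb
    have : p ∣ d := hd ▸ dvd_sub hb ha
    have := Int.le_of_dvd h0 this
    linarith
  by_cases c0 : p ∣ k
  · refine ⟨1, by norm_num, by norm_num, ?_, ?_, ?_⟩ <;> rw [hc]
    · exact hn _ _ 1 c0 (by ring) (by norm_num) (by norm_num)
    · exact hn _ _ 2 c0 (by ring) (by norm_num) (by norm_num)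
    · exact hn _ _ 3 c0 (by ring) (by norm_num) (by norm_num)
  by_cases c1 : p ∣ k + 1
  · refine ⟨3, by norm_num, by norm_num, ?_, ?_, ?_⟩ <;> rw [hc]
    · exact hn _ _ 2 c1 (by ring) (by norm_num) (by norm_num)
    · exact hn _ _ 3 c1 (by ring) (by norm_num) (by norm_num)
    · exact hn _ _ 4 c1 (by ring) (by norm_num) (by norm_num)
  by_cases c2 : p ∣ k + 2
  · refine ⟨3, by norm_num, by norm_num, ?_, ?_, ?_⟩ <;> rw [hc]
    · exact hn _ _ 1 c2 (by ring) (by norm_num) (by norm_num)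
    · exact hn _ _ 2 c2 (by ring) (by norm_num) (by norm_num)
    · exact hn _ _ 3 c2 (by ring) (by norm_num) (by norm_num)
  · refine ⟨0, by norm_num, by norm_num, ?_, ?_, ?_⟩ <;> rw [hc]
    · simpa using c0
    · simpa using c1
    · simpa using c2

/-- the lattice point `κ e₀ + k f` -/
theorem ap_coprime {i j i' j' κ σ k : ℤ} (h : i * j' - j * i' = 1) (hσ : σ = 1 ∨ σ = -1)
    (hk : IsCoprime κ k) : IsCoprime (σ * κ * i' + k * i) (σ * κ * j' + k * j) := by
  obtain ⟨a, b, hab⟩ := hk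
  have hσ2 : σ * σ = 1 := by rcases hσ with rfl | rfl <;> norm_num
  refine ⟨b * j' - a * σ * j, a * σ * i - b * i', ?_⟩
  linear_combination (b * k + a * σ * σ * κ) * h + hab + a * κ * hσ2

/-- a centre of `hT` in the form `z = I u + J (v + l + m)` -/
theorem Has6.cen_of (hT : Has6 O (u, v, l, q, m, s)) (hN : vol6 (u, v, l, q, m, s) = N) {I J : ℤ}
    (hIJ : IsCoprime I J) {z : Z2} (hz : z = I • u + J • (v + l + m)) (h1 : 0 < cr z l)
    (h2 : 0 < cr z m) (h3 : cr z l + cr z m < cr u v + cr u l + cr u m) :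
    ∃ v', Has6 O (z, v', l, q, m, s) ∧ vol6 (z, v', l, q, m, s) = N ∧
      lat z (v' + l + m) = lat u (v + l + m) ∧
      cr z v' = cr u v + cr u l + cr u m - cr z l - cr z m := by
  obtain ⟨v', k1, k2, k3, k4⟩ := hT.recenter hIJ hz h1 h2 h3
  exact ⟨v', k1, k4.trans hN, k2, k3⟩

/-- three centres `e`, `e + f`, `e + 2 f` over the same slits, with tori `≤ c` -/
def Three (O : PO X) (N c : ℤ) (e f l q m s : Z2) (W : ℤ) : Prop :=
  ∀ t : ℤ, 0 ≤ t → t ≤ 2 → ∃ v', Has6 O (e + t • f, v', l, q, m, s) ∧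
    vol6 (e + t • f, v', l, q, m, s) = N ∧ cr (e + t • f) v' ≤ c ∧
    cr (e + t • f) v' + cr (e + t • f) l + cr (e + t • f) m = W

/-- the progression of the centres `e + w f`, `0 ≤ w < n` -/
theorem Has6.ap_core (hT : Has6 O (u, v, l, q, m, s)) (hN : vol6 (u, v, l, q, m, s) = N)
    {i j κ n : ℤ} (hij : IsCoprime i j) (hf : f = i • u + j • (v + l + m)) (hκ0 : 0 < κ)
    (hg : 0 < cr f l + cr f m) (hn : 0 ≤ n)
    (hW : n * (cr f l + cr f m) < cr u v + cr u l + cr u m)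
    (hR : κ * |cr l m| * (cr u v + cr u l + cr u m) <
      (cr u v + cr u l + cr u m - n * (cr f l + cr f m)) * cr f m)
    (hP : 0 < cr f l ∨ 0 ≤ cr f l + κ * |cr l m| ∧ cr l m ≠ 0) :
    ∃ (e : Z2) (k : ℤ), (∀ w : ℤ, 0 ≤ w → w ≤ n - 1 → IsCoprime κ (k + w) →
      ∃ v', Has6 O (e + w • f, v', l, q, m, s) ∧ vol6 (e + w • f, v', l, q, m, s) = N ∧
        cr (e + w • f) v' ≤ n * (cr f l + cr f m) ∧
        cr (e + w • f) v' + cr (e + w • f) l + cr (e + w • f) m =
          cr u v + cr u l + cr u m) ∧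
      |cr e f| = κ * (cr u v + cr u l + cr u m) ∧
      (∃ a b : ℤ, e = a • u + b • (v + l + m)) := by
  obtain ⟨W, hWe⟩ : ∃ W, W = cr u v + cr u l + cr u m := ⟨_, rfl⟩
  obtain ⟨g, hge⟩ : ∃ g, g = cr f l + cr f m := ⟨_, rfl⟩
  rw [← hWe, ← hge] at hW hR ⊢
  rw [← hge] at hg
  have hW0 : 0 < W := by
    have := mul_nonneg hn hg.le
    linarith
  obtain ⟨a, b, hab⟩ := hij
  obtain ⟨x, hx⟩ : ∃ x, x = v + l + m := ⟨_, rfl⟩
  rw [← hx] at hf
  have hux : cr u x = W := by rw [hx, hWe, cr_addr, cr_addr]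
  -- the complement
  obtain ⟨i', hi'⟩ : ∃ i', i' = -b := ⟨_, rfl⟩
  obtain ⟨j', hj'⟩ : ∃ j', j' = a := ⟨_, rfl⟩
  have hdet : i * j' - j * i' = 1 := by rw [hi', hj']; linear_combination hab
  obtain ⟨e0, he0⟩ : ∃ e0, e0 = i' • u + j' • x := ⟨_, rfl⟩
  have hfe : cr f e0 = W := by
    have : cr f e0 = (i * j' - j * i') * cr u x := by
      rw [hf, he0]
      simp only [cr, Prod.fst_add, Prod.snd_add, Prod.smul_fst, Prod.smul_snd, smul_eq_mul]
      ring
    rw [this, hdet, hux, one_mul]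
  -- the sign
  obtain ⟨σ, hσ, hσr⟩ : ∃ σ : ℤ, (σ = 1 ∨ σ = -1) ∧ -(σ * cr l m) = |cr l m| := by
    rcases le_total 0 (cr l m) with h | h
    · exact ⟨-1, Or.inr rfl, by rw [abs_of_nonneg h]; ring⟩
    · exact ⟨1, Or.inl rfl, by rw [abs_of_nonpos h]; ring⟩
  obtain ⟨S0, hS0⟩ : ∃ S0, S0 = σ * κ * (cr e0 l + cr e0 m) := ⟨_, rfl⟩
  obtain ⟨D, hD⟩ : ∃ D, D = S0 + n * g - W := ⟨_, rfl⟩
  have hmod0 : 0 ≤ D % g := Int.emod_nonneg _ hg.ne'
  have hmod1 : D % g < g := Int.emod_lt_of_pos _ hg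
  have hdm : D % g = D - g * (D / g) := by
    have := Int.emod_add_mul_ediv D g
    linarith
  obtain ⟨k, hk⟩ : ∃ k, k = -(D / g) := ⟨_, rfl⟩
  obtain ⟨e, he⟩ : ∃ e : Z2, e = (σ * κ) • e0 + k • f := ⟨_, rfl⟩
  refine ⟨e, k, ?_, ?_, ⟨σ * κ * i' + k * i, σ * κ * j' + k * j, ?_⟩⟩
  · intro w hw0 hw2 hco
    have hz : e + w • f = (σ * κ * i' + (k + w) * i) • u + (σ * κ * j' + (k + w) * j) • x := by
      rw [he, he0, hf]
      module
    have hS : cr (e + w • f) l + cr (e + w • f) m = S0 + (k + w) * g := by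
      rw [he, hS0, hge]
      simp only [cr, Prod.fst_add, Prod.snd_add, Prod.smul_fst, Prod.smul_snd, smul_eq_mul]
      ring
    have hS' : S0 + (k + w) * g = W - n * g + (D % g + w * g) := by
      rw [hk, hdm, hD]
      ring
    have hTw : cr (e + w • f) l * cr f m - cr (e + w • f) m * cr f l = κ * |cr l m| * W := by
      rw [← hσr, ← hfe, he]
      simp only [cr, Prod.fst_add, Prod.snd_add, Prod.smul_fst, Prod.smul_snd, smul_eq_mul]
      ring
    have b0 : 0 ≤ w * g := mul_nonneg hw0 hg.le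
    have b1 : w * g ≤ (n - 1) * g := mul_le_mul_of_nonneg_right hw2 hg.le
    have b2 : (n - 1) * g = n * g - g := by ring
    have hr0 : 0 ≤ κ * |cr l m| := mul_nonneg hκ0.le (abs_nonneg _)
    obtain ⟨p1, p2⟩ := ap_num (P := cr f l) (R := cr f m) (W := W) (g := g)
      (T := κ * |cr l m| * W) (S := S0 + (k + w) * g) (n := n) hS hTw hge.symm hg hW hR
      (mul_nonneg hr0 hW0.le)
      (by
        rcases hP with h | ⟨h, h'⟩
        · exact Or.inl h
        · refine Or.inr ⟨?_, mul_pos (mul_pos hκ0 (abs_pos.2 h')) hW0⟩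
          have : 0 ≤ W * (cr f l + κ * |cr l m|) := mul_nonneg hW0.le h
          linarith)
      (by rw [hS']; linarith) (by rw [hS']; linarith)
    obtain ⟨v', k1, k2, -, k4⟩ := hT.cen_of hN
      (ap_coprime hdet hσ hco) (z := e + w • f) (by rw [hz, hx]) p1 p2
      (by rw [hS, hS', ← hWe]; linarith)
    refine ⟨v', k1, k2, ?_, ?_⟩
    · rw [k4, ← hWe]
      linarith
    · rw [k4, ← hWe]
      ring
  · have : cr e f = -(σ * κ * cr f e0) := by
      rw [he]
      simp only [cr, Prod.fst_add, Prod.snd_add, Prod.smul_fst, Prod.smul_snd, smul_eq_mul]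
      ring
    rw [this, hfe, abs_neg, abs_mul, abs_mul, abs_of_pos hW0, abs_of_pos hκ0]
    rcases hσ with rfl | rfl <;> simp
  · rw [he, he0, hf, hx]
    module

/-- **THE PROGRESSION OF CENTRES** (helper75 (2)) -/
theorem Has6.ap (hT : Has6 O (u, v, l, q, m, s)) (hN : vol6 (u, v, l, q, m, s) = N) {i j κ : ℤ}
    (hij : IsCoprime i j) (hf : f = i • u + j • (v + l + m)) (hκ : κ = 1 ∨ Prime κ ∧ 5 ≤ κ)
    (hg : 0 < cr f l + cr f m)
    (hW : 6 * (cr f l + cr f m) < cr u v + cr u l + cr u m)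
    (hR : κ * |cr l m| * (cr u v + cr u l + cr u m) <
      (cr u v + cr u l + cr u m - 6 * (cr f l + cr f m)) * cr f m)
    (hP : 0 < cr f l ∨ 0 ≤ cr f l + κ * |cr l m| ∧ cr l m ≠ 0) :
    ∃ e : Z2, Three O N (6 * (cr f l + cr f m)) e f l q m s (cr u v + cr u l + cr u m) ∧
      |cr e f| = κ * (cr u v + cr u l + cr u m) ∧
      (∃ a b : ℤ, e = a • u + b • (v + l + m)) := by
  have hκ0 : 0 < κ := by
    rcases hκ with rfl | ⟨-, h5⟩
    · norm_num
    · linarith
  obtain ⟨e, k, h1, h2, a, b, h3⟩ := hT.ap_core hN hij hf hκ0 hg (by norm_num) hW hR hP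
  obtain ⟨t, t0, t3, c0, c1, c2⟩ := three_coprime hκ k
  refine ⟨e + t • f, ?_, ?_, ⟨a + t * i, b + t * j, ?_⟩⟩
  · intro w hw0 hw2
    have e1 : e + t • f + w • f = e + (t + w) • f := by module
    rw [e1]
    refine h1 (t + w) (by linarith) (by linarith) ?_
    have : w = 0 ∨ w = 1 ∨ w = 2 := by omega
    rcases this with rfl | rfl | rfl
    · simpa using c0
    · rwa [← add_assoc]
    · rwa [← add_assoc]
  · have : cr (e + t • f) f = cr e f := by
      simp only [cr, Prod.fst_add, Prod.snd_add, Prod.smul_fst, Prod.smul_snd, smul_eq_mul]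
      ring
    rw [this, h2]
  · rw [h3, hf]
    module

/-- the case `κ = 1` with three consecutive centres -/
theorem Has6.ap1 (hT : Has6 O (u, v, l, q, m, s)) (hN : vol6 (u, v, l, q, m, s) = N) {i j : ℤ}
    (hij : IsCoprime i j) (hf : f = i • u + j • (v + l + m)) (hg : 0 < cr f l + cr f m)
    (hW : 3 * (cr f l + cr f m) < cr u v + cr u l + cr u m)
    (hR : |cr l m| * (cr u v + cr u l + cr u m) <
      (cr u v + cr u l + cr u m - 3 * (cr f l + cr f m)) * cr f m)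
    (hP : 0 < cr f l ∨ 0 ≤ cr f l + |cr l m| ∧ cr l m ≠ 0) :
    ∃ e : Z2, Three O N (3 * (cr f l + cr f m)) e f l q m s (cr u v + cr u l + cr u m) ∧
      |cr e f| = cr u v + cr u l + cr u m ∧
      (∃ a b : ℤ, e = a • u + b • (v + l + m)) := by
  obtain ⟨e, k, h1, h2, a, b, h3⟩ := hT.ap_core hN hij hf (κ := 1) (by norm_num) hg
    (n := 3) (by norm_num) hW (by rw [one_mul]; exact hR) (by rw [one_mul]; exact hP)
  exact ⟨e, fun w hw0 hw2 => h1 w hw0 (by linarith) isCoprime_one_left, by rw [h2, one_mul],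
    a, b, h3⟩

/-! ## (C3) at three centres with thin tori, and (T2) -/

/-- three centres in a row with large contents: a large number divides `e × l`, `e × q`,
`f × l`, `f × q` -/
theorem three_large {e f l q : Z2} {c0 c1 c2 K κ W N : ℤ} (h0 : 0 < c0) (h1 : 0 < c1) (h2 : 0 < c2)
    (a0 : c0 ∣ cr e l) (b0 : c0 ∣ cr e q) (a1 : c1 ∣ cr (e + f) l) (b1 : c1 ∣ cr (e + f) q)
    (a2 : c2 ∣ cr (e + (2 : ℤ) • f) l) (b2 : c2 ∣ cr (e + (2 : ℤ) • f) q) (k0 : N ≤ K * c0)
    (k1 : N ≤ K * c1) (k2 : N ≤ K * c2) (hκ : 1 ≤ κ) (he : |cr e f| = κ * W) (hW : 0 < W)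
    (hWN : W ≤ N) (hq : 0 < cr q l) (hqN : cr q l ≤ N) :
    ∃ g : ℤ, 0 < g ∧ g ∣ cr e l ∧ g ∣ cr e q ∧ g ∣ cr f l ∧ g ∣ cr f q ∧
      N ≤ 2 * κ ^ 2 * K ^ 3 * g := by
  have hκ0 : 0 < κ := by linarith
  have hN : 0 < N := by linarith
  have eD : cr e l * cr (e + f) q - cr (e + f) l * cr e q = -(cr e f * cr q l) := by
    simp only [cr, Prod.fst_add, Prod.snd_add]; ring
  have hD0 : cr e f * cr q l ≠ 0 := by
    apply mul_ne_zero _ hq.ne'
    intro hc
    rw [hc, abs_zero] at he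
    have := mul_pos hκ0 hW
    linarith
  obtain ⟨g, g0, g1, g2, g3, g4, -⟩ := three_centres (X0 := cr e l) (X1 := cr (e + f) l)
    (X2 := cr (e + (2 : ℤ) • f) l) (Q0 := cr e q) (Q1 := cr (e + f) q)
    (Q2 := cr (e + (2 : ℤ) • f) q) (N := κ * N) (K := κ * K)
    (by simp only [cr, Prod.fst_add, Prod.snd_add, Prod.smul_fst, Prod.smul_snd, smul_eq_mul]; ring)
    (by simp only [cr, Prod.fst_add, Prod.snd_add, Prod.smul_fst, Prod.smul_snd, smul_eq_mul]; ring)
    h0 h1 h2 a0 b0 a1 b1 a2 b2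
    (by rw [mul_assoc]; exact mul_le_mul_of_nonneg_left k0 hκ0.le)
    (by rw [mul_assoc]; exact mul_le_mul_of_nonneg_left k1 hκ0.le)
    (by rw [mul_assoc]; exact mul_le_mul_of_nonneg_left k2 hκ0.le)
    (mul_pos hκ0 hN) (by rw [eD]; exact neg_ne_zero.2 hD0)
    (by
      rw [eD, abs_neg, abs_mul, he, abs_of_pos hq]
      calc κ * W * cr q l ≤ κ * N * N := mul_le_mul
            (mul_le_mul_of_nonneg_left hWN hκ0.le) hqN hq.le (by positivity)
        _ ≤ (κ * N) * (κ * N) := by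
            apply mul_le_mul_of_nonneg_left _ (by positivity)
            calc N = 1 * N := by ring
              _ ≤ κ * N := mul_le_mul_of_nonneg_right hκ hN.le
        _ = (κ * N) ^ 2 := by ring)
  have x1 : g ∣ cr (e + f) l := g4.trans a1
  have y1 : g ∣ cr (e + f) q := g4.trans b1
  have el : cr (e + f) l - (cr (e + f) l - cr e l) = cr e l := by ring
  have eq : cr (e + f) q - (cr (e + f) q - cr e q) = cr e q := by ring
  have fl : cr (e + f) l - cr e l = cr f l := by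
    simp only [cr, Prod.fst_add, Prod.snd_add]; ring
  have fq : cr (e + f) q - cr e q = cr f q := by
    simp only [cr, Prod.fst_add, Prod.snd_add]; ring
  refine ⟨g, g0, ?_, ?_, ?_, ?_, ?_⟩
  · rw [← el]; exact dvd_sub x1 g1
  · rw [← eq]; exact dvd_sub y1 g2
  · rwa [← fl]
  · rwa [← fq]
  · have : κ * N ≤ κ * (2 * κ ^ 2 * K ^ 3 * g) := by
      calc κ * N ≤ 2 * (κ * K) ^ 3 * g := g3
        _ = κ * (2 * κ ^ 2 * K ^ 3 * g) := by ring
    exact le_of_mul_le_mul_left this hκ0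

/-- three centres whose contents are at least `N / K` -/
theorem Three.large_of {e : Z2} {c W κ K : ℤ} (h3 : Three O N c e f l q m s W) (hκ : 1 ≤ κ)
    (he : |cr e f| = κ * W)
    (hK : ∀ z v' : Z2, Has6 O (z, v', l, q, m, s) → vol6 (z, v', l, q, m, s) = N →
      cr z v' ≤ c → N ≤ K * ct z l q) :
    ∃ g : ℤ, 0 < g ∧ g ∣ cr e l ∧ g ∣ cr e q ∧ g ∣ cr f l ∧ g ∣ cr f q ∧
      N ≤ 2 * κ ^ 2 * K ^ 3 * g := by
  obtain ⟨v0, t0, n0, s0, w0⟩ := h3 0 (by norm_num) (by norm_num)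
  obtain ⟨v1, t1, n1, s1, w1⟩ := h3 1 (by norm_num) (by norm_num)
  obtain ⟨v2, t2, n2, s2, w2⟩ := h3 2 (by norm_num) (by norm_num)
  rw [zero_smul, add_zero] at t0 n0 s0 w0
  rw [one_smul] at t1 n1 s1 w1
  have k0 := hK _ _ t0 n0 s0
  have k1 := hK _ _ t1 n1 s1
  have k2 := hK _ _ t2 n2 s2
  obtain ⟨a1, a2, a3, a4, a5⟩ := t0.pos
  have hv : cr e v0 + cr e l + cr e m + cr q l + cr s m = N := n0
  exact three_large (ct_pos a2) (ct_pos t1.pos.2.1) (ct_pos t2.pos.2.1) ct_dvd_left ct_dvd_right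
    ct_dvd_left ct_dvd_right ct_dvd_left ct_dvd_right k0 k1 k2 hκ he (by linarith) (by linarith)
    a4 (by linarith)

/-- three centres with thin tori: a large number divides `e × l`, `e × q`, `f × l`, `f × q` -/
theorem Three.large {e : Z2} {c W κ : ℤ} (h3 : Three O N c e f l q m s W) (h : NoRoom O N B)
    (hB : 2 ≤ B) (hc : 8 * B ^ 2 * c ≤ N) (hκ : 1 ≤ κ) (he : |cr e f| = κ * W) :
    ∃ g : ℤ, 0 < g ∧ g ∣ cr e l ∧ g ∣ cr e q ∧ g ∣ cr f l ∧ g ∣ cr f q ∧
      N ≤ 2 * κ ^ 2 * (4 * B ^ 2) ^ 3 * g :=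
  h3.large_of hκ he fun z v' hT hN hs => (h.t1 hB hT hN
    ((mul_le_mul_of_nonneg_left hs (by positivity)).trans hc)).1

theorem Three.swap {e : Z2} {c W : ℤ} (h3 : Three O N c e f l q m s W) :
    Three O N c (-e) (-f) (-m) (-s) (-l) (-q) W := by
  intro t h0 h1
  obtain ⟨v', k1, k2, k3, k4⟩ := h3 t h0 h1
  have e1 : -e + t • -f = -(e + t • f) := by module
  refine ⟨-v', ?_, ?_, ?_, ?_⟩
  · rw [e1]; exact k1.swap
  · rw [e1]; exact vol6_swap.trans k2
  · rw [e1, cr_negl, cr_negr, neg_neg]; exact k3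
  · rw [e1, cr_negl, cr_negr, neg_neg, cr_negl, cr_negr, neg_neg, cr_negl, cr_negr, neg_neg]
    linarith

/-- the same for the second slit -/
theorem Three.largeM {e : Z2} {c W κ : ℤ} (h3 : Three O N c e f l q m s W) (h : NoRoom O N B)
    (hB : 2 ≤ B) (hc : 8 * B ^ 2 * c ≤ N) (hκ : 1 ≤ κ) (he : |cr e f| = κ * W) :
    ∃ g : ℤ, 0 < g ∧ g ∣ cr e m ∧ g ∣ cr e s ∧ g ∣ cr f m ∧ g ∣ cr f s ∧
      N ≤ 2 * κ ^ 2 * (4 * B ^ 2) ^ 3 * g := by
  have := h3.swap.large h hB hc hκ (by rw [cr_negl, cr_negr, neg_neg]; exact he)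
  simpa only [cr_negl, cr_negr, neg_neg] using this

/-- (T2), first half: `u × m` is the larger level -/
theorem NoRoom.t2_aux (h : NoRoom O N B) (hB : 2 ≤ B) (hT : Has6 O (u, v, l, q, m, s))
    (hN : vol6 (u, v, l, q, m, s) = N) (hs : 24 * B ^ 2 * (cr u l + cr u m) ≤ N)
    (hr : |cr l m| * (cr u v + cr u l + cr u m) <
      (cr u v + cr u l + cr u m - 3 * (cr u l + cr u m)) * cr u m) :
    N ≤ 2 * (4 * B ^ 2) ^ 3 * ct u l q ∧ N ≤ 2 * (4 * B ^ 2) ^ 3 * ct u m s := by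
  obtain ⟨a1, a2, a3, a4, a5⟩ := hT.pos
  have hW : 3 * (cr u l + cr u m) < cr u v + cr u l + cr u m := by
    by_contra hc
    push Not at hc
    have h1 : 0 ≤ |cr l m| * (cr u v + cr u l + cr u m) :=
      mul_nonneg (abs_nonneg _) (by linarith)
    have h2 : (cr u v + cr u l + cr u m - 3 * (cr u l + cr u m)) * cr u m ≤ 0 :=
      mul_nonpos_of_nonpos_of_nonneg (by linarith) a3.le
    linarith
  obtain ⟨e, h3, he, -⟩ := hT.ap1 hN (f := u) (i := 1) (j := 0) isCoprime_one_left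
    (by rw [one_smul, zero_smul, add_zero]) (by linarith) hW hr (Or.inl a2)
  have hc : 8 * B ^ 2 * (3 * (cr u l + cr u m)) ≤ N := by
    have : 8 * B ^ 2 * (3 * (cr u l + cr u m)) = 24 * B ^ 2 * (cr u l + cr u m) := by ring
    linarith
  have hle : ∀ g d : ℤ, 0 < d → g ∣ d → N ≤ 2 * (1 : ℤ) ^ 2 * (4 * B ^ 2) ^ 3 * g →
      N ≤ 2 * (4 * B ^ 2) ^ 3 * d := by
    intro g d hd hg h1
    have h2 := Int.le_of_dvd hd hg
    calc N ≤ 2 * (1 : ℤ) ^ 2 * (4 * B ^ 2) ^ 3 * g := h1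
      _ ≤ 2 * (1 : ℤ) ^ 2 * (4 * B ^ 2) ^ 3 * d := mul_le_mul_of_nonneg_left h2 (by positivity)
      _ = 2 * (4 * B ^ 2) ^ 3 * d := by ring
  obtain ⟨g, -, -, -, g1, g2, g3⟩ := h3.large h hB hc (κ := 1) (le_refl _) (by rw [he, one_mul])
  obtain ⟨g', -, -, -, g1', g2', g3'⟩ := h3.largeM h hB hc (κ := 1) (le_refl _)
    (by rw [he, one_mul])
  exact ⟨hle g _ (ct_pos a2) (dvd_ct g1 g2) g3, hle g' _ (ct_pos a3) (dvd_ct g1' g2') g3'⟩

/-- **(T2)** -/
theorem NoRoom.t2 (h : NoRoom O N B) (hB : 2 ≤ B) (hT : Has6 O (u, v, l, q, m, s))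
    (hN : vol6 (u, v, l, q, m, s) = N) (hs : 24 * B ^ 2 * (cr u l + cr u m) ≤ N)
    (hr : |cr l m| * (cr u v + cr u l + cr u m) <
      max (cr u l) (cr u m) * (cr u v + cr u l + cr u m - 3 * (cr u l + cr u m))) :
    N ≤ 2 * (4 * B ^ 2) ^ 3 * ct u l q ∧ N ≤ 2 * (4 * B ^ 2) ^ 3 * ct u m s := by
  rcases le_total (cr u l) (cr u m) with hle | hle
  · rw [max_eq_right hle, mul_comm] at hr
    rw [mul_comm (cr u m)] at hr
    refine h.t2_aux hB hT hN hs (by linarith)
  · rw [max_eq_left hle] at hr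
    have e1 : cr (-m) (-l) = -cr l m := by
      rw [cr_negl, cr_negr, neg_neg, cr_swap']
    have hh := h.t2_aux hB hT.swap (vol6_swap.trans hN)
      (by
        simp only [cr_negl, cr_negr, neg_neg]
        have : 24 * B ^ 2 * (cr u m + cr u l) = 24 * B ^ 2 * (cr u l + cr u m) := by ring
        linarith)
      (by
        rw [e1, abs_neg]
        simp only [cr_negl, cr_negr, neg_neg]
        have e2 : (cr u v + cr u m + cr u l - 3 * (cr u m + cr u l)) * cr u l =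
          cr u l * (cr u v + cr u l + cr u m - 3 * (cr u l + cr u m)) := by ring
        have e3 : |cr l m| * (cr u v + cr u m + cr u l) =
          |cr l m| * (cr u v + cr u l + cr u m) := by ring
        rw [e2, e3]
        exact hr)
    rw [ct_neg, ct_neg] at hh
    exact hh.symm

/-- (T2) in the form of a dichotomy: both contents are large or `|l × m|` is large -/
theorem NoRoom.star (h : NoRoom O N B) (hB : 2 ≤ B) (hT : Has6 O (u, v, l, q, m, s))
    (hN : vol6 (u, v, l, q, m, s) = N) (hs : 24 * B ^ 2 * (cr u l + cr u m) ≤ N)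
    (hc : ¬ (N ≤ 2 * (4 * B ^ 2) ^ 3 * ct u l q ∧ N ≤ 2 * (4 * B ^ 2) ^ 3 * ct u m s)) :
    max (cr u l) (cr u m) * (cr u v + cr u l + cr u m - 3 * (cr u l + cr u m)) ≤
      |cr l m| * (cr u v + cr u l + cr u m) := by
  by_contra hcon
  push Not at hcon
  exact hc (h.t2 hB hT hN hs hcon)

/-- if a content is small then the torus `u × v` is not thin -/
theorem NoRoom.thick (h : NoRoom O N B) (hB : 2 ≤ B) (hT : Has6 O (u, v, l, q, m, s))
    (hN : vol6 (u, v, l, q, m, s) = N)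
    (hc : ¬ (N ≤ 4 * B ^ 2 * ct u l q ∧ N ≤ 4 * B ^ 2 * ct u m s)) :
    N < 8 * B ^ 2 * cr u v := by
  by_contra hcon
  push Not at hcon
  exact hc (h.t1 hB hT hN hcon)

/-- (T2), the short form: small levels, a small content: `max < 2 |l × m|` -/
theorem NoRoom.star2 (h : NoRoom O N B) (hB : 2 ≤ B) (hT : Has6 O (u, v, l, q, m, s))
    (hN : vol6 (u, v, l, q, m, s) = N) (hs : 48 * B ^ 2 * (cr u l + cr u m) ≤ N)
    (hc : ¬ (N ≤ 2 * (4 * B ^ 2) ^ 3 * ct u l q ∧ N ≤ 2 * (4 * B ^ 2) ^ 3 * ct u m s)) :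
    max (cr u l) (cr u m) < 2 * |cr l m| := by
  obtain ⟨a1, a2, a3, a4, a5⟩ := hT.pos
  have hB0 : 0 < B ^ 2 := by positivity
  have h1 := h.star hB hT hN (by
    have : 0 ≤ 24 * B ^ 2 * (cr u l + cr u m) := by positivity
    linarith) hc
  have h2 : N < 8 * B ^ 2 * cr u v := by
    refine h.thick hB hT hN fun h3 => hc ?_
    have hle : ∀ d : ℤ, 0 < d → N ≤ 4 * B ^ 2 * d → N ≤ 2 * (4 * B ^ 2) ^ 3 * d := by
      intro d hd h4
      refine h4.trans (mul_le_mul_of_nonneg_right ?_ hd.le)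
      have h5 : (1 : ℤ) ≤ (4 * B ^ 2) ^ 2 := one_le_pow₀ (by linarith)
      have h6 : 4 * B ^ 2 * 1 ≤ 4 * B ^ 2 * (4 * B ^ 2) ^ 2 :=
        mul_le_mul_of_nonneg_left h5 (by positivity)
      have h7 : 0 ≤ 4 * B ^ 2 * (4 * B ^ 2) ^ 2 := by positivity
      have e : 2 * (4 * B ^ 2) ^ 3 = 2 * (4 * B ^ 2 * (4 * B ^ 2) ^ 2) := by ring
      rw [e]
      linarith
    exact ⟨hle _ (ct_pos a2) h3.1, hle _ (ct_pos a3) h3.2⟩
  -- `6 (s + s') ≤ A`
  have h3 : 6 * (cr u l + cr u m) < cr u v := by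
    have e1 : 48 * B ^ 2 * (cr u l + cr u m) = 8 * B ^ 2 * (6 * (cr u l + cr u m)) := by ring
    have e2 : 8 * B ^ 2 * (6 * (cr u l + cr u m)) < 8 * B ^ 2 * cr u v := by linarith
    exact lt_of_mul_lt_mul_left e2 (by positivity)
  by_contra hcon
  push Not at hcon
  have hM : 0 < max (cr u l) (cr u m) := lt_max_of_lt_left a2
  have h4 : 2 * (|cr l m| * (cr u v + cr u l + cr u m)) ≤
      max (cr u l) (cr u m) * (cr u v + cr u l + cr u m) := by
    have := mul_le_mul_of_nonneg_right hcon (show 0 ≤ cr u v + cr u l + cr u m by linarith)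
    linarith
  have h5 : 0 < max (cr u l) (cr u m) * (cr u v + cr u l + cr u m -
      6 * (cr u l + cr u m)) := mul_pos hM (by linarith)
  have e5 : max (cr u l) (cr u m) * (cr u v + cr u l + cr u m - 6 * (cr u l + cr u m)) =
      2 * (max (cr u l) (cr u m) * (cr u v + cr u l + cr u m - 3 * (cr u l + cr u m))) -
      max (cr u l) (cr u m) * (cr u v + cr u l + cr u m) := by ring
  linarith

end Pool.Agent.H4G.Six
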