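import Pool.Agent.H4G.Six.BArith2

/-!
# The case `Gap` under large contents

If the least content `b` satisfies `N ≤ K b` and no tree has `0 < |l × m| ≤ b`, then `N` is
bounded by a power of `K`.
-/

set_option autoImplicit false

namespace Pool.Agent.H4G.Six

open Pool.Agent.H4G

variable {X : Type} {O : PO X} {N b K : ℤ} {u v l q m s : Z2}

/-- **The end of the case `Gap`.** -/
theorem gap_bounded (h : BMin O N b) (hg : Gap O N b)
    (hgen : ∀ u v l q m s : Z2, Has6 O (u, v, l, q, m, s) → vol6 (u, v, l, q, m, s) = N →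
      AddSubgroup.closure ({u, v, l, q, m, s} : Set Z2) = ⊤) (hK : N ≤ K * b) :
    N ≤ (2 * K + K ^ 2) * ((2 * K + 1) ^ 3 * K ^ 2) ^ 2 := by
  obtain ⟨u, v, l, q, m, s, hF⟩ := h.exists_BFM hg
  obtain ⟨p1, p2, g, S, w, S2, k⟩ := hF.sint h hg
  obtain ⟨r1, r2, r3, r4, r5⟩ := hF.fk.has.pos
  have hb := h.pos
  have hv : cr u v + cr u l + cr u m + cr q l + cr s m = N := hF.fk.vol
  have hK0 : 0 < K := by
    by_contra hc
    push Not at hc
    have := mul_nonpos_of_nonpos_of_nonneg hc hb.le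
    linarith
  have hM := h.um hF.fk.has hF.fk.vol
  refine hF.fk.bound k (hgen _ _ _ _ _ _ hF.fk.has hF.fk.vol) hK0 (by linarith) (by linarith) ?_ ?_
  · rw [cr_add_left]
    linarith
  · have h1 : b * cr (u + s) m = cr u m * cr (u + s) l := hF.fk.areaM
    have h2 : cr (u + s) m = cr u m + cr s m := cr_add_left _ _ _
    have h4 : 0 < cr (u + s) m := by rw [h2]; linarith
    have h5 : 0 < cr (u + s) l := by
      have : 0 < cr u m * cr (u + s) l := by rw [← h1]; exact mul_pos hb h4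
      exact pos_of_mul_pos_right this r3.le
    have h3 : b * cr (u + s) l ≤ b * cr (u + s) m := by
      rw [h1]
      exact mul_le_mul_of_nonneg_right hM h5.le
    have h6 := le_of_mul_le_mul_left h3 hb
    linarith

/-- the same, all contents are at least `N / K` -/
theorem gap_bounded' (hT : Has6 O (u, v, l, q, m, s)) (hN : vol6 (u, v, l, q, m, s) = N)
    (hgen : ∀ u v l q m s : Z2, Has6 O (u, v, l, q, m, s) → vol6 (u, v, l, q, m, s) = N →
      AddSubgroup.closure ({u, v, l, q, m, s} : Set Z2) = ⊤)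
    (hK : ∀ u v l q m s : Z2, Has6 O (u, v, l, q, m, s) → vol6 (u, v, l, q, m, s) = N →
      N ≤ K * ct u l q) :
    N ≤ (2 * K + K ^ 2) * ((2 * K + 1) ^ 3 * K ^ 2) ^ 2 ∨ ∃ r b, RB O N r b ∧ N ≤ K * b := by
  obtain ⟨b, h⟩ := exists_bmin hT hN
  obtain ⟨u1, v1, l1, q1, m1, s1, h1, h2, h3⟩ := h.ex
  have hb : N ≤ K * b := by
    rw [← h3]
    exact hK _ _ _ _ _ _ h1 h2
  rcases h.alt with hg | ⟨r, hr⟩
  · exact Or.inl (gap_bounded h hg hgen hb)
  · exact Or.inr ⟨r, b, hr, hb⟩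

end Pool.Agent.H4G.Six
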