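import Pool.Agent.H4G.Six.NR.Four4a
import Pool.Agent.H4G.Six.NR.GapEnd
import Pool.Agent.H4G.Six.TheoremBC

/-!
# No roomy tree implies that `N` is bounded

`NoRoom.nr` (all contents are at least `N / K`), `gap_bounded'` (no small positive `|l × m|`) and
`RC.stage1` (a least positive `|l × m|`) give `N ≤ B ^ 226380`.
-/

set_option autoImplicit false

namespace Pool.Agent.H4G.Six

open Pool.Agent.H4G

variable {X : Type} {O : PO X} {N B J K : ℤ} {u v l q m s : Z2}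

theorem gap_le_pow (hK : 10 ^ 6 ≤ K) :
    (2 * K + K ^ 2) * ((2 * K + 1) ^ 3 * K ^ 2) ^ 2 ≤ K ^ 77 := by
  have hK0 : 0 < K := by linarith
  have hK1 : 1 ≤ K := by linarith
  have h1 : 2 * K + 1 ≤ K ^ 2 := by nlinarith
  have h2 : 2 * K + K ^ 2 ≤ K ^ 3 := by
    have : K ^ 3 = K * K ^ 2 := by ring
    rw [this]
    have h3 : K ^ 2 + K ^ 2 ≤ K * K ^ 2 := by
      have : 0 ≤ (K - 2) * K ^ 2 := mul_nonneg (by linarith) (by positivity)
      linarith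
    linarith
  calc (2 * K + K ^ 2) * ((2 * K + 1) ^ 3 * K ^ 2) ^ 2
      ≤ K ^ 3 * ((K ^ 2) ^ 3 * K ^ 2) ^ 2 := by gcongr
    _ = K ^ 19 := by ring
    _ ≤ K ^ 77 := pow_le_pow_right₀ hK1 (by norm_num)

theorem stage1_le_pow (hK : 10 ^ 6 ≤ K) : 16 * (K ^ 4) ^ 19 ≤ K ^ 77 := by
  have hK0 : 0 < K := by linarith
  calc 16 * (K ^ 4) ^ 19 = 16 * K ^ 76 := by ring
    _ ≤ K * K ^ 76 := mul_le_mul_of_nonneg_right (by linarith) (by positivity)
    _ = K ^ 77 := by ring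

set_option maxHeartbeats 400000 in
/-- all contents at least `N / K` implies `N ≤ K ^ 77` -/
theorem Coarse.bound [Finite X] (hco : Coarse O N K) (hO : O.Trans) (hp : O.Prim)
    (hX : (Nat.card X : ℤ) = N) (hT : Has6 O (u, v, l, q, m, s))
    (hN : vol6 (u, v, l, q, m, s) = N) (hK : 10 ^ 6 ≤ K) (hJ : 100 * (J + 2) ^ 2 ≤ K)
    (hcap : ∀ a n : ℤ, 0 < n → n ≤ N ^ 2 → ∃ y, a ≤ y ∧ y < a + J ∧ IsCoprime n y) :
    N ≤ K ^ 77 := by
  have hgen : ∀ u v l q m s : Z2, Has6 O (u, v, l, q, m, s) →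
      vol6 (u, v, l, q, m, s) = N → AddSubgroup.closure ({u, v, l, q, m, s} : Set Z2) = ⊤ := by
    intro u v l q m s h1 h2
    have h3 : span (u, v, l, q, m, s) = ⊤ :=
      span6_top (c := (u, v, l, q, m, s)) hO hp h1.pos h1 (hX.trans h2.symm)
    exact h3
  rcases gap_bounded' hT hN hgen hco with h | ⟨r, b, hr, -⟩
  · exact h.trans (gap_le_pow hK)
  · exact (hr.rc.stage1 hO hp hX hco hcap hJ).trans (stage1_le_pow hK)

/-- **NO ROOMY TREE: `N` IS BOUNDED.** -/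
theorem NoRoom.bound [Finite X] (h : NoRoom O N B) (hO : O.Trans) (hp : O.Prim)
    (hX : (Nat.card X : ℤ) = N) (hT : Has6 O (u, v, l, q, m, s))
    (hN : vol6 (u, v, l, q, m, s) = N) (hB : 10 ^ 6 ≤ B) (hJ0 : 0 ≤ J) (hJ : J + 2 ≤ B)
    (hcap : ∀ a n : ℤ, 0 < n → n ≤ N ^ 2 → ∃ y, a ≤ y ∧ y < a + J ∧ IsCoprime n y) :
    N ≤ B ^ 226380 := by
  have hB1 : 1 ≤ B := by linarith
  have hK : B ^ 3 ≤ B ^ 2940 := pow_le_pow_right₀ hB1 (by norm_num)
  have h1 : B ≤ B ^ 3 := by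
    calc B = B ^ 1 := (pow_one B).symm
      _ ≤ B ^ 3 := pow_le_pow_right₀ hB1 (by norm_num)
  have h2 : 100 * (J + 2) ^ 2 ≤ B ^ 3 := by
    calc 100 * (J + 2) ^ 2 ≤ B * B ^ 2 := by
          apply mul_le_mul (by linarith) _ (by positivity) (by linarith)
          exact pow_le_pow_left₀ (by linarith) hJ 2
      _ = B ^ 3 := by ring
  have h3 : Coarse O N (B ^ 2940) := fun u v l q m s g1 g2 => (h.nr hB g1 g2).1.le
  have h4 := h3.bound hO hp hX hT hN ((hB.trans h1).trans hK) (h2.trans hK) hcap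
  have e : (B ^ 2940) ^ 77 = B ^ 226380 := by
    rw [← pow_mul, show 2940 * 77 = 226380 from rfl]
  rwa [e] at h4

/-- **THERE IS A ROOMY TREE** (for large `N`) -/
theorem exists_roomy [Finite X] (hO : O.Trans) (hp : O.Prim)
    (hX : (Nat.card X : ℤ) = N) (hT : Has6 O (u, v, l, q, m, s))
    (hN : vol6 (u, v, l, q, m, s) = N) (hB : 10 ^ 6 ≤ B) (hJ0 : 0 ≤ J) (hJ : J + 2 ≤ B)
    (hcap : ∀ a n : ℤ, 0 < n → n ≤ N ^ 2 → ∃ y, a ≤ y ∧ y < a + J ∧ IsCoprime n y)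
    (hNB : B ^ 226380 < N) : ∃ u v l q m s : Z2, Has6 O (u, v, l, q, m, s) ∧
      vol6 (u, v, l, q, m, s) = N ∧ (B * (cr u v + ct u m s) ≤ cr u l + cr q l ∨
        B * (cr u v + ct u l q) ≤ cr u m + cr s m) := by
  by_contra hcon
  push Not at hcon
  have h : NoRoom O N B := fun u v l q m s g1 g2 => hcon u v l q m s g1 g2
  have := h.bound hO hp hX hT hN hB hJ0 hJ hcap
  linarith

/-- the same, the second torus is roomy (half turn) -/
theorem exists_roomyM [Finite X] (hO : O.Trans) (hp : O.Prim)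
    (hX : (Nat.card X : ℤ) = N) (hT : Has6 O (u, v, l, q, m, s))
    (hN : vol6 (u, v, l, q, m, s) = N) (hB : 10 ^ 6 ≤ B) (hJ0 : 0 ≤ J) (hJ : J + 2 ≤ B)
    (hcap : ∀ a n : ℤ, 0 < n → n ≤ N ^ 2 → ∃ y, a ≤ y ∧ y < a + J ∧ IsCoprime n y)
    (hNB : B ^ 226380 < N) : ∃ u v l q m s : Z2, Has6 O (u, v, l, q, m, s) ∧
      vol6 (u, v, l, q, m, s) = N ∧ B * (cr u v + ct u l q) ≤ cr u m + cr s m := by
  obtain ⟨u, v, l, q, m, s, h1, h2, h3⟩ := exists_roomy hO hp hX hT hN hB hJ0 hJ hcap hNB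
  rcases h3 with h3 | h3
  · refine ⟨-u, -v, -m, -s, -l, -q, h1.swap, vol6_swap.trans h2, ?_⟩
    rw [ct_neg]
    simp only [cr_negl, cr_negr, neg_neg]
    exact h3
  · exact ⟨u, v, l, q, m, s, h1, h2, h3⟩

end Pool.Agent.H4G.Six
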