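import Pool.Agent.H4G.Six.NR.Frame
import Pool.Agent.H4G.Six.NR4

/-!
# Route NR, row 4a, one torus large (helper75's (4), extension and typing by helper41)

Pure lattices. `L = ⟨l0, p⟩`, `u × p = 0`, `u × l0 = b`, `p × l0 = a`; `M = ⟨m0, p'⟩` the same with
`b'`, `a'`. `Star`: every pair of primitive vectors `e`, `m` with levels at most `Y` has
`max (u × e) (u × m) < 2 |e × m|`. `both_small`: this is impossible if `a` is large and `b`, `b'`
are small.
-/

set_option autoImplicit false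

namespace Pool.Agent.H4G.Six

open Pool.Agent.H4G

namespace NRB

/-- `e` is a primitive vector of `L = ⟨l0, p⟩` (area `a`). -/
def Prim (l0 p : Z2) (a : ℤ) (e : Z2) : Prop := ∃ p1 : Z2, lat e p1 = lat l0 p ∧ cr p1 e = a

theorem Prim.mem {l0 p e : Z2} {a : ℤ} (h : Prim l0 p a e) : e ∈ lat l0 p := by
  obtain ⟨p1, h1, -⟩ := h
  rw [← h1]
  exact AddSubgroup.subset_closure (by simp)

theorem Prim.self {l0 p : Z2} {a : ℤ} (h : cr p l0 = a) : Prim l0 p a l0 := ⟨p, rfl, h⟩

/-- the product of two vectors of `L` is a multiple of the area -/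
theorem cr_mem {l0 p e e' : Z2} {a : ℤ} (hp : cr p l0 = a) (h1 : e ∈ lat l0 p)
    (h2 : e' ∈ lat l0 p) : ∃ k : ℤ, cr e e' = k * a := by
  obtain ⟨i, j, rfl⟩ := mem_lat_coords h1
  obtain ⟨i', j', rfl⟩ := mem_lat_coords h2
  refine ⟨j * i' - i * j', ?_⟩
  rw [← hp]
  simp only [cr, Prod.fst_add, Prod.snd_add, Prod.smul_fst, Prod.smul_snd, smul_eq_mul]
  ring

/-- the product with `u` is a multiple of the content -/
theorem cru_mem {u l0 p e : Z2} {b : ℤ} (hb : cr u l0 = b) (hu : cr u p = 0)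
    (h1 : e ∈ lat l0 p) : ∃ k : ℤ, cr u e = k * b := by
  obtain ⟨i, j, rfl⟩ := mem_lat_coords h1
  exact ⟨i, by rw [cr_zz_right, hu, hb]; ring⟩

/-- `a (u × e) = b (p × e)` -/
theorem crp_mem {u l0 p e : Z2} {a b : ℤ} (hp : cr p l0 = a) (hb : cr u l0 = b)
    (hu : cr u p = 0) : b * cr p e = a * cr u e := by
  have h := cr_plucker u p l0 e
  rw [hu, zero_mul, hb, hp] at h
  linarith

/-- a vector of `L` parallel to a primitive vector of `L` is a multiple of it -/
theorem Prim.par {l0 p e E : Z2} {a : ℤ} (ha : 0 < a) (h : Prim l0 p a e) (hE : E ∈ lat l0 p)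
    (h0 : cr e E = 0) : ∃ k : ℤ, E = k • e := by
  obtain ⟨p1, h1, h2⟩ := h
  rw [← h1] at hE
  obtain ⟨i, j, rfl⟩ := mem_lat_coords hE
  have h3 : cr e (i • e + j • p1) = -(j * a) := by
    rw [cr_zz_right, cr_self', cr_swap' p1 e, h2]
    ring
  rw [h3] at h0
  have h4 : j * a = 0 := by linarith
  rcases mul_eq_zero.1 h4 with h5 | h5
  · exact ⟨i, by rw [h5]; module⟩
  · exact absurd h5 ha.ne'

theorem Prim.eq {u l0 p e e' : Z2} {a : ℤ} (ha : 0 < a) (h : Prim l0 p a e)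
    (h' : Prim l0 p a e') (h0 : cr e e' = 0) (h1 : 0 < cr u e) (h2 : 0 < cr u e') : e = e' := by
  obtain ⟨k, hk⟩ := h.par ha h'.mem h0
  obtain ⟨k', hk'⟩ := h'.par ha h.mem (by rw [cr_swap' e e', h0, neg_zero])
  have e1 : cr u e' = k * cr u e := by
    rw [hk]; simp only [cr, Prod.smul_fst, Prod.smul_snd, smul_eq_mul]; ring
  have e2 : cr u e = k' * cr u e' := by
    nth_rewrite 1 [hk']
    simp only [cr, Prod.smul_fst, Prod.smul_snd, smul_eq_mul]; ring
  have h3 : 0 < k := by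
    rw [e1] at h2
    exact pos_of_mul_pos_left h2 h1.le
  have h4 : 0 < k' := by
    rw [e2] at h1
    exact pos_of_mul_pos_left h1 h2.le
  have h5 : k' * k = 1 := by
    have : (k' * k) * cr u e = 1 * cr u e := by
      calc (k' * k) * cr u e = k' * (k * cr u e) := by ring
        _ = 1 * cr u e := by rw [← e1, ← e2, one_mul]
    exact mul_right_cancel₀ h1.ne' this
  have h6 : k = 1 := by
    have : k ∣ 1 := ⟨k', by rw [mul_comm, h5]⟩
    exact Int.eq_one_of_dvd_one h3.le this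
  rw [hk, h6, one_smul]

/-- **PARTNER**: Farey neighbours with a window -/
theorem partner {u l0 p m : Z2} {a Y : ℤ} (ha : 0 < a) (hp : cr p l0 = a) (h0 : 0 < cr u l0)
    (h1 : cr u l0 ≤ Y) (hm : 0 < cr u m) : ∃ e : Z2, Prim l0 p a e ∧ 0 < cr u e ∧ cr u e ≤ Y ∧
      |cr e m| * Y ≤ a * cr u m := by
  obtain ⟨e, l₁, l₂, he, q1, q2, q3, q4, q5, q6, q7, q8, q9, q10⟩ := farey_nb ha hp h0 h1 hm
  obtain ⟨c1, c2, c3, c4⟩ := farey_compl he q2
  have habs : ∀ x : ℤ, |e * x| = |x| := by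
    intro x
    rcases he with rfl | rfl
    · rw [one_mul]
    · rw [neg_one_mul, abs_neg]
  have r1 : e * cr l₁ m = |cr l₁ m| := by rw [← habs (cr l₁ m), abs_of_nonneg q8]
  have r2 : -(e * cr l₂ m) = |cr l₂ m| := by rw [← habs (cr l₂ m), abs_of_nonpos q9]
  rw [r1, r2] at q10
  have n1 := abs_nonneg (cr l₁ m)
  have n2 := abs_nonneg (cr l₂ m)
  rcases le_total |cr l₁ m| |cr l₂ m| with hx | hx
  · refine ⟨l₁, ⟨(-e) • l₂, c3.trans q1, c1⟩, q3, q4, ?_⟩
    have k1 : cr u l₁ * |cr l₁ m| ≤ cr u l₁ * |cr l₂ m| := mul_le_mul_of_nonneg_left hx q3.le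
    have k2 : |cr l₁ m| * Y ≤ |cr l₁ m| * (cr u l₁ + cr u l₂) :=
      mul_le_mul_of_nonneg_left q7.le n1
    linarith
  · refine ⟨l₂, ⟨e • l₁, c4.trans q1, c2⟩, q5, q6, ?_⟩
    have k1 : cr u l₂ * |cr l₂ m| ≤ cr u l₂ * |cr l₁ m| := mul_le_mul_of_nonneg_left hx q5.le
    have k2 : |cr l₂ m| * Y ≤ |cr l₂ m| * (cr u l₁ + cr u l₂) :=
      mul_le_mul_of_nonneg_left q7.le n2
    linarith

/-- every pair with levels at most `Y` has `max < 2 |e × m|` -/
def Star (u l0 p m0 p' : Z2) (a a' Y : ℤ) : Prop :=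
  ∀ e m : Z2, Prim l0 p a e → Prim m0 p' a' m → 0 < cr u e → cr u e < a → 0 < cr u m →
    cr u m < a' → cr u e ≤ Y → cr u m ≤ Y → cr u e < 2 * |cr e m| ∧ cr u m < 2 * |cr e m|

theorem Star.swap {u l0 p m0 p' : Z2} {a a' Y : ℤ} (h : Star u l0 p m0 p' a a' Y) :
    Star u m0 p' l0 p a' a Y := by
  intro e m h1 h2 h3 h4 h5 h6 h7 h8
  have := h m e h2 h1 h5 h6 h3 h4 h8 h7
  rw [cr_swap' m e, abs_neg]
  exact ⟨this.2, this.1⟩

theorem Star.mono {u l0 p m0 p' : Z2} {a a' Y Y' : ℤ} (h : Star u l0 p m0 p' a a' Y)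
    (hY : Y' ≤ Y) : Star u l0 p m0 p' a a' Y' :=
  fun e m h1 h2 h3 h4 h5 h6 h7 h8 => h e m h1 h2 h3 h4 h5 h6 (h7.trans hY) (h8.trans hY)

section

variable {u l0 p m0 p' : Z2} {a b a' b' Y D : ℤ}

/-- the partner of a vector of `M` -/
theorem partnerS (ha : 0 < a) (hp : cr p l0 = a) (hb : cr u l0 = b) (b0 : 0 < b) (hbY : b ≤ Y)
    (hYa : Y < a) (hD : a ≤ D * Y) (hs : Star u l0 p m0 p' a a' Y) {m : Z2}
    (hm : Prim m0 p' a' m) (m0' : 0 < cr u m) (mY : cr u m ≤ Y) (ma : cr u m < a') :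
    ∃ e : Z2, Prim l0 p a e ∧ 0 < cr u e ∧ cr u e ≤ Y ∧ |cr e m| ≤ D * cr u m ∧
      cr u m < 2 * |cr e m| ∧ cr u e < 2 * |cr e m| ∧ cr u e < 2 * D * cr u m := by
  have Y0 : 0 < Y := by linarith
  obtain ⟨e, h1, h2, h3, h4⟩ := partner (Y := Y) ha hp (by rw [hb]; exact b0) (by rw [hb]; exact hbY) m0'
  have h5 : |cr e m| ≤ D * cr u m := by
    have : |cr e m| * Y ≤ (D * cr u m) * Y := by
      calc |cr e m| * Y ≤ a * cr u m := h4
        _ ≤ (D * Y) * cr u m := mul_le_mul_of_nonneg_right hD m0'.le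
        _ = (D * cr u m) * Y := by ring
    exact le_of_mul_le_mul_right this Y0
  obtain ⟨h6, h7⟩ := hs e m h1 hm h2 (by linarith) m0' ma h3 mY
  exact ⟨e, h1, h2, h3, h5, h7, h6, by linarith⟩

/-- a product of two vectors of `L` by their products with a vector `m` of the plane -/
theorem cr_bound {m e e' : Z2} {F F' t t' : ℤ} (hm : 0 < cr u m) (h1 : |cr u e| ≤ F)
    (h2 : |cr u e'| ≤ F') (h3 : |cr e m| ≤ t) (h4 : |cr e' m| ≤ t') :
    cr u m * |cr e e'| ≤ F * t' + F' * t := by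
  have h := cr_plucker u m e e'
  have e1 : cr u m * cr e e' = cr u e' * cr e m - cr u e * cr e' m := by
    simp only [cr]; ring
  have e2 : cr u m * |cr e e'| = |cr u e' * cr e m - cr u e * cr e' m| := by
    rw [← e1, abs_mul, abs_of_pos hm]
  rw [e2]
  have k1 : |cr u e' * cr e m| ≤ F' * t := by
    rw [abs_mul]
    exact mul_le_mul h2 h3 (abs_nonneg _) ((abs_nonneg _).trans h2)
  have k2 : |cr u e * cr e' m| ≤ F * t' := by
    rw [abs_mul]
    exact mul_le_mul h1 h4 (abs_nonneg _) ((abs_nonneg _).trans h1)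
  calc |cr u e' * cr e m - cr u e * cr e' m| ≤ |cr u e' * cr e m| + |cr u e * cr e' m| :=
        abs_sub _ _
    _ ≤ F * t' + F' * t := by linarith

theorem prim_row (hp' : cr p' m0 = a') (n : ℤ) : Prim m0 p' a' (m0 + n • p') := by
  refine ⟨p', closure_pair_eq (α := 1) (β := n) (γ := 0) (δ := 1) (by module) (by module)
    (Or.inl (by norm_num)), ?_⟩
  rw [← hp']
  simp only [cr, Prod.fst_add, Prod.snd_add, Prod.smul_fst, Prod.smul_snd, smul_eq_mul]
  ring

theorem cru_row (hb' : cr u m0 = b') (hu' : cr u p' = 0) (n : ℤ) :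
    cr u (m0 + n • p') = b' := by
  have : cr u (m0 + n • p') = cr u m0 + n * cr u p' := by
    simp only [cr, Prod.fst_add, Prod.snd_add, Prod.smul_fst, Prod.smul_snd, smul_eq_mul]
    ring
  rw [this, hb', hu']
  ring

/-- **LEMMA A**: `a'` small against `a`. -/
theorem bothA (ha : 0 < a) (hp : cr p l0 = a) (hb : cr u l0 = b)
    (b0 : 0 < b) (ha' : 0 < a') (hp' : cr p' m0 = a') (hb' : cr u m0 = b') (hu' : cr u p' = 0)
    (b0' : 0 < b') (hbY : b ≤ Y) (hbY' : b' ≤ Y) (hba' : b' < a') (hYa : Y < a) (hD : a ≤ D * Y)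
    (hs : Star u l0 p m0 p' a a' Y) (hA : 8 * D ^ 2 * a' ≤ a) : False := by
  have Y0 : 0 < Y := by linarith
  have D0 : 0 < D := by
    have : 0 < D * Y := by linarith
    exact pos_of_mul_pos_left this Y0.le
  have row : ∀ n : ℤ, ∃ e : Z2, Prim l0 p a e ∧ 0 < cr u e ∧ cr u e ≤ Y ∧
      |cr e (m0 + n • p')| ≤ D * b' ∧ b' < 2 * |cr e (m0 + n • p')| ∧
      cr u e < 2 * |cr e (m0 + n • p')| ∧ cr u e < 2 * D * b' := by
    intro n
    have h1 := cru_row hb' hu' n
    have h2 := partnerS ha hp hb b0 hbY hYa hD hs (prim_row hp' n) (by rw [h1]; exact b0')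
      (by rw [h1]; exact hbY') (by rw [h1]; exact hba')
    rw [h1] at h2
    exact h2
  obtain ⟨e0, f1, f2, f3, f4, f5, f6, f7⟩ := row 0
  -- the partner is constant
  have const : ∀ n : ℕ, |cr e0 (m0 + (n : ℤ) • p')| ≤ D * b' := by
    intro n
    induction n with
    | zero => simpa using f4
    | succ n ih =>
      obtain ⟨e, g1, g2, g3, g4, g5, g6, g7⟩ := row ((n : ℤ) + 1)
      have k0 : 0 < cr u (m0 + (n : ℤ) • p') := by rw [cru_row hb' hu']; exact b0'
      -- `|e × m_n| ≤ D b' + 2 D a'`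
      have k1 : |cr p' e| ≤ 2 * D * a' := by
        have h1 := crp_mem (e := e) hp' hb' hu'
        have h2 : b' * |cr p' e| ≤ b' * (2 * D * a') := by
          calc b' * |cr p' e| = |b' * cr p' e| := by rw [abs_mul, abs_of_pos b0']
            _ = a' * cr u e := by rw [h1, abs_of_pos (mul_pos ha' g2)]
            _ ≤ a' * (2 * D * b') := mul_le_mul_of_nonneg_left g7.le ha'.le
            _ = b' * (2 * D * a') := by ring
        exact le_of_mul_le_mul_left h2 b0'
      have k2 : |cr e (m0 + (n : ℤ) • p')| ≤ D * b' + 2 * D * a' := by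
        have h1 : cr e (m0 + (n : ℤ) • p') = cr e (m0 + ((n : ℤ) + 1) • p') + cr p' e := by
          simp only [cr, Prod.fst_add, Prod.snd_add, Prod.smul_fst, Prod.smul_snd, smul_eq_mul]
          ring
        rw [h1]
        exact (abs_add_le _ _).trans (by linarith)
      have k3 := cr_bound (e := e0) (e' := e) k0 (F := 2 * D * b') (F' := 2 * D * b')
        (by rw [abs_of_pos f2]; exact f7.le) (by rw [abs_of_pos g2]; exact g7.le) ih k2
      rw [cru_row hb' hu'] at k3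
      obtain ⟨k, hk⟩ := cr_mem hp f1.mem g1.mem
      have k4 : |cr e0 e| < a := by
        by_contra hc
        push Not at hc
        have h1 : b' * a ≤ b' * |cr e0 e| := mul_le_mul_of_nonneg_left hc b0'.le
        have h2 : 2 * D * b' * (D * b' + 2 * D * a') + 2 * D * b' * (D * b') =
            b' * (4 * D ^ 2 * b' + 4 * D ^ 2 * a') := by ring
        rw [h2] at k3
        have h3 : b' * (4 * D ^ 2 * b' + 4 * D ^ 2 * a') < b' * a := by
          apply mul_lt_mul_of_pos_left _ b0'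
          have : 4 * D ^ 2 * b' < 4 * D ^ 2 * a' := by
            apply mul_lt_mul_of_pos_left hba'
            positivity
          linarith
        linarith
      have k5 : k = 0 := by
        rw [hk, abs_mul, abs_of_pos ha] at k4
        by_contra hk0
        have : 1 ≤ |k| := Int.one_le_abs hk0
        nlinarith
      have k6 : cr e0 e = 0 := by rw [hk, k5, zero_mul]
      have k7 : e0 = e := f1.eq ha g1 k6 f2 g2
      rw [k7]
      push_cast
      exact g4
  -- unbounded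
  have hne : 1 ≤ |cr e0 p'| := by
    apply Int.one_le_abs
    intro h0
    have h1 := crp_mem (e := e0) hp' hb' hu'
    rw [cr_swap' e0 p', h0, neg_zero, mul_zero] at h1
    have := mul_pos ha' f2
    linarith
  obtain ⟨n, hn⟩ : ∃ n : ℕ, (n : ℤ) = 2 * (D * b') + 1 :=
    ⟨(2 * (D * b') + 1).toNat, Int.toNat_of_nonneg (by positivity)⟩
  have h1 := const n
  have h2 : cr e0 (m0 + (n : ℤ) • p') = cr e0 m0 + n * cr e0 p' := by
    simp only [cr, Prod.fst_add, Prod.snd_add, Prod.smul_fst, Prod.smul_snd, smul_eq_mul]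
    ring
  have h3 : |cr e0 m0| ≤ D * b' := by simpa using const 0
  have h4 : (n : ℤ) ≤ |(n : ℤ) * cr e0 p'| := by
    rw [abs_mul, abs_of_nonneg (by positivity : (0 : ℤ) ≤ n)]
    nlinarith
  have h5 : |(n : ℤ) * cr e0 p'| ≤ |cr e0 (m0 + (n : ℤ) • p')| + |cr e0 m0| := by
    have : (n : ℤ) * cr e0 p' = cr e0 (m0 + (n : ℤ) • p') - cr e0 m0 := by rw [h2]; ring
    rw [this]
    exact abs_sub _ _
  linarith

end

end NRB

/-! ## The row -/

variable {X : Type} {O : PO X} {N B : ℤ} {u v e p e' p' : Z2} {c a c' a' : ℤ}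

/-- (T2) for the pairs of a tree with a small content -/
theorem NoRoom.star_blk (h : NoRoom O N B) (hB : 2 ≤ B) (hL : Lv O N u v e p e' p' c a c' a')
    (hc : 128 * B ^ 6 * c < N) {l q m s : Z2} (h1 : Blk6 (lat e p) u l q)
    (h2 : Blk6 (lat e' p') u m s) (h3 : 96 * B ^ 2 * cr u l ≤ N)
    (h4 : 96 * B ^ 2 * cr u m ≤ N) : cr u l < 2 * |cr l m| ∧ cr u m < 2 * |cr l m| := by
  have x1 : u + (p - u) = p := by abel
  have x2 : u + (p' - u) = p' := by abel
  obtain ⟨b1, b2, b3⟩ := h1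
  obtain ⟨d1, d2, d3⟩ := h2
  obtain ⟨t1, -, -, t4, -⟩ := hL.tree.change b1 b2 (by rw [x1]; exact b3) d1 d2
    (by rw [x2]; exact d3)
  have h5 := h.star2 hB t1.has t1.vol
    (by
      have : 48 * B ^ 2 * (cr u l + cr u m) =
        (96 * B ^ 2 * cr u l + 96 * B ^ 2 * cr u m) / 2 := by
        have e1 : 96 * B ^ 2 * cr u l + 96 * B ^ 2 * cr u m =
          2 * (48 * B ^ 2 * (cr u l + cr u m)) := by ring
        rw [e1]
        omega
      omega)
    (by
      rintro ⟨h6, -⟩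
      rw [t4, hL.ct] at h6
      have e1 : 2 * (4 * B ^ 2) ^ 3 * c = 128 * B ^ 6 * c := by ring
      rw [e1] at h6
      linarith)
  exact ⟨(le_max_left _ _).trans_lt h5, (le_max_right _ _).trans_lt h5⟩

/-- **Row 4a, one torus large.** -/
theorem NoRoom.both_aux (h : NoRoom O N B) (hB : 10 ^ 6 ≤ B)
    (hL : Lv O N u v e p e' p' c a c' a') (ha : N < 800 * B ^ 2 * a) (hc : B ^ 140 * c ≤ N)
    (hc' : B ^ 140 * c' ≤ N) : False := by
  have B0 : 0 < B := by linarith
  obtain ⟨E, hE⟩ : ∃ E, E = 800 * B ^ 2 := ⟨_, rfl⟩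
  rw [← hE] at ha
  have hsum := hL.sum
  have hA0 := hL.A0
  have c0 := hL.c0
  have c0' := hL.c0'
  have hca := hL.ca
  have hca' := hL.ca'
  have a0 : 0 < a := by linarith
  have a0' : 0 < a' := by linarith
  have haN : a ≤ N := by linarith
  have haN' : a' ≤ N := by linarith
  have hB2 : (10 : ℤ) ^ 12 ≤ B ^ 2 := by
    calc (10 : ℤ) ^ 12 = (10 ^ 6) ^ 2 := by norm_num
      _ ≤ B ^ 2 := pow_le_pow_left₀ (by norm_num) hB 2
  have E0 : 0 < E := by rw [hE]; positivity
  -- powers of B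
  have hpow : ∀ m n : ℕ, m ≤ n → B ^ m ≤ B ^ n := fun m n hmn =>
    pow_le_pow_right₀ (by linarith) hmn
  have hE3 : 128 * E ^ 3 < B ^ 8 := by
    have e1 : 128 * E ^ 3 = 65536000000 * B ^ 6 := by rw [hE]; ring
    have e2 : B ^ 8 = B ^ 2 * B ^ 6 := by ring
    rw [e1, e2]
    have : 0 < B ^ 6 := by positivity
    nlinarith
  have small : ∀ t x : ℤ, t ≤ B ^ 140 → 0 < x → B ^ 140 * x ≤ N → t * x ≤ N := by
    intro t x ht hx h1
    have := mul_le_mul_of_nonneg_right ht hx.le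
    linarith
  have hE8 : E < B ^ 8 := by
    have : E * 1 ≤ 128 * E ^ 3 := by
      have e1 : 128 * E ^ 3 = E * (128 * E ^ 2) := by ring
      rw [e1]
      apply mul_le_mul_of_nonneg_left _ E0.le
      have : 0 < E ^ 2 := by positivity
      omega
    linarith
  -- star
  have hstar : ∀ l q m s, Blk6 (lat e p) u l q → Blk6 (lat e' p') u m s →
      96 * B ^ 2 * cr u l ≤ N → 96 * B ^ 2 * cr u m ≤ N →
      cr u l < 2 * |cr l m| ∧ cr u m < 2 * |cr l m| := by
    intro l q m s h1 h2 h3 h4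
    refine h.star_blk (by linarith) hL ?_ h1 h2 h3 h4
    have h5 : 128 * B ^ 6 < B ^ 8 := by
      have e2 : B ^ 8 = B ^ 2 * B ^ 6 := by ring
      rw [e2]
      have : 0 < B ^ 6 := by positivity
      nlinarith
    have h6 : 128 * B ^ 6 * c < B ^ 8 * c := mul_lt_mul_of_pos_right h5 c0
    have h7 := small (B ^ 8) c (hpow 8 140 (by norm_num)) c0 hc
    linarith
  by_cases hA : 8 * (4 * E) ^ 2 * a' ≤ a
  · -- window Y = N / (2 E)
    obtain ⟨Y, hY⟩ : ∃ Y, Y = N / (2 * E) := ⟨_, rfl⟩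
    have e1 : (2 * E) * Y + N % (2 * E) = N := by rw [hY]; exact Int.mul_ediv_add_emod N (2 * E)
    have e2 : 0 ≤ N % (2 * E) := Int.emod_nonneg _ (by linarith)
    have e3 : N % (2 * E) < 2 * E := Int.emod_lt_of_pos _ (by linarith)
    have le_Y : ∀ x : ℤ, 0 < x → B ^ 140 * x ≤ N → x ≤ Y := by
      intro x hx h1
      rw [hY]
      refine (Int.le_ediv_iff_mul_le (by linarith)).2 ?_
      have h2 : 2 * E ≤ B ^ 140 := by
        have h3 : 2 * E ≤ 128 * E ^ 3 := by
          have e4 : 128 * E ^ 3 = E * (128 * E ^ 2) := by ring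
          rw [e4, mul_comm 2 E]
          apply mul_le_mul_of_nonneg_left _ E0.le
          have : 0 < E ^ 2 := by positivity
          omega
        have := hpow 8 140 (by norm_num)
        linarith
      have := small _ x h2 hx h1
      linarith
    have cY := le_Y c c0 hc
    have cY' := le_Y c' c0' hc'
    have Y1 : 1 ≤ Y := by linarith
    have h96 : 96 * B ^ 2 * Y ≤ N := by
      have : 96 * B ^ 2 * Y ≤ 2 * E * Y := by
        apply mul_le_mul_of_nonneg_right _ (by linarith)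
        rw [hE]
        have : 0 < B ^ 2 := by positivity
        linarith
      linarith
    refine NRB.bothA (u := u) (l0 := e) (p := p) (m0 := e') (p' := p') (a := a) (b := c)
      (a' := a') (b' := c') (Y := Y) (D := 4 * E) a0 hL.pe hL.ue c0 a0' hL.pe' hL.ue' hL.up' c0'
      cY cY' hca' ?_ ?_ ?_ hA
    · by_contra hcon
      push Not at hcon
      have h1 : E * a ≤ E * Y := mul_le_mul_of_nonneg_left hcon E0.le
      have h2 : 0 < E * Y := mul_pos E0 (by linarith)
      have h3 : (2 * E) * Y = 2 * (E * Y) := by ring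
      linarith
    · have h1 : 2 * E ≤ 2 * E * Y := by nlinarith
      have h2 : 4 * E * Y = 2 * E * Y + 2 * E * Y := by ring
      linarith
    · intro l m h1 h2 h3 h4 h5 h6 h7 h8
      obtain ⟨p1, g1, g2⟩ := h1
      obtain ⟨p2, k1, k2⟩ := h2
      refine hstar l (p1 - u) m (p2 - u) ⟨h3, ?_, ?_⟩ ⟨h5, ?_, ?_⟩ ?_ ?_
      · rw [cr_subl, g2]; linarith
      · rw [← g1]; congr 2; abel
      · rw [cr_subl, k2]; linarith
      · rw [← k1]; congr 2; abel
      · have : 96 * B ^ 2 * cr u l ≤ 96 * B ^ 2 * Y := mul_le_mul_of_nonneg_left h7 (by positivity)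
        linarith
      · have : 96 * B ^ 2 * cr u m ≤ 96 * B ^ 2 * Y := mul_le_mul_of_nonneg_left h8 (by positivity)
        linarith
  · push Not at hA
    have hKa : N ≤ 128 * E ^ 3 * a := by
      have h1 : E * a ≤ 128 * E ^ 3 * a := by
        apply mul_le_mul_of_nonneg_right _ a0.le
        have e4 : 128 * E ^ 3 = E * (128 * E ^ 2) := by ring
        rw [e4]
        nth_rewrite 1 [← mul_one E]
        apply mul_le_mul_of_nonneg_left _ E0.le
        have : 0 < E ^ 2 := by positivity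
        omega
      linarith
    have hKa' : N ≤ 128 * E ^ 3 * a' := by
      have h1 : E * a ≤ E * (8 * (4 * E) ^ 2 * a') := mul_le_mul_of_nonneg_left hA.le E0.le
      have h2 : E * (8 * (4 * E) ^ 2 * a') = 128 * E ^ 3 * a' := by ring
      linarith
    have hEpos : 0 < 128 * E ^ 3 := by positivity
    refine both_small (L := lat e p) (M := lat e' p') (u := u) (l0 := e) (p0 := p) (m0 := e')
      (ρ := p') (a := a) (a' := a') (b := c) (b' := c') (N := N) (K := B ^ 8) (K₁ := 128 * E ^ 3)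
      (T := 96 * B ^ 2) (C := B ^ 140) (X := 192 * (4 * B ^ 8) ^ 5 * (128 * E ^ 3)) rfl hL.pe hL.ue
      (by rw [hL.up]; exact dvd_zero _) rfl hL.pe' hL.ue' hL.up' c0 c0' haN haN' ?_ ?_ ?_ hE3
      hKa hKa' hstar rfl ?_ hc hc'
    · have : 0 < B ^ 2 := by positivity
      linarith
    · linarith
    · have e1 : B ^ 8 = B ^ 6 * B ^ 2 := by ring
      have h1 : (96 : ℤ) ≤ B ^ 6 := by
        have := hpow 2 6 (by norm_num)
        linarith
      rw [e1]
      exact mul_le_mul_of_nonneg_right h1 (by positivity)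
    · have e1 : 128 * E ^ 3 = 65536000000 * B ^ 6 := by rw [hE]; ring
      rw [e1]
      have e2 : 192 * (4 * B ^ 8) ^ 5 * (65536000000 * B ^ 6) + 1 ≤
          10 ^ 17 * B ^ 46 := by
        have e3 : 192 * (4 * B ^ 8) ^ 5 * (65536000000 * B ^ 6) =
            12884901888000000 * B ^ 46 := by ring
        have e4 : 0 < B ^ 46 := by positivity
        rw [e3]
        linarith
      have e5 : 0 ≤ 192 * (4 * B ^ 8) ^ 5 * (65536000000 * B ^ 6) + 1 := by positivity
      have e6 : (192 * (4 * B ^ 8) ^ 5 * (65536000000 * B ^ 6) + 1) ^ 2 ≤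
          (10 ^ 17 * B ^ 46) ^ 2 := pow_le_pow_left₀ e5 e2 2
      have e7 : 16 * (4 * B ^ 8) ^ 4 *
          (192 * (4 * B ^ 8) ^ 5 * (65536000000 * B ^ 6) + 1) ^ 2 * (65536000000 * B ^ 6) ≤
          16 * (4 * B ^ 8) ^ 4 * (10 ^ 17 * B ^ 46) ^ 2 * (65536000000 * B ^ 6) := by
        apply mul_le_mul_of_nonneg_right _ (by positivity)
        exact mul_le_mul_of_nonneg_left e6 (by positivity)
      refine e7.trans_lt ?_
      have e8 : 16 * (4 * B ^ 8) ^ 4 * (10 ^ 17 * B ^ 46) ^ 2 * (65536000000 * B ^ 6) =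
          (16 * 256 * 10 ^ 34 * 65536000000) * B ^ 130 := by ring
      rw [e8]
      have e9 : (16 * 256 * 10 ^ 34 * 65536000000 : ℤ) < B ^ 10 := by
        calc (16 * 256 * 10 ^ 34 * 65536000000 : ℤ) < (10 ^ 6) ^ 10 := by norm_num
          _ ≤ B ^ 10 := pow_le_pow_left₀ (by norm_num) hB 10
      have e10 : B ^ 140 = B ^ 10 * B ^ 130 := by ring
      rw [e10]
      exact mul_lt_mul_of_pos_right e9 (by positivity)

/-- **Row 4a, one of the two tori large.** -/
theorem NoRoom.both (h : NoRoom O N B) (hB : 10 ^ 6 ≤ B)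
    (hL : Lv O N u v e p e' p' c a c' a') (ha : N < 800 * B ^ 2 * a ∨ N < 800 * B ^ 2 * a')
    (hc : B ^ 140 * c ≤ N) (hc' : B ^ 140 * c' ≤ N) : False := by
  rcases ha with ha | ha
  · exact h.both_aux hB hL ha hc hc'
  · exact h.both_aux hB hL.swap ha hc' hc

/-- the same on a tree -/
theorem NoRoom.both_tree {l q m s : Z2} (h : NoRoom O N B) (hB : 10 ^ 6 ≤ B)
    (hT : Has6 O (u, v, l, q, m, s)) (hN : vol6 (u, v, l, q, m, s) = N)
    (hc : B ^ 140 * ct u l q ≤ N) (hc' : B ^ 140 * ct u m s ≤ N) :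
    800 * B ^ 2 * (cr u l + cr q l) ≤ N ∧ 800 * B ^ 2 * (cr u m + cr s m) ≤ N := by
  obtain ⟨e, p, e', p', hL, -, -⟩ := TN.lv ⟨hT, hN⟩
  constructor
  · by_contra hcon
    push Not at hcon
    exact h.both hB hL (Or.inl hcon) hc hc'
  · by_contra hcon
    push Not at hcon
    exact h.both hB hL (Or.inr hcon) hc hc'

end Pool.Agent.H4G.Six
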