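import Mathlib

/-!
# Both areas large, both contents small: impossible (helper53)

The numbers of row 4a.  `L` has the vectors `l = α e + k p` (`e` of level `c`, `p ∥ u`), `M` the
vectors `m = α' e' + k' p'`, and `l × m = α α' R0 - α k' g' + k α' g`.  If `max < 2 |l × m|` for all
pairs of small levels then the contents `c, c'` are not both small.
-/

set_option autoImplicit false

namespace Pool.Agent.H4G.Six

/-- two near fractions with small denominators are equal -/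
lemma rat_eq_of_near {f g : ℚ} {a b : ℕ} (ha : f.den ≤ a) (hb : g.den ≤ b)
    (h : |(f : ℝ) - g| * (a * b) < 1) : f = g := by
  by_contra hne
  have h0 : f - g ≠ 0 := sub_ne_zero.2 hne
  have h1 : (f - g).den ∣ f.den * g.den := Rat.sub_den_dvd f g
  have h2 : (f - g).den ≤ a * b :=
    (Nat.le_of_dvd (Nat.mul_pos f.pos g.pos) h1).trans (Nat.mul_le_mul ha hb)
  have h3 : (1 : ℚ) ≤ |f - g| * (f - g).den := by
    have e : |f - g| * (f - g).den = |((f - g).num : ℚ)| := by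
      have e1 : (f - g) * ((f - g).den : ℚ) = (f - g).num := Rat.mul_den_eq_num _
      rw [← e1, abs_mul, Nat.abs_cast]
    rw [e]
    have : (f - g).num ≠ 0 := fun h => h0 (Rat.num_eq_zero.1 h)
    have h4 : (1 : ℤ) ≤ |(f - g).num| := Int.one_le_abs this
    exact_mod_cast h4
  have h4 : (1 : ℝ) ≤ |(f : ℝ) - g| * (f - g).den := by exact_mod_cast h3
  have h5 : |(f : ℝ) - g| * (f - g).den ≤ |(f : ℝ) - g| * (a * b) :=
    mul_le_mul_of_nonneg_left (by exact_mod_cast h2) (abs_nonneg _)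
  linarith

/-- Dirichlet for a number far from all fractions -/
lemma dirichlet_far {x R d : ℝ} {Q : ℕ} (hQ : 0 < Q) (hd : 0 < d)
    (H : ∀ f : ℚ, f.den ≤ Q → R ≤ d * |x - f|) :
    ∃ F : ℚ, F.den ≤ Q ∧ |x - F| * ((Q + 1) * F.den) ≤ 1 ∧ F.den * (R * (Q + 1)) ≤ d := by
  obtain ⟨F, h1, h2⟩ := Real.exists_rat_abs_sub_le_and_den_le x hQ
  have hF : (0 : ℝ) < F.den := by exact_mod_cast F.pos
  have hQ1 : (0 : ℝ) < (Q : ℝ) + 1 := by positivity
  have h3 : |x - F| * ((Q + 1) * F.den) ≤ 1 := by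
    rw [le_div_iff₀ (by positivity)] at h1
    exact h1
  refine ⟨F, h2, h3, ?_⟩
  have h4 := H F h2
  calc (F.den : ℝ) * (R * (Q + 1)) = R * ((Q + 1) * F.den) := by ring
    _ ≤ d * |x - F| * ((Q + 1) * F.den) := mul_le_mul_of_nonneg_right h4 (by positivity)
    _ = d * (|x - F| * ((Q + 1) * F.den)) := by ring
    _ ≤ d * 1 := mul_le_mul_of_nonneg_left h3 hd.le
    _ = d := mul_one d

/-- the denominator of `q + (k / r) δ` is divisible by the prime `r` -/
lemma prime_dvd_den {q δ t f : ℚ} {r k : ℕ} (hr : r.Prime) (h0 : 0 < k) (h1 : k < r)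
    (ht : t = (k : ℚ) / r) (hf : f = q + t * δ) (hq : q.den < r) (hy0 : 0 < δ.num)
    (hy : δ.num < r) : r ∣ f.den := by
  by_contra hcon
  have hp : Prime (r : ℤ) := Nat.prime_iff_prime_int.1 hr
  have hr0 : (r : ℚ) ≠ 0 := by exact_mod_cast hr.ne_zero
  have e1 : f * (f.den : ℚ) = f.num := Rat.mul_den_eq_num _
  have e2 : q * (q.den : ℚ) = q.num := Rat.mul_den_eq_num _
  have e3 : δ * (δ.den : ℚ) = δ.num := Rat.mul_den_eq_num _
  have e4 : t * (r : ℚ) = k := by
    rw [ht]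
    field_simp
  have key : (k : ℚ) * δ.num * f.den * q.den = r * (δ.den * (f.num * q.den - q.num * f.den)) := by
    rw [← e1, ← e2, ← e3, ← e4, hf]
    ring
  have key' : (k : ℤ) * δ.num * f.den * q.den =
      r * (δ.den * (f.num * q.den - q.num * f.den)) := by exact_mod_cast key
  have hdvd : (r : ℤ) ∣ (k : ℤ) * δ.num * f.den * q.den := ⟨_, key'⟩
  have small : ∀ n : ℕ, 0 < n → n < r → ¬ (r : ℤ) ∣ (n : ℤ) := by
    intro n hn hnr hd
    have : r ∣ n := by exact_mod_cast hd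
    exact absurd (Nat.le_of_dvd hn this) (by omega)
  rcases hp.dvd_or_dvd hdvd with h | h
  · rcases hp.dvd_or_dvd h with h | h
    · rcases hp.dvd_or_dvd h with h | h
      · exact small k h0 h1 h
      · have := Int.le_of_dvd hy0 h
        omega
    · exact hcon (by exact_mod_cast h)
  · exact small q.den q.pos hq h

/-- **The core.** `θ0 + t v` is far from all fractions. -/
theorem far_core {θ0 v R : ℝ} {Q A V n : ℕ} (hR : 0 < R) (hv : 0 < v) (hV : v ≤ V)
    (hA : 1 ≤ A * (R * (Q + 1))) (H : ∀ f t : ℚ, f.den ≤ Q → t.den ≤ 2 * n →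
      R ≤ t.den * |θ0 + t * v - f|) (n1 : A ^ 2 * (V + 1) ≤ n) (n2 : 2 * A ≤ n) (n3 : 4 ≤ n)
    (hQ : 2 * (2 * n) ^ 2 * A ^ 4 ≤ Q) : False := by
  have hA0 : 0 < A := by
    rcases Nat.eq_zero_or_pos A with h | h
    · subst h
      simp at hA
      linarith
    · exact h
  have hA1 : (1 : ℝ) ≤ A := by exact_mod_cast hA0
  have hQn : A ^ 2 * 4 < Q := by
    have e1 : 1 ≤ A ^ 2 := Nat.one_le_pow _ _ hA0
    have e2 : 16 ≤ n ^ 2 := by nlinarith
    have e3 : 2 * (2 * n) ^ 2 * A ^ 4 = 8 * n ^ 2 * (A ^ 2 * A ^ 2) := by ring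
    rw [e3] at hQ
    have e4 : A ^ 2 * 1 ≤ A ^ 2 * A ^ 2 := Nat.mul_le_mul_left _ e1
    nlinarith
  have hQ0 : 0 < Q := by omega
  have hQ1 : (0 : ℝ) < (Q : ℝ) + 1 := by positivity
  obtain ⟨ε, hε⟩ : ∃ ε : ℝ, ε = 1 / ((Q : ℝ) + 1) := ⟨_, rfl⟩
  have hε0 : 0 < ε := by rw [hε]; positivity
  have hεQ : ε * (Q + 1) = 1 := by rw [hε]; field_simp
  have hε2 : ε * (A ^ 2 * 4) < 1 := by
    have : ((A ^ 2 * 4 : ℕ) : ℝ) < (Q : ℝ) + 1 := by
      have : ((A ^ 2 * 4 : ℕ) : ℝ) < Q := by exact_mod_cast hQn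
      linarith
    push_cast at this
    calc ε * (A ^ 2 * 4) < ε * (Q + 1) := mul_lt_mul_of_pos_left this hε0
      _ = 1 := hεQ
  -- Dirichlet
  have dir : ∀ t : ℚ, t.den ≤ 2 * n → ∃ F : ℚ, F.den ≤ Q ∧
      |θ0 + t * v - F| * F.den ≤ ε ∧ F.den ≤ t.den * A := by
    intro t ht
    have ht0 : (0 : ℝ) < t.den := by exact_mod_cast t.pos
    obtain ⟨F, f1, f2, f3⟩ := dirichlet_far (x := θ0 + t * v) (R := R) hQ0 ht0
      (fun f hf => H f t hf ht)
    refine ⟨F, f1, ?_, ?_⟩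
    · have : |θ0 + t * v - F| * F.den * ((Q : ℝ) + 1) ≤ 1 := by
        calc |θ0 + t * v - F| * F.den * ((Q : ℝ) + 1)
            = |θ0 + t * v - F| * ((Q + 1) * F.den) := by ring
          _ ≤ 1 := f2
      rw [hε, le_div_iff₀ hQ1]
      exact this
    · have hF : (0 : ℝ) < F.den := by exact_mod_cast F.pos
      have : (F.den : ℝ) ≤ t.den * A := by
        calc (F.den : ℝ) = F.den * 1 := (mul_one _).symm
          _ ≤ F.den * (A * (R * (Q + 1))) := mul_le_mul_of_nonneg_left hA hF.le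
          _ = A * (F.den * (R * (Q + 1))) := by ring
          _ ≤ A * t.den := mul_le_mul_of_nonneg_left f3 (by linarith)
          _ = t.den * A := mul_comm _ _
      exact_mod_cast this
  have dir' : ∀ t : ℚ, t.den ≤ 2 * n → ∃ F : ℚ, F.den ≤ Q ∧
      |θ0 + t * v - F| ≤ ε ∧ F.den ≤ t.den * A ∧ |θ0 + t * v - F| * F.den ≤ ε := by
    intro t ht
    obtain ⟨F, f1, f2, f3⟩ := dir t ht
    refine ⟨F, f1, ?_, f3, f2⟩
    have hF : (1 : ℝ) ≤ F.den := by exact_mod_cast F.pos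
    calc |θ0 + t * v - F| = |θ0 + t * v - F| * 1 := (mul_one _).symm
      _ ≤ |θ0 + t * v - F| * F.den := mul_le_mul_of_nonneg_left hF (abs_nonneg _)
      _ ≤ ε := f2
  have den0 : (0 : ℚ).den = 1 := rfl
  have den1 : (1 : ℚ).den = 1 := rfl
  obtain ⟨q0, a1, a2, a3, -⟩ := dir' 0 (by rw [den0]; omega)
  obtain ⟨q1, b1, b2, b3, -⟩ := dir' 1 (by rw [den1]; omega)
  rw [den0, one_mul] at a3
  rw [den1, one_mul] at b3
  have hE0 := H q0 0 a1 (by rw [den0]; omega)
  have hE1 := H q1 1 b1 (by rw [den1]; omega)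
  rw [den0] at hE0
  rw [den1] at hE1
  simp only [Rat.cast_zero, zero_mul, add_zero, Nat.cast_one, one_mul, Rat.cast_one] at a2 b2 hE0 hE1
  obtain ⟨δ, hδ⟩ : ∃ δ : ℚ, δ = q1 - q0 := ⟨_, rfl⟩
  have hδr : (δ : ℝ) = q1 - q0 := by rw [hδ]; push_cast; ring
  have hδd : δ.den ≤ A ^ 2 := by
    have h1 : δ.den ∣ q1.den * q0.den := by rw [hδ]; exact Rat.sub_den_dvd _ _
    calc δ.den ≤ q1.den * q0.den := Nat.le_of_dvd (Nat.mul_pos q1.pos q0.pos) h1
      _ ≤ A * A := Nat.mul_le_mul b3 a3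
      _ = A ^ 2 := by ring
  have hvδ : |v - δ| ≤ 2 * ε := by
    have e : v - δ = (θ0 + v - q1) - (θ0 - q0) := by rw [hδr]; ring
    rw [e]
    calc |(θ0 + v - q1) - (θ0 - q0)| ≤ |θ0 + v - q1| + |θ0 - q0| := abs_sub _ _
      _ ≤ 2 * ε := by linarith
  have hδpos : 0 < δ := by
    by_contra hcon
    push Not at hcon
    rcases hcon.lt_or_eq with hlt | heq
    · -- `δ ≠ 0` is near `0` as `v > 0`
      have h1 : |(δ : ℝ) - (0 : ℚ)| ≤ 2 * ε := by
        have hneg : (δ : ℝ) < 0 := by exact_mod_cast hlt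
        have := (abs_le.1 hvδ).2
        rw [Rat.cast_zero, sub_zero, abs_of_neg hneg]
        linarith
      have h2 := rat_eq_of_near (f := δ) (g := 0) (a := A ^ 2) (b := 1) hδd (by rw [den0]) (by
        push_cast
        have : |(δ : ℝ) - (0 : ℚ)| * ((A : ℝ) ^ 2 * 1) ≤ 2 * ε * ((A : ℝ) ^ 2 * 1) :=
          mul_le_mul_of_nonneg_right h1 (by positivity)
        rw [Rat.cast_zero] at this
        nlinarith [sq_nonneg (A : ℝ)])
      rw [h2] at hlt
      exact lt_irrefl _ hlt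
    · have hv2 : v ≤ 2 * ε := by
        rw [heq, Rat.cast_zero, sub_zero] at hvδ
        exact (le_abs_self v).trans hvδ
      have ind : ∀ k : ℕ, |θ0 + k * v - q0| ≤ ε := by
        intro k
        induction k with
        | zero => simpa using a2
        | succ k ih =>
          have hden : ((k + 1 : ℕ) : ℚ).den = 1 := Rat.den_natCast _
          obtain ⟨F, c1, c2, c3, -⟩ := dir' ((k + 1 : ℕ) : ℚ) (by rw [hden]; omega)
          rw [hden, one_mul] at c3
          have ecast : (((k + 1 : ℕ) : ℚ) : ℝ) = (k : ℝ) + 1 := by push_cast; ring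
          rw [ecast] at c2
          have hFq : F = q0 := by
            refine rat_eq_of_near c3 a3 ?_
            have e : (F : ℝ) - q0 = (θ0 + k * v - q0) + v - (θ0 + ((k : ℝ) + 1) * v - F) := by ring
            have h5 : |(F : ℝ) - q0| ≤ 4 * ε := by
              rw [e]
              calc |(θ0 + k * v - q0) + v - (θ0 + ((k : ℝ) + 1) * v - F)|
                  ≤ |(θ0 + k * v - q0) + v| + |θ0 + ((k : ℝ) + 1) * v - F| := abs_sub _ _
                _ ≤ |θ0 + k * v - q0| + |v| + |θ0 + ((k : ℝ) + 1) * v - F| := by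
                    linarith [abs_add_le (θ0 + k * v - q0) v]
                _ ≤ 4 * ε := by
                    rw [abs_of_pos hv]
                    linarith
            calc |(F : ℝ) - q0| * (A * A) ≤ 4 * ε * (A * A) :=
                  mul_le_mul_of_nonneg_right h5 (by positivity)
              _ = ε * (A ^ 2 * 4) := by ring
              _ < 1 := hε2
          rw [← hFq]
          push_cast
          exact c2
      obtain ⟨k, hk⟩ := exists_nat_gt ((2 * ε) / v)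
      rw [div_lt_iff₀ hv] at hk
      have h6 := (abs_le.1 (ind k)).2
      have h7 := (abs_le.1 a2).1
      linarith
  have hy0 : 0 < δ.num := Rat.num_pos.2 hδpos
  have hyn : δ.num ≤ n := by
    have e1 : (δ : ℝ) * δ.den = δ.num := by exact_mod_cast Rat.mul_den_eq_num δ
    have e2 : (δ : ℝ) ≤ V + 1 := by
      have := (abs_le.1 hvδ).1
      have h2 : ε * 4 ≤ 1 := by
        have : (1 : ℝ) ≤ (A : ℝ) ^ 2 := one_le_pow₀ hA1
        nlinarith
      linarith
    have e3 : (δ.num : ℝ) ≤ (V + 1) * A ^ 2 := by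
      rw [← e1]
      have h3 : (δ.den : ℝ) ≤ (A : ℝ) ^ 2 := by exact_mod_cast hδd
      have h4 : (0 : ℝ) ≤ δ.den := by positivity
      have h5 : (0 : ℝ) ≤ (V : ℝ) + 1 := by positivity
      exact mul_le_mul e2 h3 h4 h5
    have e4 : (((V + 1) * A ^ 2 : ℕ) : ℝ) ≤ (n : ℝ) := by
      have : (V + 1) * A ^ 2 ≤ n := by rw [mul_comm]; exact n1
      exact_mod_cast this
    push_cast at e4
    have : (δ.num : ℝ) ≤ (n : ℝ) := e3.trans e4
    exact_mod_cast this
  obtain ⟨r, hr, hr1, hr2⟩ := Nat.exists_prime_lt_and_le_two_mul n (by omega)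
  have hr4 : (4 : ℝ) ≤ r := by
    have : 4 ≤ r := by omega
    exact_mod_cast this
  have hr0 : (0 : ℝ) < r := by linarith
  -- the error function
  have hE : ∀ t : ℚ, θ0 + t * v - ((q0 + t * δ : ℚ) : ℝ) =
      (1 - t) * (θ0 - q0) + t * (θ0 + v - q1) := by
    intro t
    push_cast
    rw [hδr]
    ring
  -- the multiplier
  obtain ⟨k, hk0, hk1, hkE⟩ : ∃ k : ℕ, 0 < k ∧ k < r ∧ ∀ t : ℚ, t = (k : ℚ) / r →
      t.den = r ∧ R ≤ 2 * |θ0 + t * v - ((q0 + t * δ : ℚ) : ℝ)| := by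
    rcases le_total |θ0 + v - q1| |θ0 - q0| with hle | hle
    · refine ⟨1, one_pos, by omega, fun t ht => ?_⟩
      constructor
      · have h1 := Rat.den_div_eq_of_coprime (a := 1) (b := r) (by exact_mod_cast hr.pos)
          (by simp)
        have h2 : ((1 : ℤ) : ℚ) / ((r : ℤ) : ℚ) = t := by rw [ht]; push_cast; ring
        rw [h2] at h1
        exact_mod_cast h1
      · rw [hE]
        have ht' : (t : ℝ) * r = 1 := by
          rw [ht]
          push_cast
          field_simp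
        have ht0 : 0 < (t : ℝ) := by
          rw [ht]; push_cast; positivity
        have ht1 : (t : ℝ) * 4 ≤ 1 :=
          (mul_le_mul_of_nonneg_left hr4 ht0.le).trans ht'.le
        have h1 : |(1 - (t : ℝ)) * (θ0 - q0)| = (1 - t) * |θ0 - q0| := by
          rw [abs_mul, abs_of_pos (by linarith : (0 : ℝ) < 1 - t)]
        have h2 : |(t : ℝ) * (θ0 + v - q1)| = t * |θ0 + v - q1| := by
          rw [abs_mul, abs_of_pos ht0]
        have h3 : |(1 - (t : ℝ)) * (θ0 - q0)| - |(t : ℝ) * (θ0 + v - q1)| ≤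
            |(1 - (t : ℝ)) * (θ0 - q0) + t * (θ0 + v - q1)| := by
          have := abs_sub_abs_le_abs_sub ((1 - (t : ℝ)) * (θ0 - q0)) (-(t * (θ0 + v - q1)))
          rw [abs_neg, sub_neg_eq_add] at this
          exact this
        rw [h1, h2] at h3
        nlinarith [abs_nonneg (θ0 - q0)]
    · refine ⟨r - 1, by omega, by omega, fun t ht => ?_⟩
      have hcast : ((r - 1 : ℕ) : ℚ) = (r : ℚ) - 1 := by
        rw [Nat.cast_sub hr.one_lt.le, Nat.cast_one]
      constructor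
      · have hcop : Nat.Coprime ((r - 1 : ℤ)).natAbs (r : ℤ).natAbs :=
          Int.isCoprime_iff_gcd_eq_one.1 ⟨-1, 1, by ring⟩
        have h1 := Rat.den_div_eq_of_coprime (a := (r - 1 : ℤ)) (b := r)
          (by exact_mod_cast hr.pos) hcop
        have h2 : (((r : ℤ) - 1 : ℤ) : ℚ) / ((r : ℤ) : ℚ) = t := by
          rw [ht, hcast]; push_cast; ring
        rw [h2] at h1
        exact_mod_cast h1
      · rw [hE]
        have ht' : (1 - (t : ℝ)) * r = 1 := by
          rw [ht, hcast]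
          push_cast
          field_simp
          ring
        have ht0 : 0 < 1 - (t : ℝ) := by
          by_contra hc
          push Not at hc
          nlinarith
        have ht1 : (1 - (t : ℝ)) * 4 ≤ 1 :=
          (mul_le_mul_of_nonneg_left hr4 ht0.le).trans ht'.le
        have h1 : |(1 - (t : ℝ)) * (θ0 - q0)| = (1 - t) * |θ0 - q0| := by
          rw [abs_mul, abs_of_pos ht0]
        have h2 : |(t : ℝ) * (θ0 + v - q1)| = t * |θ0 + v - q1| := by
          rw [abs_mul, abs_of_pos (by linarith : (0 : ℝ) < t)]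
        have h3 : |(t : ℝ) * (θ0 + v - q1)| - |(1 - (t : ℝ)) * (θ0 - q0)| ≤
            |(1 - (t : ℝ)) * (θ0 - q0) + t * (θ0 + v - q1)| := by
          have := abs_sub_abs_le_abs_sub (t * (θ0 + v - q1)) (-((1 - (t : ℝ)) * (θ0 - q0)))
          rw [abs_neg, sub_neg_eq_add, add_comm (t * (θ0 + v - q1))] at this
          exact this
        rw [h1, h2] at h3
        nlinarith [abs_nonneg (θ0 + v - q1)]
  obtain ⟨t, ht⟩ : ∃ t : ℚ, t = (k : ℚ) / r := ⟨_, rfl⟩
  obtain ⟨htd, htE⟩ := hkE t ht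
  obtain ⟨F, f1, f2, f3, f4⟩ := dir' t (by rw [htd]; exact hr2)
  rw [htd] at f3
  obtain ⟨f, hf⟩ : ∃ f : ℚ, f = q0 + t * δ := ⟨_, rfl⟩
  have hfd : f.den ≤ r * A ^ 3 := by
    have h1 : f.den ∣ q0.den * (t * δ).den := by rw [hf]; exact Rat.add_den_dvd _ _
    have h2 : (t * δ).den ∣ t.den * δ.den := Rat.mul_den_dvd _ _
    calc f.den ≤ q0.den * (t * δ).den := Nat.le_of_dvd (Nat.mul_pos q0.pos (t * δ).pos) h1
      _ ≤ A * (t.den * δ.den) :=
          Nat.mul_le_mul a3 (Nat.le_of_dvd (Nat.mul_pos t.pos δ.pos) h2)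
      _ ≤ A * (r * A ^ 2) := by
          rw [htd]
          exact Nat.mul_le_mul_left _ (Nat.mul_le_mul_left _ hδd)
      _ = r * A ^ 3 := by ring
  have ht01 : 0 < (t : ℝ) ∧ (t : ℝ) < 1 := by
    rw [ht]
    push_cast
    have hk0' : (0 : ℝ) < k := by exact_mod_cast hk0
    have hk1' : (k : ℝ) < r := by exact_mod_cast hk1
    exact ⟨by positivity, by rw [div_lt_one hr0]; exact hk1'⟩
  have hEle : |θ0 + t * v - f| ≤ ε := by
    rw [hf, hE]
    calc |(1 - (t : ℝ)) * (θ0 - q0) + t * (θ0 + v - q1)|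
        ≤ |(1 - (t : ℝ)) * (θ0 - q0)| + |t * (θ0 + v - q1)| := abs_add_le _ _
      _ = (1 - t) * |θ0 - q0| + t * |θ0 + v - q1| := by
          rw [abs_mul, abs_mul, abs_of_pos ht01.1, abs_of_pos (by linarith : 0 < 1 - (t : ℝ))]
      _ ≤ (1 - t) * ε + t * ε := by
          have := mul_le_mul_of_nonneg_left a2 (by linarith : 0 ≤ 1 - (t : ℝ))
          have := mul_le_mul_of_nonneg_left b2 ht01.1.le
          linarith
      _ = ε := by ring
  have hFf : F = f := by
    refine rat_eq_of_near f3 hfd ?_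
    have h1 : |(F : ℝ) - f| ≤ 2 * ε := by
      have e : (F : ℝ) - f = (θ0 + t * v - f) - (θ0 + t * v - F) := by ring
      rw [e]
      linarith [abs_sub (θ0 + t * v - f) (θ0 + t * v - F)]
    have h2 : 2 * ((r : ℝ) * A * (r * A ^ 3)) < Q + 1 := by
      have h3 : (((2 * (2 * n) ^ 2 * A ^ 4 : ℕ)) : ℝ) ≤ Q := by exact_mod_cast hQ
      have h4 : (2 * (r * A * (r * A ^ 3)) : ℕ) ≤ 2 * (2 * n) ^ 2 * A ^ 4 := by
        have : r ^ 2 ≤ (2 * n) ^ 2 := Nat.pow_le_pow_left hr2 2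
        calc 2 * (r * A * (r * A ^ 3)) = 2 * r ^ 2 * A ^ 4 := by ring
          _ ≤ 2 * (2 * n) ^ 2 * A ^ 4 := Nat.mul_le_mul_right _ (Nat.mul_le_mul_left _ this)
      have h5 : ((2 * (r * A * (r * A ^ 3)) : ℕ) : ℝ) ≤ ((2 * (2 * n) ^ 2 * A ^ 4 : ℕ) : ℝ) := by
        exact_mod_cast h4
      have h6 : ((2 * (r * A * (r * A ^ 3)) : ℕ) : ℝ) = 2 * ((r : ℝ) * A * (r * A ^ 3)) := by
        push_cast; ring
      rw [h6] at h5
      linarith
    push_cast
    calc |(F : ℝ) - f| * ((r : ℝ) * A * (r * A ^ 3)) ≤ 2 * ε * ((r : ℝ) * A * (r * A ^ 3)) :=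
          mul_le_mul_of_nonneg_right h1 (by positivity)
      _ = ε * (2 * ((r : ℝ) * A * (r * A ^ 3))) := by ring
      _ < ε * (Q + 1) := mul_lt_mul_of_pos_left h2 hε0
      _ = 1 := hεQ
  have hrd : r ∣ F.den := by
    rw [hFf]
    refine prime_dvd_den hr hk0 hk1 ht hf ?_ hy0 ?_
    · omega
    · have : (n : ℤ) < r := by exact_mod_cast hr1
      omega
  have hrF : (r : ℝ) ≤ F.den := by exact_mod_cast Nat.le_of_dvd F.pos hrd
  rw [← hf, ← hFf] at htE
  have h8 : R * r ≤ 2 * ε := by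
    calc R * r ≤ 2 * |θ0 + t * v - F| * r := mul_le_mul_of_nonneg_right htE hr0.le
      _ ≤ 2 * |θ0 + t * v - F| * F.den := mul_le_mul_of_nonneg_left hrF (by positivity)
      _ = 2 * (|θ0 + t * v - F| * F.den) := by ring
      _ ≤ 2 * ε := by linarith
  have h9 : (r : ℝ) ≤ 2 * A := by
    calc (r : ℝ) = 1 * r := (one_mul _).symm
      _ ≤ A * (R * (Q + 1)) * r := mul_le_mul_of_nonneg_right hA hr0.le
      _ = A * (Q + 1) * (R * r) := by ring
      _ ≤ A * (Q + 1) * (2 * ε) := mul_le_mul_of_nonneg_left h8 (by positivity)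
      _ = 2 * A * (ε * (Q + 1)) := by ring
      _ = 2 * A := by rw [hεQ, mul_one]
  have h10 : r ≤ 2 * A := by exact_mod_cast h9
  omega

/-- the numbers of a pair of tori `L, M` at a tree: levels `c, c'`, areas `a, a'`, `g = p × e'`,
`g' = p' × e`, `R0 = e × e'`; all pairs of levels `≤ Y` satisfy `max < 2 |l × m|` -/
structure Slopes (c c' a a' g g' R0 Y : ℤ) : Prop where
  hc : 0 < c
  hc' : 0 < c'
  e1 : c * g = a * c'
  e2 : c' * g' = a' * c
  star : ∀ α k α' k' : ℤ, 0 < α → α * c ≤ Y → IsCoprime α k → 0 < α' → α' * c' ≤ Y →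
    IsCoprime α' k' → max (α * c) (α' * c') ≤ 2 * |α * α' * R0 - α * k' * g' + k * α' * g|

theorem Slopes.swap {c c' a a' g g' R0 Y : ℤ} (h : Slopes c c' a a' g g' R0 Y) :
    Slopes c' c a' a g' g (-R0) Y := by
  refine ⟨h.hc', h.hc, h.e2, h.e1, fun α k α' k' h1 h2 h3 h4 h5 h6 => ?_⟩
  have := h.star α' k' α k h4 h5 h6 h1 h2 h3
  rw [max_comm]
  refine this.trans (le_of_eq ?_)
  congr 1
  rw [← abs_neg]
  congr 1
  ring

theorem Slopes.both_aux {c c' a a' g g' R0 Y N T : ℤ} (h : Slopes c c' a a' g g' R0 Y)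
    (hcc : c' ≤ c) (ha : Y < a) (ha' : Y < a') (haN : a ≤ N) (haN' : a' ≤ N) (hT : 1 ≤ T)
    (hNT : N ≤ T * Y) (hK : 51200 * T ^ 14 * c ≤ Y) : False := by
  obtain ⟨hc, hc', e1, e2, star⟩ := h
  have hT14 : 1 ≤ T ^ 14 := one_le_pow₀ hT
  have hcY : 51200 * c ≤ Y := by nlinarith
  have hY : 0 < Y := by linarith
  have hg : 0 < g := by
    have : 0 < c * g := by rw [e1]; exact mul_pos (by linarith) hc'
    exact (pos_iff_pos_of_mul_pos this).1 hc
  have hg' : 0 < g' := by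
    have : 0 < c' * g' := by rw [e2]; exact mul_pos (by linarith) hc
    exact (pos_iff_pos_of_mul_pos this).1 hc'
  have hgN : g ≤ N := by
    have : c * g ≤ c * N := by
      rw [e1]
      calc a * c' ≤ N * c := mul_le_mul haN hcc hc'.le (by linarith)
        _ = c * N := mul_comm _ _
    exact le_of_mul_le_mul_left this hc
  -- the rational form of `star`
  have H0 : ∀ f t : ℚ, (f.den : ℤ) * c ≤ Y → (t.den : ℤ) * c' ≤ Y →
      (c : ℝ) / (2 * g) ≤ t.den * |(-(R0 : ℝ) / g) + t * ((g' : ℝ) / g) - f| := by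
    intro f t hf ht
    have h1 := star f.den f.num t.den t.num (by exact_mod_cast f.pos) hf
      (by
        rw [isCoprime_comm, Int.isCoprime_iff_gcd_eq_one]
        exact f.reduced)
      (by exact_mod_cast t.pos) ht
      (by
        rw [isCoprime_comm, Int.isCoprime_iff_gcd_eq_one]
        exact t.reduced)
    have h2 := (le_max_left _ _).trans h1
    have hfd : (0 : ℝ) < f.den := by exact_mod_cast f.pos
    have htd : (0 : ℝ) < t.den := by exact_mod_cast t.pos
    have hgr : (0 : ℝ) < g := by exact_mod_cast hg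
    have ef : (f : ℝ) * f.den = f.num := by exact_mod_cast Rat.mul_den_eq_num f
    have et : (t : ℝ) * t.den = t.num := by exact_mod_cast Rat.mul_den_eq_num t
    have h3 : (f.den : ℝ) * c ≤ 2 * |(f.den : ℝ) * t.den * R0 - f.den * t.num * g' +
        f.num * t.den * g| := by exact_mod_cast h2
    have e3 : (f.den : ℝ) * t.den * R0 - f.den * t.num * g' + f.num * t.den * g =
        -((f.den * t.den * g) * ((-(R0 : ℝ) / g) + t * ((g' : ℝ) / g) - f)) := by
      rw [← ef, ← et]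
      field_simp
      ring
    rw [e3, abs_neg, abs_mul, abs_of_pos (by positivity : (0 : ℝ) < f.den * t.den * g)] at h3
    rw [div_le_iff₀ (by positivity)]
    have h4 : (f.den : ℝ) * c ≤ f.den * (t.den *
        |(-(R0 : ℝ) / g) + t * ((g' : ℝ) / g) - f| * (2 * g)) := by
      calc (f.den : ℝ) * c ≤ _ := h3
        _ = _ := by ring
    exact le_of_mul_le_mul_left h4 hfd
  obtain ⟨Q, hQ⟩ : ∃ Q : ℕ, (Q : ℤ) = Y / c :=
    ⟨(Y / c).toNat, Int.toNat_of_nonneg (Int.ediv_nonneg hY.le hc.le)⟩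
  obtain ⟨S, hS⟩ : ∃ S : ℕ, (S : ℤ) = T := ⟨T.toNat, Int.toNat_of_nonneg (by linarith)⟩
  have hQc : (Q : ℤ) * c ≤ Y := by rw [hQ]; exact Int.ediv_mul_le _ hc.ne'
  have hQc' : Y < ((Q : ℤ) + 1) * c := by
    rw [hQ]
    exact Int.lt_ediv_add_one_mul_self _ hc
  have hQT : 51200 * T ^ 14 ≤ Q := by
    rw [hQ]
    exact Int.le_ediv_of_mul_le hc hK
  have hQ0 : 0 < Q := by
    have : (0 : ℤ) < Q := by linarith
    exact_mod_cast this
  have hcr : (0 : ℝ) < c := by exact_mod_cast hc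
  have hgr : (0 : ℝ) < g := by exact_mod_cast hg
  have hgr' : (0 : ℝ) < g' := by exact_mod_cast hg'
  have Hden : ∀ f : ℚ, f.den ≤ Q → (f.den : ℤ) * c ≤ Y := by
    intro f hf
    calc (f.den : ℤ) * c ≤ Q * c := mul_le_mul_of_nonneg_right (by exact_mod_cast hf) hc.le
      _ ≤ Y := hQc
  -- `c ≤ 2 T c'`
  have hcc' : c ≤ 2 * T * c' := by
    obtain ⟨F, f1, f2, f3⟩ := dirichlet_far (x := -(R0 : ℝ) / g) (R := (c : ℝ) / (2 * g)) hQ0
      one_pos (fun f hf => by
        have := H0 f 0 (Hden f hf) (by simp; linarith)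
        simpa using this)
    have hF : (1 : ℝ) ≤ F.den := by exact_mod_cast F.pos
    have h1 : (c : ℝ) / (2 * g) * (Q + 1) ≤ 1 := by
      have h0 : (0 : ℝ) ≤ (c : ℝ) / (2 * g) * (Q + 1) := by positivity
      nlinarith
    have h2 : (c : ℝ) * (Q + 1) ≤ 2 * g := by
      rw [div_mul_eq_mul_div, div_le_one (by positivity)] at h1
      exact h1
    have h3 : c * (Q + 1) ≤ 2 * g := by exact_mod_cast h2
    have h4 : Y ≤ 2 * g := by linarith
    have h5 : Y * c ≤ Y * (2 * T * c') := by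
      calc Y * c ≤ 2 * g * c := mul_le_mul_of_nonneg_right h4 hc.le
        _ = 2 * (a * c') := by rw [← e1]; ring
        _ ≤ 2 * (T * Y * c') := by
            have : a * c' ≤ T * Y * c' := mul_le_mul_of_nonneg_right (by linarith) hc'.le
            linarith
        _ = Y * (2 * T * c') := by ring
    exact le_of_mul_le_mul_left h5 hY
  -- `g' ≤ 4 T ^ 3 g`
  have hgg : g' ≤ 4 * T ^ 3 * g := by
    have h1 : c ^ 2 ≤ 4 * T ^ 2 * c' ^ 2 := by
      calc c ^ 2 ≤ (2 * T * c') ^ 2 := pow_le_pow_left₀ hc.le hcc' 2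
        _ = 4 * T ^ 2 * c' ^ 2 := by ring
    have h2 : a' ≤ T * a := by
      calc a' ≤ T * Y := by linarith
        _ ≤ T * a := mul_le_mul_of_nonneg_left ha.le (by linarith)
    have h3 : (c * c') * g' ≤ (c * c') * (4 * T ^ 3 * g) := by
      calc (c * c') * g' = a' * c ^ 2 := by linear_combination c * e2
        _ ≤ (T * a) * (4 * T ^ 2 * c' ^ 2) :=
            mul_le_mul h2 h1 (by positivity) (mul_nonneg (by linarith) (by linarith))
        _ = (c * c') * (4 * T ^ 3 * g) := by linear_combination (-4 * T ^ 3 * c') * e1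
    exact le_of_mul_le_mul_left h3 (mul_pos hc hc')
  have hST : (S : ℝ) = (T : ℝ) := by
    have : ((S : ℤ) : ℝ) = (T : ℝ) := by rw [hS]
    rwa [Int.cast_natCast] at this
  refine far_core (θ0 := -(R0 : ℝ) / g) (v := (g' : ℝ) / g) (R := (c : ℝ) / (2 * g)) (Q := Q)
    (A := 2 * S) (V := 4 * S ^ 3) (n := 20 * S ^ 5) (by positivity) (by positivity) ?_ ?_ ?_ ?_ ?_
    ?_ ?_
  · rw [div_le_iff₀ hgr]
    push_cast
    rw [hST]
    have h1 : (g' : ℝ) ≤ 4 * (T : ℝ) ^ 3 * g := by exact_mod_cast hgg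
    exact h1
  · push_cast
    rw [hST]
    have e4 : 2 * (T : ℝ) * ((c : ℝ) / (2 * g) * (Q + 1)) = T * (c * (Q + 1)) / g := by
      field_simp
    rw [e4, le_div_iff₀ hgr, one_mul]
    have h1 : g ≤ T * (c * (Q + 1)) := by
      calc g ≤ T * Y := by linarith
        _ ≤ T * (c * (Q + 1)) := mul_le_mul_of_nonneg_left (by linarith) (by linarith)
    exact_mod_cast h1
  · intro f t hf ht
    refine H0 f t (Hden f hf) ?_
    have h1 : (t.den : ℤ) ≤ 40 * T ^ 5 := by
      have : (t.den : ℤ) ≤ ((2 * (20 * S ^ 5) : ℕ) : ℤ) := by exact_mod_cast ht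
      push_cast at this
      rw [hS] at this
      linarith
    have h2 : T ^ 5 ≤ T ^ 14 := pow_le_pow_right₀ hT (by norm_num)
    calc (t.den : ℤ) * c' ≤ (40 * T ^ 5) * c' := mul_le_mul_of_nonneg_right h1 hc'.le
      _ ≤ (51200 * T ^ 14) * c := mul_le_mul (by linarith) hcc hc'.le (by linarith)
      _ ≤ Y := hK
  · have hS1 : 1 ≤ S := by
      have : (1 : ℤ) ≤ S := by rw [hS]; exact hT
      exact_mod_cast this
    have h1 : S ^ 2 ≤ S ^ 5 := Nat.pow_le_pow_right hS1 (by norm_num)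
    calc (2 * S) ^ 2 * (4 * S ^ 3 + 1) = 16 * S ^ 5 + 4 * S ^ 2 := by ring
      _ ≤ 20 * S ^ 5 := by omega
  · have hS1 : 1 ≤ S := by
      have : (1 : ℤ) ≤ S := by rw [hS]; exact hT
      exact_mod_cast this
    have h1 : S ^ 1 ≤ S ^ 5 := Nat.pow_le_pow_right hS1 (by norm_num)
    rw [pow_one] at h1
    omega
  · have hS1 : 1 ≤ S := by
      have : (1 : ℤ) ≤ S := by rw [hS]; exact hT
      exact_mod_cast this
    have h1 : 1 ≤ S ^ 5 := Nat.one_le_pow _ _ hS1
    omega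
  · have h1 : ((2 * (2 * (20 * S ^ 5)) ^ 2 * (2 * S) ^ 4 : ℕ) : ℤ) ≤ Q := by
      push_cast
      rw [hS]
      have e : 2 * (2 * (20 * T ^ 5)) ^ 2 * (2 * T) ^ 4 = 51200 * T ^ 14 := by ring
      rw [e]
      exact hQT
    exact_mod_cast h1

/-- **Both areas large, both contents small: impossible.** -/
theorem Slopes.both_large {c c' a a' g g' R0 Y N T : ℤ} (h : Slopes c c' a a' g g' R0 Y)
    (ha : Y < a) (ha' : Y < a') (haN : a ≤ N) (haN' : a' ≤ N) (hT : 1 ≤ T) (hNT : N ≤ T * Y)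
    (hK : 51200 * T ^ 14 * c ≤ Y) (hK' : 51200 * T ^ 14 * c' ≤ Y) : False := by
  rcases le_total c' c with hcc | hcc
  · exact h.both_aux hcc ha ha' haN haN' hT hNT hK
  · exact h.swap.both_aux hcc ha' ha haN' haN hT hNT hK'

end Pool.Agent.H4G.Six
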