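import Pool.Agent.H4G.Six.RectX
import Pool.Agent.H4G.Six.NR.T12

/-!
# Route NR: double 2 (helper58; typed by helper14)

`card_gcd`: the number of values `F k` with `F k ≤ E₁ g`, `G ≤ E₂ g`, `g = gcd (F k, G)`, is at
most `E₁ E₂`. `double2`: no class without roomy trees has a tree with tiny tori, `a ≈ 2 c`,
`a' ≈ 2 c'`, `c ≈ c' ≈ |l × m|`.
-/

set_option autoImplicit false

namespace Pool.Agent.H4G.Six

open Pool.Agent.H4G

variable {X : Type} {O : PO X} {N B : ℤ} {U x u v l q m s z : Z2}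

/-- the number of values with a large gcd with `G` -/
theorem card_gcd {n : ℕ} {G E1 E2 : ℤ} (F : ℕ → ℤ) (hG : 0 < G) (hE1 : 0 ≤ E1) (hE2 : 0 ≤ E2)
    (h0 : ∀ k < n, 0 < F k) (hi : ∀ j < n, ∀ k < n, F j = F k → j = k)
    (h1 : ∀ k < n, F k ≤ E1 * Int.gcd (F k) G) (h2 : ∀ k < n, G ≤ E2 * Int.gcd (F k) G) :
    (n : ℤ) ≤ E1 * E2 := by
  have hg : ∀ k, 0 < (Int.gcd (F k) G : ℤ) := fun k => by
    exact_mod_cast Int.gcd_pos_of_ne_zero_right _ hG.ne'
  obtain ⟨f, hf⟩ : ∃ f : ℕ → ℤ × ℤ, f = fun k => (F k / Int.gcd (F k) G, G / Int.gcd (F k) G) :=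
    ⟨_, rfl⟩
  have e1 : ∀ k, F k = (f k).1 * Int.gcd (F k) G := fun k => by
    rw [hf]; exact (Int.ediv_mul_cancel (Int.gcd_dvd_left _ _)).symm
  have e2 : ∀ k, G = (f k).2 * Int.gcd (F k) G := fun k => by
    rw [hf]; exact (Int.ediv_mul_cancel (Int.gcd_dvd_right _ _)).symm
  have hm : ∀ k ∈ Finset.range n, f k ∈ Finset.Icc (1 : ℤ) E1 ×ˢ Finset.Icc (1 : ℤ) E2 := by
    intro k hk
    have hk' := Finset.mem_range.1 hk
    have a0 := h0 k hk'
    have a1 := h1 k hk'
    have a2 := h2 k hk'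
    have b := hg k
    have b1 := e1 k
    have b2 := e2 k
    obtain ⟨g, hgg⟩ : ∃ g : ℤ, g = Int.gcd (F k) G := ⟨_, rfl⟩
    rw [← hgg] at a1 a2 b b1 b2
    rw [Finset.mem_product, Finset.mem_Icc, Finset.mem_Icc]
    refine ⟨⟨?_, ?_⟩, ?_, ?_⟩
    · by_contra hc
      push Not at hc
      nlinarith
    · rw [b1] at a1
      exact le_of_mul_le_mul_right a1 b
    · by_contra hc
      push Not at hc
      nlinarith
    · rw [b2] at a2
      exact le_of_mul_le_mul_right a2 b
  have hinj : Set.InjOn f (Finset.range n : Set ℕ) := by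
    intro j hj k hk hjk
    have hj' := Finset.mem_range.1 (Finset.mem_coe.1 hj)
    have hk' := Finset.mem_range.1 (Finset.mem_coe.1 hk)
    apply hi j hj' k hk'
    have a1 := e1 j
    have a2 := e2 j
    have b1 := e1 k
    have b2 := e2 k
    rw [hjk] at a1 a2
    have c1 : (Int.gcd (F j) G : ℤ) = Int.gcd (F k) G := by
      have c2 : (f k).2 ≠ 0 := by
        intro h
        rw [h, zero_mul] at b2
        exact hG.ne' b2
      exact mul_left_cancel₀ c2 (a2.symm.trans b2)
    rw [a1, c1, ← b1]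
  have hc := Finset.card_le_card_of_injOn f hm hinj
  rw [Finset.card_range, Finset.card_product, Int.card_Icc, Int.card_Icc] at hc
  have e : ((E1 + 1 - 1).toNat * (E2 + 1 - 1).toNat : ℕ) = (E1 * E2).toNat := by
    rw [show E1 + 1 - 1 = E1 by ring, show E2 + 1 - 1 = E2 by ring]
    rw [Int.toNat_mul hE1 hE2]
  rw [e] at hc
  have := Int.toNat_of_nonneg (mul_nonneg hE1 hE2)
  omega

/-! ## The numbers of double 2 -/

/-- the numbers: `μ = l × x`, `ν = x × m`, `Q = q × x`, `M = q × m`, `a = A'` -/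
theorem d2_num {c c' ρ D W μ ν Q M a N : ℤ} (hc : 0 < c) (a1 : 99 * c ≤ 100 * c')
    (a2 : 99 * c' ≤ 100 * c) (b1 : 99 * c ≤ 100 * ρ) (b2 : 99 * ρ ≤ 100 * c) (d1 : D ≤ c)
    (d2 : 99 * c ≤ 100 * D) (hW : 1000 * c ≤ W) (hWN : N ≤ W + 3 * c)
    (e1 : c * ν + c' * μ = W * ρ) (e2 : c * Q = D * W) (e3 : c * M = D * c')
    (e4 : a = 2 * μ - ν + D - ρ + M - Q) (ha0 : 0 < a) (ha : 32 * a ≤ N) :
    0 < ν ∧ ν < μ ∧ μ < W ∧ 0 < ν + ρ - M ∧ 0 < Q - μ ∧ ν + ρ - M ≤ W := by
  have hW0 : 0 < W := by linarith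
  have w1 : 0 ≤ W * (100 * c' - 99 * c) := mul_nonneg hW0.le (by linarith)
  have w2 : 0 ≤ W * (100 * c - 99 * c') := mul_nonneg hW0.le (by linarith)
  have w3 : 0 ≤ W * (100 * ρ - 99 * c) := mul_nonneg hW0.le (by linarith)
  have w4 : 0 ≤ W * (100 * c - 99 * ρ) := mul_nonneg hW0.le (by linarith)
  have w5 : 0 ≤ W * (100 * D - 99 * c) := mul_nonneg hW0.le (by linarith)
  have w6 : 0 ≤ W * (c - D) := mul_nonneg hW0.le (by linarith)
  have w7 : 0 ≤ c * (W - 1000 * c) := mul_nonneg hc.le (by linarith)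
  have w8 : 0 < c * a := mul_pos hc ha0
  have w9 : 0 ≤ c * (N - 32 * a) := mul_nonneg hc.le (by linarith)
  have w10 : 0 ≤ c * (W + 3 * c - N) := mul_nonneg hc.le (by linarith)
  have w11 : 0 ≤ c * (100 * ρ - 99 * c) := mul_nonneg hc.le (by linarith)
  have w12 : 0 ≤ c * (100 * c - 99 * ρ) := mul_nonneg hc.le (by linarith)
  have w13 : 0 ≤ c * (100 * D - 99 * c) := mul_nonneg hc.le (by linarith)
  have w14 : 0 ≤ c * (c - D) := mul_nonneg hc.le (by linarith)
  have w15 : 0 ≤ c' * (c - D) := mul_nonneg (by linarith) (by linarith)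
  have w16 : 0 ≤ c * (100 * c - 99 * c') := mul_nonneg hc.le (by linarith)
  have w17 : 0 < D * c' := mul_pos (by linarith) (by linarith)
  have key : (2 * c + c') * μ = c * a + W * ρ + D * W - c * D + c * ρ - D * c' := by
    rw [e4]
    linear_combination e1 + e2 - e3
  have hcc : 0 < 2 * c + c' := by linarith
  -- the bounds of `μ`
  have m1 : 65 * W ≤ 100 * μ := by
    by_contra hcon
    push Not at hcon
    have h1 : 0 < (2 * c + c') * (65 * W - 100 * μ) := mul_pos hcc (by linarith)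
    have e : (2 * c + c') * (65 * W - 100 * μ)
        = 130 * (W * c) + 65 * (W * c') - 100 * ((2 * c + c') * μ) := by ring
    rw [e, key] at h1
    linarith
  have hμ : 0 < μ := by linarith
  have m2 : 100 * μ ≤ 69 * W := by
    by_contra hcon
    push Not at hcon
    have h1 : 0 < (2 * c + c') * (100 * μ - 69 * W) := mul_pos hcc (by linarith)
    have e : (2 * c + c') * (100 * μ - 69 * W)
        = 100 * ((2 * c + c') * μ) - 138 * (W * c) - 69 * (W * c') := by ring
    rw [e, key] at h1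
    linarith
  have x1 : 0 ≤ c' * (100 * μ - 65 * W) := mul_nonneg (by linarith) (by linarith)
  have x2 : 0 ≤ c' * (69 * W - 100 * μ) := mul_nonneg (by linarith) (by linarith)
  -- the bounds of `ν`
  have n1 : 29 * W ≤ 100 * ν := by
    by_contra hcon
    push Not at hcon
    have h1 : 0 < c * (29 * W - 100 * ν) := mul_pos hc (by linarith)
    have e : c * (29 * W - 100 * ν) = 29 * (W * c) - 100 * (W * ρ) + 100 * (c' * μ) := by
      linear_combination (-100 : ℤ) * e1
    rw [e] at h1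
    linarith
  have n2 : 100 * ν ≤ 38 * W := by
    by_contra hcon
    push Not at hcon
    have h1 : 0 < c * (100 * ν - 38 * W) := mul_pos hc (by linarith)
    have e : c * (100 * ν - 38 * W) = 100 * (W * ρ) - 38 * (W * c) - 100 * (c' * μ) := by
      linear_combination (100 : ℤ) * e1
    rw [e] at h1
    linarith
  have q1 : 98 * W ≤ 100 * Q := by
    by_contra hcon
    push Not at hcon
    have h1 : 0 < c * (98 * W - 100 * Q) := mul_pos hc (by linarith)
    have e : c * (98 * W - 100 * Q) = 98 * (W * c) - 100 * (W * D) := by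
      linear_combination (-100 : ℤ) * e2
    rw [e] at h1
    have : 0 < W * c := mul_pos hW0 hc
    linarith
  have q2 : M ≤ c' := by
    by_contra hcon
    push Not at hcon
    have h1 : 0 < c * (M - c') := mul_pos hc (by linarith)
    have e : c * (M - c') = -(c' * (c - D)) := by
      linear_combination e3
    rw [e] at h1
    linarith
  have q3 : 0 < M := by
    by_contra hcon
    push Not at hcon
    have h1 : c * M ≤ 0 := mul_nonpos_of_nonneg_of_nonpos hc.le hcon
    rw [e3] at h1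
    linarith
  refine ⟨by linarith, by linarith, by linarith, by linarith, by linarith, by linarith⟩

/-! ## Double 2 -/

/-- **double 2**, `l × m > 0` -/
theorem double2_pos (hNR : NoRoom O N B) (hB : 2 ≤ B) (hT : Has6 O (u, v, l, q, m, s))
    (hN : vol6 (u, v, l, q, m, s) = N) (uq : cr u q = 0) (us : cr u s = 0)
    (a1 : 99 * cr u l ≤ 100 * cr u m) (a2 : 99 * cr u m ≤ 100 * cr u l)
    (b1 : 99 * cr u l ≤ 100 * cr l m) (b2 : 99 * cr l m ≤ 100 * cr u l)
    (d1 : cr q l ≤ cr u l) (d2 : 99 * cr u l ≤ 100 * cr q l) (d3 : cr s m ≤ cr u m)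
    (hK : 3000 * B ^ 6 * cr u l ≤ N) : False := by
  obtain ⟨p1, p2, p3, p4, p5⟩ := hT.pos
  obtain ⟨Y, hY⟩ : ∃ Y, Y = v + l + m := ⟨_, rfl⟩
  obtain ⟨c, hc⟩ : ∃ c, c = cr u l := ⟨_, rfl⟩
  obtain ⟨c', hc'⟩ : ∃ c', c' = cr u m := ⟨_, rfl⟩
  obtain ⟨ρ, hρ⟩ : ∃ ρ, ρ = cr l m := ⟨_, rfl⟩
  obtain ⟨D, hD⟩ : ∃ D, D = cr q l := ⟨_, rfl⟩
  obtain ⟨D', hD'⟩ : ∃ D', D' = cr s m := ⟨_, rfl⟩
  obtain ⟨W, hW⟩ : ∃ W, W = cr u Y := ⟨_, rfl⟩
  have hWA : W = cr u v + c + c' := by rw [hW, hY, cr_addr, cr_addr, hc, hc']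
  have hWN : W + D + D' = N := by
    rw [← hN, hWA, hc, hc', hD, hD']
    simp only [vol6]
  rw [← hc, ← hc'] at a1 a2
  rw [← hc, ← hρ] at b1 b2
  rw [← hc, ← hD] at d1 d2
  rw [← hD', ← hc'] at d3
  rw [← hc] at p2 hK
  rw [← hc'] at p3
  rw [← hD] at p4
  rw [← hD'] at p5
  have hB2 : 4 ≤ B ^ 2 := by nlinarith
  have hB4 : 16 ≤ B ^ 4 := by
    have : B ^ 4 = B ^ 2 * B ^ 2 := by ring
    rw [this]; nlinarith
  have hB6 : 4 * B ^ 4 ≤ B ^ 6 := by
    have : B ^ 6 = B ^ 2 * B ^ 4 := by ring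
    rw [this]; nlinarith
  have hNc : 192000 * c ≤ N := by
    have : 64 * c ≤ B ^ 6 * c := mul_le_mul_of_nonneg_right (by linarith) p2.le
    linarith
  have hWc : 1000 * c ≤ W := by linarith
  -- the lines of `u`
  have hQY : c * cr q Y = D * W := by
    have := cr_plucker u q l Y
    rw [uq, zero_mul] at this
    rw [hc, hD, hW]
    linarith
  have hQM : c * cr q m = D * c' := by
    have := cr_plucker u q l m
    rw [uq, zero_mul] at this
    rw [hc, hD, hc']
    linarith
  have hSY : c' * cr s Y = D' * W := by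
    have := cr_plucker u s m Y
    rw [us, zero_mul] at this
    rw [hc', hD', hW]
    linarith
  have hSL : c' * cr s l = D' * c := by
    have := cr_plucker u s m l
    rw [us, zero_mul] at this
    rw [hc', hD', hc]
    linarith
  have hqs : cr q s = 0 := by
    have h1 := cr_plucker u q l s
    rw [uq, us, zero_mul, mul_zero, sub_zero, ← hc] at h1
    exact (mul_eq_zero.1 h1).resolve_left p2.ne'
  have hpl : c * cr Y m + c' * cr l Y = W * ρ := by
    have := cr_plucker u Y l m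
    rw [hc, hc', hW, hρ, ← this, cr_swap' l Y]
    ring
  -- the sequence
  obtain ⟨S, hS⟩ : ∃ S, S = 2 * c + c' := ⟨_, rfl⟩
  obtain ⟨A0, hA0⟩ : ∃ A0, A0 = 2 * cr l Y - cr Y m + D - ρ + cr q m - cr q Y := ⟨_, rfl⟩
  obtain ⟨E, hE⟩ : ∃ E, E = N / (8 * B ^ 2) := ⟨_, rfl⟩
  have hS0 : 0 < S := by linarith
  have hE1 : 8 * B ^ 2 * E ≤ N := by
    rw [hE]; exact Int.mul_ediv_self_le (by positivity)
  obtain ⟨t0, ht0⟩ : ∃ t0 : ℤ, A0 - S * t0 ≤ E ∧ E - S < A0 - S * t0 := by
    refine ⟨(A0 - E + S - 1) / S, ?_, ?_⟩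
    · have h1 := Int.emod_nonneg (A0 - E + S - 1) hS0.ne'
      have h2 := Int.emod_lt_of_pos (A0 - E + S - 1) hS0
      have h3 := Int.emod_add_mul_ediv (A0 - E + S - 1) S
      linarith
    · have h1 := Int.emod_nonneg (A0 - E + S - 1) hS0.ne'
      have h2 := Int.emod_lt_of_pos (A0 - E + S - 1) hS0
      have h3 := Int.emod_add_mul_ediv (A0 - E + S - 1) S
      linarith
  obtain ⟨n, hn⟩ : ∃ n : ℕ, (n : ℤ) = 32 * B ^ 4 + 1 :=
    ⟨(32 * B ^ 4 + 1).toNat, Int.toNat_of_nonneg (by positivity)⟩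
  have hnS : n * S ≤ E := by
    rw [hE, Int.le_ediv_iff_mul_le (by positivity), hn]
    have h1 : S ≤ 4 * c := by linarith
    have h2 : (32 * B ^ 4 + 1) * S * (8 * B ^ 2) ≤ (32 * B ^ 4 + 1) * (4 * c) * (8 * B ^ 2) :=
      mul_le_mul_of_nonneg_right (mul_le_mul_of_nonneg_left h1 (by positivity)) (by positivity)
    have h3 : (32 * B ^ 4 + 1) * (4 * c) * (8 * B ^ 2) = 1024 * (B ^ 6 * c) + 32 * (B ^ 2 * c) := by
      ring
    have h4 : B ^ 2 * c ≤ B ^ 6 * c := by
      refine mul_le_mul_of_nonneg_right ?_ p2.le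
      have : B ^ 6 = B ^ 4 * B ^ 2 := by ring
      rw [this]; nlinarith
    have h5 : 0 < B ^ 6 * c := mul_pos (by positivity) p2
    linarith
  -- the values
  obtain ⟨F, hF⟩ : ∃ F : ℕ → ℤ, F = fun k : ℕ => cr Y m + (t0 + (k : ℤ)) * c' + ρ - cr q m := ⟨_, rfl⟩
  obtain ⟨G, hG⟩ : ∃ G, G = cr s Y + cr s l := ⟨_, rfl⟩
  have hG1 : c' * G = D' * (W + c) := by rw [hG, mul_add, hSY, hSL]; ring
  have hG0 : 0 < G := by
    have : 0 < c' * G := by rw [hG1]; exact mul_pos p5 (by linarith)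
    exact pos_of_mul_pos_right this p3.le
  have hG2 : G ≤ 2 * N := by
    by_contra hcon
    push Not at hcon
    have h1 : 0 < c' * (G - 2 * N) := mul_pos p3 (by linarith)
    have h2 : 0 ≤ (c' - D') * (W + c) := mul_nonneg (by linarith) (by linarith)
    have h3 : 0 < c' * (2 * N - W - c) := mul_pos p3 (by linarith)
    have e : c' * (G - 2 * N) = -((c' - D') * (W + c)) - c' * (2 * N - W - c) := by
      linear_combination hG1
    linarith
  have key : ∀ k < n, 0 < F k ∧ F k ≤ W ∧ N ≤ 4 * B ^ 2 * Int.gcd (F k) G := by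
    intro k hk
    obtain ⟨t, ht⟩ : ∃ t : ℤ, t = t0 + k := ⟨_, rfl⟩
    obtain ⟨x, hx⟩ : ∃ x, x = Y + t • u := ⟨_, rfl⟩
    have hlx : cr l x = cr l Y - t * c := by
      rw [hx, hc]
      simp only [cr, Prod.fst_add, Prod.snd_add, Prod.smul_fst, Prod.smul_snd, smul_eq_mul]
      ring
    have hxm : cr x m = cr Y m + t * c' := by
      rw [hx, hc']
      simp only [cr, Prod.fst_add, Prod.snd_add, Prod.smul_fst, Prod.smul_snd, smul_eq_mul]
      ring
    have hux : cr u x = W := by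
      rw [hx, hW]
      simp only [cr, Prod.fst_add, Prod.snd_add, Prod.smul_fst, Prod.smul_snd, smul_eq_mul]
      ring
    have hqx : cr q x = cr q Y := by
      have : cr q x = cr q Y - t * cr u q := by
        rw [hx]
        simp only [cr, Prod.fst_add, Prod.snd_add, Prod.smul_fst, Prod.smul_snd, smul_eq_mul]
        ring
      rw [this, uq]; ring
    have hsx : cr s x = cr s Y := by
      have : cr s x = cr s Y - t * cr u s := by
        rw [hx]
        simp only [cr, Prod.fst_add, Prod.snd_add, Prod.smul_fst, Prod.smul_snd, smul_eq_mul]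
        ring
      rw [this, us]; ring
    obtain ⟨a, ha⟩ : ∃ a, a = 2 * cr l x - cr x m + D - ρ + cr q m - cr q x := ⟨_, rfl⟩
    have haA : a = A0 - S * t := by
      rw [ha, hA0, hlx, hxm, hqx, hS]; ring
    have hk0 : (0 : ℤ) ≤ k := Int.natCast_nonneg k
    have hkn : (k : ℤ) + 1 ≤ n := by exact_mod_cast hk
    have hkS : 0 ≤ S * k := mul_nonneg hS0.le hk0
    have hknS : S * (k + 1) ≤ S * n := mul_le_mul_of_nonneg_left hkn hS0.le
    have haE : a ≤ E := by
      rw [haA, ht]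
      linarith [ht0.1]
    have ha0 : 0 < a := by
      rw [haA, ht]
      linarith [ht0.2]
    have haN : 8 * B ^ 2 * a ≤ N :=
      (mul_le_mul_of_nonneg_left haE (by positivity)).trans hE1
    have ha32 : 32 * a ≤ N := by
      have : 4 * a ≤ B ^ 2 * a := mul_le_mul_of_nonneg_right hB2 ha0.le
      linarith
    obtain ⟨g1, g2, g3, g4, g5, g6⟩ := d2_num (c := c) (c' := c') (ρ := ρ) (D := D) (W := W)
      (μ := cr l x) (ν := cr x m) (Q := cr q x) (M := cr q m) (a := a) (N := N) p2 a1 a2 b1 b2 d1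
      d2 hWc (by linarith) (by rw [hlx, hxm]; linear_combination hpl) (by rw [hqx]; exact hQY) hQM
      ha ha0 ha32
    have hFk : F k = cr x m + ρ - cr q m := by
      rw [hF, hxm, ht]
    rw [hFk]
    refine ⟨g4, g6, ?_⟩
    -- the exit at `x` and its centre
    have hC := hT.okc (by rw [← hρ]; linarith)
    have hVC : volC (u, v + l + m, l, q, m, s) = N := by
      rw [← hN]
      simp only [volC, vol6, cr, Prod.fst_add, Prod.snd_add]
      ring
    rw [← hY] at hC hVC
    have hC1 : OKC O (u, x, l, q, m, s) := by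
      refine hC.basis ?_ (by rw [hux]; linarith)
      rw [hx]
      exact lat_add_left u Y t
    have hVC1 : volC (u, x, l, q, m, s) = N := by
      rw [← hVC]
      simp only [volC]
      rw [hux, ← hW]
    obtain ⟨k1, k2, k3⟩ := hC1.exitP hVC1 (by rw [← hρ]; linarith) g1 g2 (by rw [hux]; exact g3)
    obtain ⟨z, hz⟩ : ∃ z, z = q - x - l := ⟨_, rfl⟩
    have e1 : cr z (-m) = cr x m + ρ - cr q m := by
      rw [hz, hρ]
      simp only [cr, Prod.fst_sub, Prod.snd_sub, Prod.fst_neg, Prod.snd_neg]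
      ring
    have e2 : cr z x = cr q x - cr l x := by
      rw [hz]
      simp only [cr, Prod.fst_sub, Prod.snd_sub]
      ring
    have e3 : cr z (-s) = -G := by
      have h1 : cr z (-s) = -(cr q s) - cr s x - cr s l := by
        rw [hz]
        simp only [cr, Prod.fst_sub, Prod.snd_sub, Prod.fst_neg, Prod.snd_neg]
        ring
      rw [h1, hqs, hsx, hG]; ring
    obtain ⟨x', r1, r2, r3⟩ := k1.recenter (i := -1) (j := -1) (U' := z)
      (isCoprime_one_left.neg_neg) (by rw [hz]; module)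
    have hT' := r3.center (by rw [e1]; exact g4) (by rw [e2]; exact g5)
      (by rw [r2, e1, e2, k3, ← hD]; linarith)
    have hN' : vol6 (z, x' - -m - x, -m, -s, x, u - l) = N := by
      rw [← k2]
      simp only [vol6, volC]
      rw [← r2]
      simp only [cr, Prod.fst_sub, Prod.snd_sub]
      ring
    have hz4 : cr z (x' - -m - x) = a := by
      have h1 : cr z (x' - -m - x) = cr z x' - cr z (-m) - cr z x := by
        simp only [cr, Prod.fst_sub, Prod.snd_sub]
        ring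
      rw [h1, r2, e1, e2, k3, ha, ← hD]
      ring
    have hcon := (hNR.t1 hB hT' hN' (by rw [hz4]; exact haN)).1
    unfold ct at hcon
    rw [e1, e3, Int.gcd_neg] at hcon
    exact hcon
  have hW0 : 0 < W := by linarith
  have hfin := card_gcd (n := n) (G := G) (E1 := 4 * B ^ 2) (E2 := 8 * B ^ 2) F hG0 (by positivity)
    (by positivity) (fun k hk => (key k hk).1) (by
      intro j hj k hk hjk
      rw [hF] at hjk
      simp only at hjk
      have : ((j : ℤ) - k) * c' = 0 := by linarith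
      have := (mul_eq_zero.1 this).resolve_right p3.ne'
      omega) (fun k hk => by
      obtain ⟨h1, h2, h3⟩ := key k hk
      linarith) (fun k hk => by
      obtain ⟨h1, h2, h3⟩ := key k hk
      linarith)
  rw [hn] at hfin
  have : 4 * B ^ 2 * (8 * B ^ 2) = 32 * B ^ 4 := by ring
  linarith

/-- **double 2** (helper58): a class without roomy trees has no tree with parallel first rows of
levels `c`, `c'` (the contents), `a ≈ 2 c`, `a' ≈ 2 c'` and `|l × m| ≈ c ≈ c'`. -/
theorem double2 {T : ℤ} (hNR : NoRoom O N B) (hB : 2 ≤ B) (hT : Has6 O (u, v, l, q, m, s))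
    (hN : vol6 (u, v, l, q, m, s) = N) (uq : cr u q = 0) (us : cr u s = 0) (hT1 : 1000 ≤ T)
    (c1 : cr u m ≤ cr u l) (c2 : (T - 2) * cr u l ≤ T * cr u m)
    (r1 : |cr l m| ≤ cr u l) (r2 : (T - 2) * cr u l ≤ T * |cr l m|)
    (z1 : cr q l ≤ cr u l) (z2 : (T - 6) * cr u l ≤ T * cr q l)
    (w1 : cr s m ≤ cr u m) (w2 : (T - 6) * cr u m ≤ T * cr s m)
    (hK : 3000 * B ^ 6 * cr u l ≤ N) : False := by
  obtain ⟨p1, p2, p3, p4, p5⟩ := hT.pos
  have aux : ∀ a b : ℤ, 0 < a → (T - 6) * a ≤ T * b → 994 * a ≤ 1000 * b := by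
    intro a b ha h
    by_contra hcon
    push Not at hcon
    have h1 : 0 < T * (994 * a - 1000 * b) := mul_pos (by linarith) (by linarith)
    have h2 : 0 ≤ (T - 1000) * a := mul_nonneg (by linarith) ha.le
    linarith
  have e1 : 994 * cr u l ≤ 1000 * cr u m := aux _ _ p2 (by linarith)
  have e2 : 994 * cr u l ≤ 1000 * |cr l m| := aux _ _ p2 (by linarith)
  have e3 := aux _ _ p2 z2
  have e4 := aux _ _ p3 w2
  rcases le_total 0 (cr l m) with h | h
  · rw [abs_of_nonneg h] at r1 e2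
    exact double2_pos hNR hB hT hN uq us (by linarith) (by linarith) (by linarith) (by linarith)
      z1 (by linarith) w1 hK
  · rw [abs_of_nonpos h] at r1 e2
    have f1 : cr (-u) (-m) = cr u m := by rw [cr_negl, cr_negr, neg_neg]
    have f2 : cr (-u) (-l) = cr u l := by rw [cr_negl, cr_negr, neg_neg]
    have f3 : cr (-m) (-l) = -cr l m := by rw [cr_negl, cr_negr, neg_neg, cr_swap']
    have f4 : cr (-s) (-m) = cr s m := by rw [cr_negl, cr_negr, neg_neg]
    have f5 : cr (-q) (-l) = cr q l := by rw [cr_negl, cr_negr, neg_neg]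
    have h6 : 0 ≤ B ^ 6 * (cr u l - cr u m) := mul_nonneg (by positivity) (by linarith)
    refine double2_pos hNR hB hT.swap (vol6_swap.trans hN)
      (by rw [cr_negl, cr_negr, neg_neg, us]) (by rw [cr_negl, cr_negr, neg_neg, uq])
      ?_ ?_ ?_ ?_ ?_ ?_ ?_ ?_
    · rw [f1, f2]; linarith
    · rw [f1, f2]; linarith
    · rw [f1, f3]; linarith
    · rw [f1, f3]; linarith
    · rw [f1, f4]; exact w1
    · rw [f1, f4]; linarith
    · rw [f2, f5]; exact z1
    · rw [f1]; linarith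

end Pool.Agent.H4G.Six
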