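import Pool.Agent.H4G.Six.NR.Frame
import Pool.Agent.H4G.Six.NR.Double2
import Pool.Agent.H4G.Six.NR.CaseIA

/-!
# Theorem NR, case (4a) I (page NR_h58, helper41's split; typed by helper5)

Both tori are small against `N`, and every pair of slits `l`, `m` of the tree satisfies
`W |l × m| ≥ max (u × l, u × m) (W - 3 (u × l + u × m))`. Then both tori are double.
-/

set_option autoImplicit false

namespace Pool.Agent.H4G.Six.NR

open Pool.Agent.H4G

variable {X : Type} {O : PO X} {N B T c c' r : ℤ} {U x u v l q m s z l1 q1 m1 s1 : Z2}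

theorem cr_add_l (a b w : Z2) : cr (a + b) w = cr a w + cr b w := by
  simp only [cr, Prod.fst_add, Prod.snd_add]; ring

theorem cr_add_r (a b w : Z2) : cr w (a + b) = cr w a + cr w b := by
  simp only [cr, Prod.fst_add, Prod.snd_add]; ring

theorem cr_smul_l (k : ℤ) (a w : Z2) : cr (k • a) w = k * cr a w := by
  simp only [cr, Prod.smul_fst, Prod.smul_snd, smul_eq_mul]; ring

theorem cr_smul_r (k : ℤ) (a w : Z2) : cr w (k • a) = k * cr w a := by
  simp only [cr, Prod.smul_fst, Prod.smul_snd, smul_eq_mul]; ring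

theorem cr_self0 (a : Z2) : cr a a = 0 := by simp only [cr]; ring

theorem cr_anti (a b : Z2) : cr a b = -cr b a := by simp only [cr]; ring

/-- the basis `e, p` of `⟨l, u + q⟩` with `p ∥ u` and `u × e` the content -/
theorem exists_base (u q : Z2) (h : 0 < cr u l) :
    ∃ e q1 : Z2, ∃ i j : ℤ, IsCoprime i j ∧ e = i • l + j • (u + q) ∧
      lat e (u + q1) = lat l (u + q) ∧ cr u e = ct u l q ∧ cr u q1 = 0 ∧
      cr q1 e = cr u l + cr q l - ct u l q := by
  have hg : 0 < ct u l q := ct_pos h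
  obtain ⟨x1, hx⟩ : ct u l q ∣ cr u l := ct_dvd_left
  obtain ⟨y1, hy⟩ : ct u l q ∣ cr u q := ct_dvd_right
  have hb : ct u l q = cr u l * Int.gcdA (cr u l) (cr u q) +
      cr u q * Int.gcdB (cr u l) (cr u q) := Int.gcd_eq_gcd_ab _ _
  obtain ⟨i, hi⟩ : ∃ i, i = Int.gcdA (cr u l) (cr u q) := ⟨_, rfl⟩
  obtain ⟨j, hj⟩ : ∃ j, j = Int.gcdB (cr u l) (cr u q) := ⟨_, rfl⟩
  rw [← hi, ← hj] at hb
  have h1 : x1 * i + y1 * j = 1 := by
    have h2 : ct u l q * (x1 * i + y1 * j) = ct u l q * 1 := by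
      rw [mul_one]
      calc ct u l q * (x1 * i + y1 * j) = (ct u l q * x1) * i + (ct u l q * y1) * j := by ring
        _ = cr u l * i + cr u q * j := by rw [← hx, ← hy]
        _ = ct u l q := hb.symm
    exact mul_left_cancel₀ hg.ne' h2
  have hq : cr u (u + q) = cr u q := by rw [cr_add_r, cr_self0, zero_add]
  refine ⟨i • l + j • (u + q), (-y1) • l + x1 • (u + q) - u, i, j, ⟨x1, y1, by linarith⟩, rfl,
    ?_, ?_, ?_, ?_⟩
  · have e : u + ((-y1) • l + x1 • (u + q) - u) = (-y1) • l + x1 • (u + q) := by abel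
    rw [e]
    exact closure_pair_eq rfl rfl (Or.inl (by linarith))
  · rw [cr_add_r, cr_smul_r, cr_smul_r, hq]
    linarith
  · have e : cr u ((-y1) • l + x1 • (u + q) - u) = -y1 * cr u l + x1 * cr u q := by
      have e1 : (-y1) • l + x1 • (u + q) - u = ((-y1) • l + x1 • (u + q)) + (-1 : ℤ) • u := by
        module
      rw [e1, cr_add_r, cr_smul_r, cr_self0, cr_add_r, cr_smul_r, cr_smul_r, hq]
      ring
    rw [e, hx, hy]
    ring
  · have e1 : cr ((-y1) • l + x1 • (u + q) - u) (i • l + j • (u + q)) =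
        (x1 * i + y1 * j) * (cr u l + cr q l) - (i * cr u l + j * cr u q) := by
      simp only [cr, Prod.fst_add, Prod.snd_add, Prod.fst_sub, Prod.snd_sub, Prod.smul_fst,
        Prod.smul_snd, smul_eq_mul]
      ring
    rw [e1, h1]
    linarith

/-- the level vector `α e + k p` as a slit -/
theorem level_slit (h : cr u q = 0) {al k : ℤ} (hak : IsCoprime al k) :
    ∃ q1, lat (al • l + k • (u + q)) (u + q1) = lat l (u + q) ∧
      cr u (al • l + k • (u + q)) = al * cr u l ∧
      cr q1 (al • l + k • (u + q)) = cr u l + cr q l - al * cr u l := by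
  obtain ⟨q1, k1, k2⟩ := exists_slit (U := u) (l := l) (q := q) hak rfl
  have e : cr u (al • l + k • (u + q)) = al * cr u l := by
    rw [cr_add_r, cr_smul_r, cr_smul_r, cr_add_r, cr_self0, h]; ring
  refine ⟨q1, k1, e, ?_⟩
  rw [k2, e]

/-- CASE (4a) I -/
theorem caseI (h : Has6 O (u, v, l, q, m, s)) (hN : vol6 (u, v, l, q, m, s) = N) (hB : 2 ≤ B)
    (hT : 100 ≤ T) (hcc : ct u m s ≤ ct u l q) (h6 : 6 * T * ct u l q ≤ N)
    (ha : 800 * B ^ 2 * (cr u l + cr q l) ≤ N) (ha' : 800 * B ^ 2 * (cr u m + cr s m) ≤ N)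
    (hS : ∀ l1 q1 m1 s1 : Z2, Has6 O (u, v, l1, q1, m1, s1) →
      vol6 (u, v, l1, q1, m1, s1) = N → ct u l1 q1 = ct u l q → ct u m1 s1 = ct u m s →
      24 * B ^ 2 * (cr u l1 + cr u m1) ≤ N →
      max (cr u l1) (cr u m1) *
        (cr u v + cr u l1 + cr u m1 - 3 * (cr u l1 + cr u m1)) ≤
        (cr u v + cr u l1 + cr u m1) * |cr l1 m1|) :
    ∃ l1 q1 m1 s1 : Z2, Has6 O (u, v, l1, q1, m1, s1) ∧ vol6 (u, v, l1, q1, m1, s1) = N ∧
      lat l1 (u + q1) = lat l (u + q) ∧ lat m1 (u + s1) = lat m (u + s) ∧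
      cr u l1 = ct u l q ∧ cr u m1 = ct u m s ∧ cr u q1 = 0 ∧ cr u s1 = 0 ∧
      |cr l1 m1| ≤ cr u m1 ∧ (T - 2) * cr u l1 ≤ T * |cr l1 m1| ∧
      (T - 2) * cr u l1 ≤ T * cr u m1 ∧ cr q1 l1 ≤ cr u l1 ∧ cr s1 m1 ≤ cr u m1 ∧
      (T - 4) * cr u l1 ≤ T * cr q1 l1 ∧ (T - 4) * cr u m1 ≤ T * cr s1 m1 := by
  obtain ⟨p1, p2, p3, p4, p5⟩ := h.pos
  obtain ⟨e, q0, i0, j0, hij, -, hLe, hce, hq0, hqe⟩ := exists_base u q p2
  obtain ⟨f, s0, i1, j1, hij', -, hMf, hcf, hs0, hsf⟩ := exists_base u s p3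
  have hc : 0 < ct u l q := ct_pos p2
  have hc' : 0 < ct u m s := ct_pos p3
  have hcle : ct u l q ≤ cr u l := ct_le p2
  have hcle' : ct u m s ≤ cr u m := ct_le p3
  have hbase : Has6 O (u, v, e, q0, f, s0) :=
    h.change (by rw [hce]; exact hc) (by rw [hqe]; linarith) hLe (by rw [hcf]; exact hc')
      (by rw [hsf]; linarith) hMf
  -- the numbers
  obtain ⟨c, hcdef⟩ : ∃ c, c = ct u l q := ⟨_, rfl⟩
  obtain ⟨c', hcdef'⟩ : ∃ c', c' = ct u m s := ⟨_, rfl⟩
  obtain ⟨a, hadef⟩ : ∃ a, a = cr u l + cr q l := ⟨_, rfl⟩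
  obtain ⟨a', hadef'⟩ : ∃ a', a' = cr u m + cr s m := ⟨_, rfl⟩
  have hac : c < a := by rw [hcdef, hadef]; linarith
  have hac' : c' < a' := by rw [hcdef', hadef']; linarith
  rw [← hcdef] at hcc h6 hS hce hqe
  rw [← hcdef'] at hcc hS hcf hsf
  rw [← hadef] at ha hqe
  rw [← hadef'] at ha' hsf
  rw [← hcdef] at hc
  rw [← hcdef'] at hc'
  have hvol : cr u v + a + a' = N := by
    rw [← hN, hadef, hadef']
    simp only [vol6]
    ring
  -- all window pairs
  have hB4 : 4 ≤ B ^ 2 := by nlinarith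
  have hall : ∀ al k al' k' : ℤ, 1 ≤ al → 1 ≤ al' → al * c < a → al' * c' < a' →
      IsCoprime al k → IsCoprime al' k' →
      ∃ q1 s1 : Z2, Has6 O (u, v, al • e + k • (u + q0), q1, al' • f + k' • (u + s0), s1) ∧
        cr u (al • e + k • (u + q0)) = al * c ∧ cr u (al' • f + k' • (u + s0)) = al' * c' ∧
        max (al * c) (al' * c') * (cr u v + al * c + al' * c' - 3 * (al * c + al' * c')) ≤
          (cr u v + al * c + al' * c') *
            |cr (al • e + k • (u + q0)) (al' • f + k' • (u + s0))| := by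
    intro al k al' k' ha1 ha2 ha3 ha4 hk hk'
    obtain ⟨q1, b1, b2, b3⟩ := level_slit (u := u) (l := e) hq0 hk
    obtain ⟨s1, b4, b5, b6⟩ := level_slit (u := u) (l := f) hs0 hk'
    rw [hce] at b2 b3
    rw [hcf] at b5 b6
    rw [hqe] at b3
    rw [hsf] at b6
    have hp1 : 0 < al * c := mul_pos (by linarith) hc
    have hp2 : 0 < al' * c' := mul_pos (by linarith) hc'
    have hH : Has6 O (u, v, al • e + k • (u + q0), q1, al' • f + k' • (u + s0), s1) :=
      hbase.change (by rw [b2]; exact hp1) (by rw [b3]; linarith) b1 (by rw [b5]; exact hp2)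
        (by rw [b6]; linarith) b4
    refine ⟨q1, s1, hH, b2, b5, ?_⟩
    have hv : vol6 (u, v, al • e + k • (u + q0), q1, al' • f + k' • (u + s0), s1) = N := by
      simp only [vol6]
      rw [b2, b3, b5, b6]
      linarith
    have hc1 : ct u (al • e + k • (u + q0)) q1 = c := by
      rw [ct_congr (b1.trans hLe), hcdef]
    have hc2 : ct u (al' • f + k' • (u + s0)) s1 = c' := by
      rw [ct_congr (b4.trans hMf), hcdef']
    have := hS _ _ _ _ hH hv hc1 hc2 (by
      rw [b2, b5]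
      have : 24 * B ^ 2 * (al * c + al' * c') ≤ 24 * B ^ 2 * (a + a') :=
        mul_le_mul_of_nonneg_left (by linarith) (by positivity)
      nlinarith)
    rwa [b2, b5] at this
  -- the products
  obtain ⟨E, hE⟩ : ∃ E, E = cr e f := ⟨_, rfl⟩
  obtain ⟨P, hPd⟩ : ∃ P, P = cr (u + q0) f := ⟨_, rfl⟩
  obtain ⟨P', hPd'⟩ : ∃ P', P' = -cr e (u + s0) := ⟨_, rfl⟩
  have hpp : cr (u + q0) (u + s0) = 0 := by
    -- both are parallel to `u`
    have h1 : cr u (u + q0) = 0 := by rw [cr_add_r, cr_self0, hq0, add_zero]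
    have h2 : cr u (u + s0) = 0 := by rw [cr_add_r, cr_self0, hs0, add_zero]
    have h3 : cr u e * cr (u + q0) (u + s0) = cr u (u + q0) * cr e (u + s0) -
        cr u (u + s0) * cr e (u + q0) := by
      simp only [cr, Prod.fst_add, Prod.snd_add]; ring
    rw [h1, h2, zero_mul, zero_mul, sub_zero, hce] at h3
    rcases mul_eq_zero.1 h3 with h4 | h4
    · exact absurd h4 hc.ne'
    · exact h4
  have hprod : ∀ al k al' k' : ℤ, cr (al • e + k • (u + q0)) (al' • f + k' • (u + s0)) =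
      al' * (al * E + k * P) - al * k' * P' := by
    intro al k al' k'
    rw [cr_add_l, cr_smul_l, cr_smul_l, cr_add_r, cr_add_r, cr_smul_r, cr_smul_r, cr_smul_r,
      cr_smul_r, hpp, hE, hPd, hPd']
    ring
  have hpe : cr (u + q0) e = a := by rw [cr_add_l, hce, hqe]; ring
  have hpf : cr (u + s0) f = a' := by rw [cr_add_l, hcf, hsf]; ring
  have hPc : P * c = a * c' := by
    have h1 : cr u (u + q0) = 0 := by rw [cr_add_r, cr_self0, hq0, add_zero]
    have h3 : cr (u + q0) f * cr u e = cr (u + q0) e * cr u f + cr u (u + q0) * cr e f := by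
      simp only [cr, Prod.fst_add, Prod.snd_add]; ring
    rw [hPd, ← hce, h3, hpe, h1, hcf]
    ring
  have hPc' : P' * c' = a' * c := by
    have h1 : cr u (u + s0) = 0 := by rw [cr_add_r, cr_self0, hs0, add_zero]
    have h3 : -cr e (u + s0) * cr u f = cr (u + s0) f * cr u e - cr u (u + s0) * cr e f := by
      simp only [cr, Prod.fst_add, Prod.snd_add]; ring
    rw [hPd', ← hcf, h3, hpf, h1, hce]
    ring
  -- the error terms
  have hA : N ≤ 2 * cr u v := by nlinarith
  have hNpos : 0 < N := by nlinarith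
  have hAc : 3 * T * c ≤ cr u v := by linarith
  have err : ∀ s s' M R : ℤ, 0 < s → 0 < s' → s < a → s' < a' → 0 ≤ M →
      M * (cr u v + s + s' - 3 * (s + s')) ≤ (cr u v + s + s') * R → 94 * M ≤ 100 * R := by
    intro s s' M R h1 h2 h3 h4 h5 h6
    have h7 : 300 * (s + s') ≤ 6 * (cr u v + s + s') := by nlinarith
    have h8 : 0 < cr u v + s + s' := by linarith
    have h9 : (cr u v + s + s') * (94 * M) ≤ (cr u v + s + s') * (100 * R) := by
      nlinarith
    exact le_of_mul_le_mul_left h9 h8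
  have hmain := caseI_core (E := E) (P := P) (P' := P') hc' hcc hac hac' hPc hPc' hT ?_ ?_ ?_
  · obtain ⟨k, g1, g2, g3, g4, g5, g6, g7⟩ := hmain
    obtain ⟨q1, b1, b2, b3⟩ := level_slit (u := u) (l := e) (q := q0) hq0
      (al := 1) (k := k) isCoprime_one_left
    have hLk : lat (e + k • (u + q0)) (u + q0) = lat e (u + q0) := by
      refine closure_pair_eq (α := 1) (β := k) (γ := 0) (δ := 1) ?_ ?_ (Or.inl (by ring))
      · module
      · module
    have hl1 : cr u (e + k • (u + q0)) = c := by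
      rw [cr_add_r, cr_smul_r, cr_add_r, cr_self0, hq0, hce]; ring
    have hq1 : cr q0 (e + k • (u + q0)) = a - c := by
      have e1 : cr q0 (u + q0) = 0 := by rw [cr_add_r, cr_self0, cr_anti, hq0]; ring
      rw [cr_add_r, cr_smul_r, e1, hqe]; ring
    have hH : Has6 O (u, v, e + k • (u + q0), q0, f, s0) :=
      hbase.change (by rw [hl1]; exact hc) (by rw [hq1]; linarith) hLk (by rw [hcf]; exact hc')
        (by rw [hsf]; linarith) rfl
    have hef : cr (e + k • (u + q0)) f = E + k * P := by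
      rw [cr_add_l, cr_smul_l, hE, hPd]
    refine ⟨e + k • (u + q0), q0, f, s0, hH, ?_, hLk.trans hLe, hMf, hl1.trans hcdef,
      hcf.trans hcdef', hq0, hs0, ?_, ?_, ?_, ?_, ?_, ?_, ?_⟩
    · simp only [vol6]
      rw [hl1, hq1, hcf, hsf]
      linarith
    · rw [hef, hcf]; exact g1
    · rw [hef, hl1]; exact g2
    · rw [hl1, hcf]; exact g5
    · rw [hl1, hq1]; linarith
    · rw [hcf, hsf]; linarith
    · rw [hl1, hq1]; linarith
    · rw [hcf, hsf]; linarith
  · intro al k h1 h2 h3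
    obtain ⟨q1, s1, -, -, -, h4⟩ := hall al k 1 0 h1 le_rfl h2 (by linarith) h3
      isCoprime_one_left
    rw [hprod] at h4
    have h5 : al * c ≤ max (al * c) (1 * c') := le_max_left _ _
    have h6 := err (al * c) (1 * c') (max (al * c) (1 * c')) _ (mul_pos (by linarith) hc)
      (by linarith) h2 (by linarith) (by
        have : 0 < al * c := mul_pos (by linarith) hc
        linarith) h4
    have e1 : 1 * (al * E + k * P) - al * 0 * P' = al * E + k * P := by ring
    rw [e1] at h6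
    linarith
  · intro al k k' h1 h2 h3
    obtain ⟨q1, s1, -, -, -, h4⟩ := hall 1 k al (-k') le_rfl h1 (by linarith) h2
      isCoprime_one_left h3.neg_right
    rw [hprod] at h4
    have h5 : al * c' ≤ max (1 * c) (al * c') := le_max_right _ _
    have h6 := err (1 * c) (al * c') (max (1 * c) (al * c')) _ (by linarith)
      (mul_pos (by linarith) hc') (by linarith) h2 (by
        have : 0 < al * c' := mul_pos (by linarith) hc'
        linarith) h4
    have e1 : al * (1 * E + k * P) - 1 * -k' * P' = al * (E + k * P) + k' * P' := by ring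
    rw [e1] at h6
    linarith
  · intro k k'
    obtain ⟨q1, s1, -, -, -, h4⟩ := hall 1 k 1 (-k') le_rfl le_rfl (by linarith) (by linarith)
      isCoprime_one_left isCoprime_one_left
    rw [hprod] at h4
    have e1 : 1 * (1 * E + k * P) - 1 * -k' * P' = E + k * P + k' * P' := by ring
    have e2 : max (1 * c) (1 * c') = c := by
      rw [one_mul, one_mul]; exact max_eq_left hcc
    rw [e1, e2, one_mul, one_mul] at h4
    have h7 : 3 * T * (c + c') ≤ 2 * (cr u v + c + c') := by nlinarith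
    have h8 : 0 < cr u v + c + c' := by linarith
    have h9 : (cr u v + c + c') * ((T - 2) * c) ≤
        (cr u v + c + c') * (T * |E + k * P + k' * P'|) := by
      nlinarith
    exact le_of_mul_le_mul_left h9 h8

/-- **(4a), both tori short**: contents and areas cannot all be small -/
theorem both_short_aux (hR : NoRoom O N B) (hB : 2 ≤ B) (h : Has6 O (u, v, l, q, m, s))
    (hN : vol6 (u, v, l, q, m, s) = N) (hcc : ct u m s ≤ ct u l q)
    (hc : 6000 * B ^ 6 * ct u l q ≤ N) (ha : 800 * B ^ 2 * (cr u l + cr q l) ≤ N)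
    (ha' : 800 * B ^ 2 * (cr u m + cr s m) ≤ N) : False := by
  obtain ⟨p1, p2, p3, p4, p5⟩ := h.pos
  have hc0 : 0 < ct u l q := ct_pos p2
  have hB6 : 64 ≤ B ^ 6 := by
    calc (64 : ℤ) = 2 ^ 6 := by norm_num
      _ ≤ B ^ 6 := pow_le_pow_left₀ (by norm_num) hB 6
  have hsm : 2 * (4 * B ^ 2) ^ 3 * ct u l q < N := by
    have e1 : 2 * (4 * B ^ 2) ^ 3 * ct u l q = 128 * (B ^ 6 * ct u l q) := by ring
    have e2 : 0 < B ^ 6 * ct u l q := mul_pos (by linarith) hc0
    rw [e1]
    linarith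
  obtain ⟨l1, q1, m1, s1, k1, k2, -, -, k5, k6, k7, k8, k9, k10, k11, k12, k13, k14, k15⟩ :=
    caseI (T := 1000) h hN hB (by norm_num) hcc (by
      have e2 : 64 * ct u l q ≤ B ^ 6 * ct u l q := mul_le_mul_of_nonneg_right hB6 hc0.le
      linarith) ha ha' (by
      intro l1 q1 m1 s1 j1 j2 j3 j4 j5
      have := hR.star hB j1 j2 j5 (by
        rw [j3]
        intro hcon
        linarith [hcon.1])
      linarith)
  rw [← k5] at hcc hc
  rw [← k6] at hcc
  have hlt : 0 < cr u l1 := k1.pos.2.1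
  have hlt' : 0 < cr u m1 := k1.pos.2.2.1
  exact double2 (T := 1000) hR hB k1 k2 k7 k8 (by norm_num) hcc k11 (k9.trans hcc) k10 k12
    (by linarith) k13 (by linarith) (by
      have e2 : 0 < B ^ 6 * cr u l1 := mul_pos (by linarith) hlt
      linarith)

/-- **(4a), both tori short** -/
theorem both_short (hR : NoRoom O N B) (hB : 2 ≤ B) (h : Has6 O (u, v, l, q, m, s))
    (hN : vol6 (u, v, l, q, m, s) = N) (hc : 6000 * B ^ 6 * ct u l q ≤ N)
    (hc' : 6000 * B ^ 6 * ct u m s ≤ N) (ha : 800 * B ^ 2 * (cr u l + cr q l) ≤ N)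
    (ha' : 800 * B ^ 2 * (cr u m + cr s m) ≤ N) : False := by
  rcases le_total (ct u m s) (ct u l q) with hle | hle
  · exact both_short_aux hR hB h hN hle hc ha ha'
  · have e1 : ∀ a b : Z2, cr (-a) (-b) = cr a b := fun a b => by
      simp only [cr, Prod.fst_neg, Prod.snd_neg]; ring
    refine both_short_aux hR hB h.swap (vol6_swap.trans hN) ?_ ?_ ?_ ?_
    · rw [ct_neg, ct_neg]; exact hle
    · rw [ct_neg]; exact hc'
    · rw [e1, e1]; exact ha'
    · rw [e1, e1]; exact ha

end Pool.Agent.H4G.Six.NR
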