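import Pool.Agent.H4G.Six.BMin

/-!
# No roomy trees: the definition (page NR of helper58, page STAGE2 of helper75)

`NoRoom O N B`: for every tree of `O` with `N` squares, `a < B (A + c')` and `a' < B (A + c)`, where
`A = u × v`, `a = u × l + q × l`, `a' = u × m + s × m` are the areas of the three tori and `c`, `c'`
are the contents of `u × L`, `u × M`.
-/

set_option autoImplicit false

namespace Pool.Agent.H4G.Six

open Pool.Agent.H4G

variable {X : Type} {O : PO X} {N B : ℤ} {u v l q m s : Z2}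

/-- no tree of `O` is roomy -/
def NoRoom (O : PO X) (N B : ℤ) : Prop := ∀ u v l q m s : Z2, Has6 O (u, v, l, q, m, s) →
  vol6 (u, v, l, q, m, s) = N →
  cr u l + cr q l < B * (cr u v + ct u m s) ∧ cr u m + cr s m < B * (cr u v + ct u l q)

theorem ct_neg (u l q : Z2) : ct (-u) (-l) (-q) = ct u l q := by
  unfold ct
  rw [cr_negl, cr_negr, neg_neg, cr_negl, cr_negr, neg_neg]

theorem NoRoom.at (h : NoRoom O N B) (hT : Has6 O (u, v, l, q, m, s))
    (hN : vol6 (u, v, l, q, m, s) = N) :
    cr u l + cr q l < B * (cr u v + ct u m s) ∧ cr u m + cr s m < B * (cr u v + ct u l q) :=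
  h _ _ _ _ _ _ hT hN

/-- the areas and the contents of a tree -/
theorem Has6.areas (hT : Has6 O (u, v, l, q, m, s)) (hN : vol6 (u, v, l, q, m, s) = N) :
    0 < cr u v ∧ 0 < ct u l q ∧ 0 < ct u m s ∧ ct u l q ≤ cr u l ∧ ct u m s ≤ cr u m ∧
      cr u l < cr u l + cr q l ∧ cr u m < cr u m + cr s m ∧
      cr u v + (cr u l + cr q l) + (cr u m + cr s m) = N := by
  obtain ⟨h1, h2, h3, h4, h5⟩ := hT.pos
  refine ⟨h1, ct_pos h2, ct_pos h3, ct_le h2, ct_le h3, by linarith, by linarith, ?_⟩
  rw [← hN]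
  simp only [vol6]
  ring

end Pool.Agent.H4G.Six
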