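import Pool.Agent.H4G.Six.NR.FourB

/-!
# No roomy trees, step (4c) (page MP_4f7c28_NR_h58 of helper58; typed by helper77)

`c > N / K`, `c' ≤ N / K^21` is impossible: the centres over `l_k = l + k (u + q)` with
`c N / K^9 W ≤ l_k × m < c A / W` have different values `V_k = y_k × m` and
`gcd (V_k, (z' - 1) W) > N / K^9`. So (4a) implies that all contents are `> N / K^21`.
-/

set_option autoImplicit false

namespace Pool.Agent.H4G.Six

open Pool.Agent.H4G

variable {X : Type} {O : PO X} {N B K : ℤ} {u v l q m s : Z2}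

/-- few values have a large common divisor with `G` -/
theorem few_gcd {n : ℕ} {F : ℕ → ℤ} {G N E : ℤ} (hG : 0 < G) (hGN : G ≤ N)
    (hF : ∀ k < n, 0 < F k ∧ F k ≤ N ∧ N < E * Int.gcd (F k) G)
    (hinj : ∀ j < n, ∀ k < n, F j = F k → j = k) : (n : ℤ) ≤ E.toNat * E.toNat := by
  classical
  have hg : ∀ k < n, ∃ x w : ℤ, F k = x * Int.gcd (F k) G ∧ G = w * Int.gcd (F k) G ∧
      x ∈ Finset.Icc 1 E ∧ w ∈ Finset.Icc 1 E := by
    intro k hk
    obtain ⟨h1, h2, h3⟩ := hF k hk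
    obtain ⟨x, hx⟩ := Int.gcd_dvd_left (F k) G
    obtain ⟨w, hw⟩ := Int.gcd_dvd_right (F k) G
    obtain ⟨g, hg⟩ : ∃ g : ℤ, g = (Int.gcd (F k) G : ℤ) := ⟨_, rfl⟩
    rw [← hg] at hx hw h3 ⊢
    have g0 : 0 < g := by
      rw [hg]
      exact_mod_cast Int.gcd_pos_of_ne_zero_left _ h1.ne'
    have x0 : 0 < x := by
      rw [hx] at h1
      exact (mul_pos_iff_of_pos_left g0).1 h1
    have w0 : 0 < w := by
      rw [hw] at hG
      exact (mul_pos_iff_of_pos_left g0).1 hG
    have x1 : x ≤ E := by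
      by_contra hcon
      push Not at hcon
      have : E * g < x * g := mul_lt_mul_of_pos_right hcon g0
      have : x * g = F k := by rw [hx]; ring
      linarith
    have w1 : w ≤ E := by
      by_contra hcon
      push Not at hcon
      have : E * g < w * g := mul_lt_mul_of_pos_right hcon g0
      have : w * g = G := by rw [hw]; ring
      linarith
    exact ⟨x, w, by rw [hx]; ring, by rw [hw]; ring, Finset.mem_Icc.2 ⟨by omega, x1⟩,
      Finset.mem_Icc.2 ⟨by omega, w1⟩⟩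
  choose! x w hx hw hx2 hw2 using hg
  have hcard : (Finset.range n).card ≤ (Finset.Icc (1 : ℤ) E ×ˢ Finset.Icc (1 : ℤ) E).card := by
    refine Finset.card_le_card_of_injOn (fun k => (x k, w k)) ?_ ?_
    · intro k hk
      have hk' : k < n := by simpa using hk
      exact Finset.mem_coe.2 (Finset.mem_product.2 ⟨hx2 k hk', hw2 k hk'⟩)
    · intro j hj k hk hjk
      have hj' : j < n := by simpa using hj
      have hk' : k < n := by simpa using hk
      have e1 : x j = x k := congrArg Prod.fst hjk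
      have e2 : w j = w k := congrArg Prod.snd hjk
      refine hinj j hj' k hk' ?_
      have e3 := hw j hj'
      have e4 := hw k hk'
      have w0 : 0 < w k := by
        have := (Finset.mem_Icc.1 (hw2 k hk')).1
        omega
      have e5 : (Int.gcd (F j) G : ℤ) = Int.gcd (F k) G := by
        have : w k * (Int.gcd (F j) G : ℤ) = w k * Int.gcd (F k) G := by
          rw [← e4, ← e2]
          exact e3.symm
        exact mul_left_cancel₀ w0.ne' this
      rw [hx j hj', hx k hk', e1, e5]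
  rw [Finset.card_range, Finset.card_product, Int.card_Icc] at hcard
  have e6 : (E + 1 - 1).toNat = E.toNat := by rw [add_sub_cancel_right]
  rw [e6] at hcard
  exact_mod_cast hcard

/-- the first term of a progression above `T` -/
theorem first_above {R P T : ℤ} (hP : 0 < P) : ∃ k : ℤ, T ≤ R + k * P ∧ R + (k - 1) * P < T := by
  have e1 := Int.emod_add_mul_ediv (R - T) P
  have e2 := Int.emod_nonneg (R - T) hP.ne'
  have e3 := Int.emod_lt_of_pos (R - T) hP
  refine ⟨-((R - T) / P), ?_, ?_⟩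
  · linarith
  · have : R + (-((R - T) / P) - 1) * P = R - P * ((R - T) / P) - P := by ring
    rw [this]
    linarith

/-- the range of `k` in (4c) -/
theorem fourc_num {A c c' a W P r0 k0 : ℤ} {n : ℕ} (hKB : 32 * B ^ 2 ≤ K) (hK1 : 1 ≤ K)
    (hN0 : 0 < N) (c0 : 0 < c) (c0' : 0 < c') (A0 : 0 < A) (W0 : 0 < W) (WN : W ≤ N)
    (a0 : 0 < a) (aN : a ≤ N) (relP : c * P = a * c') (P0 : 0 < P) (fat : N < 8 * B ^ 2 * A)
    (hc : N < K * c) (hc' : K ^ 21 * c' ≤ N) (hn : (n : ℤ) = K ^ 18 + 1)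
    (hk1 : c * N ≤ K ^ 9 * W * r0 + k0 * (K ^ 9 * W * P))
    (hk2 : K ^ 9 * W * r0 + (k0 - 1) * (K ^ 9 * W * P) < c * N) {j : ℕ} (hj : j < n) :
    c * N ≤ K ^ 9 * (W * (r0 + (k0 + j) * P)) ∧ W * (r0 + (k0 + j) * P) < c * A ∧
      0 < r0 + (k0 + j) * P := by
  have hK0 : 0 < K := by linarith
  have hKp : ∀ n : ℕ, 1 ≤ K ^ n := fun n => one_le_pow₀ hK1
  have M0 : 0 < K ^ 9 * W := mul_pos (pow_pos hK0 9) W0
  have hrange : c * N + n * (K ^ 9 * W * P) ≤ K ^ 9 * (c * A) := by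
    have s1 : 4 * K ^ 20 * c' ≤ A := by
      have t1 : K * (4 * K ^ 20 * c') ≤ K * A := by
        have : K * (4 * K ^ 20 * c') = 4 * (K ^ 21 * c') := by ring
        rw [this]
        have t2 : 32 * B ^ 2 * A ≤ K * A := mul_le_mul_of_nonneg_right hKB A0.le
        linarith
      exact le_of_mul_le_mul_left t1 hK0
    have s2 : 2 * n * (K ^ 2 * c') ≤ A := by
      have t1 : (n : ℤ) ≤ 2 * K ^ 18 := by rw [hn]; linarith [hKp 18]
      have t2 : (n : ℤ) * (K ^ 2 * c') ≤ 2 * K ^ 18 * (K ^ 2 * c') :=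
        mul_le_mul_of_nonneg_right t1 (mul_pos (pow_pos hK0 2) c0').le
      have t3 : 2 * K ^ 18 * (K ^ 2 * c') = 2 * K ^ 20 * c' := by ring
      linarith
    have s3 : W * a ≤ K ^ 2 * c ^ 2 := by
      have t1 : W * a ≤ N * N := mul_le_mul WN aN a0.le hN0.le
      have t2 : N * N ≤ (K * c) * (K * c) := mul_le_mul hc.le hc.le hN0.le (mul_pos hK0 c0).le
      have t3 : (K * c) * (K * c) = K ^ 2 * c ^ 2 := by ring
      linarith
    have s4 : c * (2 * n * (W * P)) ≤ c * (c * A) := by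
      have t1 : c * (2 * n * (W * P)) = 2 * n * c' * (W * a) := by
        calc c * (2 * n * (W * P)) = 2 * n * W * (c * P) := by ring
          _ = 2 * n * c' * (W * a) := by rw [relP]; ring
      have t2 : 2 * n * c' * (W * a) ≤ 2 * n * c' * (K ^ 2 * c ^ 2) :=
        mul_le_mul_of_nonneg_left s3 (by positivity)
      have t3 : 2 * n * c' * (K ^ 2 * c ^ 2) = c ^ 2 * (2 * n * (K ^ 2 * c')) := by ring
      have t4 : c ^ 2 * (2 * n * (K ^ 2 * c')) ≤ c ^ 2 * A :=
        mul_le_mul_of_nonneg_left s2 (sq_nonneg c)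
      have t5 : c * (c * A) = c ^ 2 * A := by ring
      linarith
    have s5 : 2 * n * (W * P) ≤ c * A := le_of_mul_le_mul_left s4 c0
    have s6 : 2 * N ≤ K ^ 9 * A := by
      have t1 : K ≤ K ^ 9 := by
        calc K = K * 1 := by ring
          _ ≤ K * K ^ 8 := mul_le_mul_of_nonneg_left (hKp 8) hK0.le
          _ = K ^ 9 := by ring
      have t2 : 32 * B ^ 2 * A ≤ K ^ 9 * A :=
        mul_le_mul_of_nonneg_right (hKB.trans t1) A0.le
      linarith
    have s7 : c * (2 * N) ≤ c * (K ^ 9 * A) := mul_le_mul_of_nonneg_left s6 c0.le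
    have s8 : K ^ 9 * (2 * n * (W * P)) ≤ K ^ 9 * (c * A) :=
      mul_le_mul_of_nonneg_left s5 (pow_pos hK0 9).le
    have s9 : 2 * (n * (K ^ 9 * W * P)) = K ^ 9 * (2 * n * (W * P)) := by ring
    have s10 : c * (K ^ 9 * A) = K ^ 9 * (c * A) := by ring
    linarith
  obtain ⟨rho, hrho⟩ : ∃ rho, rho = r0 + (k0 + j) * P := ⟨_, rfl⟩
  rw [← hrho]
  have hj' : (j : ℤ) + 1 ≤ n := by exact_mod_cast hj
  have m1 : c * N ≤ K ^ 9 * (W * rho) := by
    have t1 : K ^ 9 * (W * rho) = K ^ 9 * W * r0 + k0 * (K ^ 9 * W * P) +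
        j * (K ^ 9 * W * P) := by rw [hrho]; ring
    have t2 : 0 ≤ (j : ℤ) * (K ^ 9 * W * P) := mul_nonneg (by positivity) (mul_pos M0 P0).le
    linarith
  have m2 : K ^ 9 * (W * rho) < K ^ 9 * (c * A) := by
    have t1 : K ^ 9 * (W * rho) = K ^ 9 * W * r0 + (k0 - 1) * (K ^ 9 * W * P) +
        (j + 1) * (K ^ 9 * W * P) := by rw [hrho]; ring
    have t2 : ((j : ℤ) + 1) * (K ^ 9 * W * P) ≤ n * (K ^ 9 * W * P) :=
      mul_le_mul_of_nonneg_right hj' (mul_pos M0 P0).le
    linarith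
  have m3 : W * rho < c * A := lt_of_mul_lt_mul_left m2 (pow_pos hK0 9).le
  have rho0 : 0 < rho := by
    have t1 : 0 < K ^ 9 * (W * rho) := lt_of_lt_of_le (mul_pos c0 hN0) m1
    have t2 := (mul_pos_iff_of_pos_left (pow_pos hK0 9)).1 t1
    exact (mul_pos_iff_of_pos_left W0).1 t2
  exact ⟨m1, m3, rho0⟩

/-- **STEP (4c)** -/
theorem NoRoom.four_c (hR : NoRoom O N B) (hB : 2 ≤ B) (hKB : 32 * B ^ 2 ≤ K)
    (h4a : NotBoth O N K) (hT : Has6 O (u, v, l, q, m, s))
    (hN : vol6 (u, v, l, q, m, s) = N) (hc : N < K * ct u l q)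
    (hc' : K ^ 21 * ct u m s ≤ N) : False := by
  have hB2 : 4 ≤ B ^ 2 := by nlinarith
  have hK1 : 2 ≤ K := by linarith
  have hK0 : 0 < K := by linarith
  have hKp : ∀ n : ℕ, 1 ≤ K ^ n := fun n => one_le_pow₀ (by linarith)
  have hK3 : 16 * B ^ 2 ≤ K ^ 3 := by
    have : K ^ 3 = K * K ^ 2 := by ring
    have h1 : K * 1 ≤ K * K ^ 2 := mul_le_mul_of_nonneg_left (hKp 2) hK0.le
    linarith
  obtain ⟨l1, q1, m1, s1, T1, N1, -, -, ec, ec', uq, us, -, -⟩ := hT.rows0 hN
  rw [← ec] at hc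
  rw [← ec'] at hc'
  obtain ⟨A0, c0, c0', p4, p5⟩ := T1.pos
  have hsum : cr u v + (cr u l1 + cr q1 l1) + (cr u m1 + cr s1 m1) = N := by
    rw [← N1]
    simp only [vol6]
    ring
  have ctl : ct u l1 q1 = cr u l1 := by
    have h1 : cr u l1 ∣ ct u l1 q1 := dvd_ct dvd_rfl (by rw [uq]; exact dvd_zero _)
    exact le_antisymm (ct_le c0) (Int.le_of_dvd (ct_pos c0) h1)
  have ctm : ct u m1 s1 = cr u m1 := by
    have h1 : cr u m1 ∣ ct u m1 s1 := dvd_ct dvd_rfl (by rw [us]; exact dvd_zero _)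
    exact le_antisymm (ct_le c0') (Int.le_of_dvd (ct_pos c0') h1)
  have hN0 : 0 < N := by linarith
  -- fat
  have fat : N < 8 * B ^ 2 * cr u v := by
    refine hR.large hB T1 N1 (Or.inr ?_)
    rw [ctm]
    have h2 : K ≤ K ^ 21 := by
      calc K = K * 1 := by ring
        _ ≤ K * K ^ 20 := mul_le_mul_of_nonneg_left (hKp 20) hK0.le
        _ = K ^ 21 := by ring
    have h3 : 4 * B ^ 2 < K ^ 21 := by linarith
    have h4 : 4 * B ^ 2 * cr u m1 < K ^ 21 * cr u m1 := mul_lt_mul_of_pos_right h3 c0'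
    linarith
  have h9 : K ^ 9 * cr u m1 ≤ N := by
    have h2 : K ^ 9 ≤ K ^ 21 := pow_le_pow_right₀ (by linarith) (by norm_num)
    have := mul_le_mul_of_nonneg_right h2 c0'.le
    linarith
  have z2 : cr s1 m1 ≤ cr u m1 := by
    by_contra hcon
    push Not at hcon
    refine hR.four_b hB hK3 hK1 h4a T1 N1 (by rw [ctl]; exact hc) (by rw [ctm]; exact h9) ?_
    rw [ctm]
    linarith
  -- the numbers
  have relP := cr_uq (l := l1) uq m1
  have relM := cr_uq (u := u) (l := m1) (q := s1) us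
  obtain ⟨A, hA⟩ : ∃ A, A = cr u v := ⟨_, rfl⟩
  obtain ⟨c, hcc⟩ : ∃ c, c = cr u l1 := ⟨_, rfl⟩
  obtain ⟨c', hcc'⟩ : ∃ c', c' = cr u m1 := ⟨_, rfl⟩
  obtain ⟨W, hW⟩ : ∃ W, W = A + c + c' := ⟨_, rfl⟩
  obtain ⟨P, hP⟩ : ∃ P, P = cr (u + q1) m1 := ⟨_, rfl⟩
  obtain ⟨r0, hr0⟩ : ∃ r0, r0 = cr l1 m1 := ⟨_, rfl⟩
  obtain ⟨a, ha⟩ : ∃ a, a = c + cr q1 l1 := ⟨_, rfl⟩
  obtain ⟨D, hD⟩ : ∃ D, D = cr s1 m1 := ⟨_, rfl⟩
  rw [← hA] at fat A0 hsum
  rw [← hcc] at c0 hc hsum relP
  rw [← hcc'] at c0' hc' hsum relP relM z2 h9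
  rw [← ha] at hsum relP
  rw [← hD] at hsum relM z2 p5
  rw [← hP] at relP
  have ca : c < a := by linarith
  have W0 : 0 < W := by linarith
  have WN : W ≤ N := by linarith
  have P0 : 0 < P := by
    have : 0 < c * P := by
      rw [relP]
      exact mul_pos (by linarith) c0'
    exact (mul_pos_iff_of_pos_left c0).1 this
  have hWy : cr u (v + l1 + m1) = W := by
    rw [cr_addr, cr_addr, ← hA, ← hcc, ← hcc', hW]
  -- `c' (y × s) = - (a' - c') W` when `y × u = - W`
  have hsy : ∀ y : Z2, cr y u = -W → c' * cr y s1 = -(D * W) := by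
    intro y hy
    have t1 := relM y
    have t2 : cr (u + s1) y = -cr y u - cr y s1 := by
      simp only [cr, Prod.fst_add, Prod.snd_add]
      ring
    have t3 : cr u y = -cr y u := by rw [cr_swap']
    rw [t2, t3, hy] at t1
    linarith
  have hG : ∃ G, c' * G = D * W := by
    refine ⟨-cr (v + l1 + m1) s1, ?_⟩
    have := hsy (v + l1 + m1) (by rw [cr_swap' u, hWy])
    linarith
  obtain ⟨G, hG⟩ := hG
  have G0 : 0 < G := by
    have : 0 < c' * G := by
      rw [hG]
      exact mul_pos p5 W0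
    exact (mul_pos_iff_of_pos_left c0').1 this
  have GW : G ≤ W := by
    have : c' * G ≤ c' * W := by
      rw [hG]
      exact mul_le_mul_of_nonneg_right z2 W0.le
    exact le_of_mul_le_mul_left this c0'
  -- the range of k
  obtain ⟨k0, hk1, hk2⟩ := first_above (R := K ^ 9 * W * r0) (P := K ^ 9 * W * P) (T := c * N)
    (mul_pos (mul_pos (pow_pos hK0 9) W0) P0)
  obtain ⟨n, hn⟩ : ∃ n : ℕ, (n : ℤ) = K ^ 18 + 1 := ⟨(K ^ 18 + 1).toNat, by
    rw [Int.toNat_of_nonneg]
    linarith [hKp 18]⟩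
  -- the centres
  have key : ∀ j < n, ∃ V r : ℤ, 0 < V ∧ V ≤ N ∧ N < K ^ 9 * Int.gcd V G ∧ 0 < r ∧ r ≤ c ∧
      c * V = c' * r + W * (r0 + (k0 + j) * P) := by
    intro j hj
    obtain ⟨m1', m3, rho0⟩ := fourc_num hKB (by linarith) hN0 c0 c0' A0 W0 WN (by linarith)
      (by linarith) relP P0 fat hc hc' hn hk1 hk2 hj
    obtain ⟨rho, hrho⟩ : ∃ rho, rho = r0 + (k0 + j) * P := ⟨_, rfl⟩
    rw [← hrho] at m1' m3 rho0 ⊢
    have e1 : cr (l1 + (k0 + j) • (u + q1)) m1 = rho := by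
      rw [(T1.row_k N1 uq (k0 + j)).2.2.2.2, hrho, hr0, hP]
    obtain ⟨t, r, V, y, v', hy, g1, g2, g3, g4, g5, g6, g7, g8, g9, g10, g11, g12⟩ :=
      T1.centre_k N1 uq (k0 + j) (by rw [e1]; exact rho0)
        (by rw [e1, ← hA, ← hcc, ← hcc', ← hW]; exact m3)
    rw [e1, ← hA, ← hcc, ← hcc', ← hW] at g10
    rw [← hA, ← hcc, ← hcc', ← hW] at g12
    rw [← hA, ← hcc, ← hcc', ← hW] at g9
    rw [← hcc] at g5
    refine ⟨V, r, g8, by linarith, ?_, g4, g5, g10⟩
    -- the content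
    have hs : cr y s1 = -G := by
      have t1 := hsy y g12
      have t2 : c' * cr y s1 = c' * (-G) := by linarith
      exact mul_left_cancel₀ c0'.ne' t2
    have hct : ct y m1 s1 = Int.gcd V G := by
      unfold ct
      rw [g7, hs, Int.gcd_neg]
    by_contra hcon
    push Not at hcon
    rw [← hct] at hcon
    have hC0 : 0 < ct y m1 s1 := ct_pos (by rw [g7]; exact g8)
    have hC : N < K * ct y (l1 + (k0 + j) • (u + q1)) q1 := by
      rcases h4a _ _ _ _ _ _ g1 g2 with hx | hx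
      · exact hx
      · exfalso
        have t1 : K ≤ K ^ 9 := by
          calc K = K * 1 := by ring
            _ ≤ K * K ^ 8 := mul_le_mul_of_nonneg_left (hKp 8) hK0.le
            _ = K ^ 9 := by ring
        have := mul_le_mul_of_nonneg_right t1 hC0.le
        linarith
    have hz : ¬ (2 * ct y m1 s1 < cr y m1 + cr s1 m1) :=
      fun hz => hR.four_b hB hK3 hK1 h4a g1 g2 hC hcon hz
    push Not at hz
    rw [g7, ← hD] at hz
    have hVC : V = ct y m1 s1 := by
      obtain ⟨w, hw⟩ : ct y m1 s1 ∣ V := by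
        have := ct_dvd_left (u := y) (l := m1) (q := s1)
        rwa [g7] at this
      have w0 : 0 < w := by
        have : 0 < ct y m1 s1 * w := by rw [← hw]; exact g8
        exact (mul_pos_iff_of_pos_left hC0).1 this
      have w1 : w < 2 := by
        by_contra hw2
        push Not at hw2
        have : ct y m1 s1 * 2 ≤ ct y m1 s1 * w := mul_le_mul_of_nonneg_left hw2 hC0.le
        linarith
      have w2 : w = 1 := by omega
      rw [w2, mul_one] at hw
      exact hw
    rw [← hVC] at hcon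
    -- V > N / K^9
    have t1 : c * (K ^ 9 * V) > c * N := by
      have t2 : c * (K ^ 9 * V) = K ^ 9 * (c' * r) + K ^ 9 * (W * rho) := by
        calc c * (K ^ 9 * V) = K ^ 9 * (c * V) := by ring
          _ = K ^ 9 * (c' * r) + K ^ 9 * (W * rho) := by rw [g10]; ring
      have t3 : 0 < K ^ 9 * (c' * r) := mul_pos (pow_pos hK0 9) (mul_pos c0' g4)
      linarith
    have t2 : N < K ^ 9 * V := lt_of_mul_lt_mul_left t1 c0.le
    linarith
  choose! V r hV using key
  have hlt : ∀ j k : ℕ, j < k → j < n → k < n → V j ≠ V k := by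
    intro j k hjk hj hk he
    obtain ⟨-, -, -, j4, j5, j6⟩ := hV j hj
    obtain ⟨-, -, -, k4, k5, k6⟩ := hV k hk
    have t1 : c' * (r j - r k) = W * ((k - j) * P) := by
      rw [he] at j6
      linarith [j6, k6]
    have t2 : W * P ≤ W * ((k - j) * P) := by
      have t3 : (1 : ℤ) ≤ k - j := by
        have : (j : ℤ) + 1 ≤ k := by exact_mod_cast hjk
        linarith
      have t4 : 1 * P ≤ (k - j) * P := mul_le_mul_of_nonneg_right t3 P0.le
      rw [one_mul] at t4
      exact mul_le_mul_of_nonneg_left t4 W0.le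
    have t3 : c' * (r j - r k) < c' * c := mul_lt_mul_of_pos_left (by linarith) c0'
    have t4 : c * (c' * c) < c * (W * P) := by
      have t5 : c * (W * P) = W * a * c' := by
        calc c * (W * P) = W * (c * P) := by ring
          _ = W * a * c' := by rw [relP]; ring
      have t6 : c * (c' * c) = c * c * c' := by ring
      rw [t5, t6]
      refine mul_lt_mul_of_pos_right ?_ c0'
      exact mul_lt_mul'' (by linarith) ca c0.le c0.le
    have t5 : c' * c < W * P := lt_of_mul_lt_mul_left t4 c0.le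
    linarith
  have hinj : ∀ j < n, ∀ k < n, V j = V k → j = k := by
    intro j hj k hk he
    rcases lt_trichotomy j k with h1 | h1 | h1
    · exact absurd he (hlt j k h1 hj hk)
    · exact h1
    · exact absurd he.symm (hlt k j h1 hk hj)
  have hfin := few_gcd G0 (GW.trans WN) (E := K ^ 9) (F := V)
    (fun j hj => ⟨(hV j hj).1, (hV j hj).2.1, (hV j hj).2.2.1⟩) hinj
  rw [Int.toNat_of_nonneg (pow_pos hK0 9).le, hn] at hfin
  have : K ^ 9 * K ^ 9 = K ^ 18 := by ring
  linarith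

/-- step (4c), the handles exchanged -/
theorem NoRoom.four_c' (hR : NoRoom O N B) (hB : 2 ≤ B) (hKB : 32 * B ^ 2 ≤ K)
    (h4a : NotBoth O N K) (hT : Has6 O (u, v, l, q, m, s))
    (hN : vol6 (u, v, l, q, m, s) = N) (hc : N < K * ct u m s)
    (hc' : K ^ 21 * ct u l q ≤ N) : False :=
  hR.four_c hB hKB h4a hT.swap (vol6_swap.trans hN) (by rw [ct_neg]; exact hc)
    (by rw [ct_neg]; exact hc')

/-- **(4a) implies THEOREM NR**: all contents are `> N / K^21` -/
theorem NoRoom.contents (hR : NoRoom O N B) (hB : 2 ≤ B) (hKB : 32 * B ^ 2 ≤ K)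
    (h4a : NotBoth O N K) (hT : Has6 O (u, v, l, q, m, s))
    (hN : vol6 (u, v, l, q, m, s) = N) :
    N < K ^ 21 * ct u l q ∧ N < K ^ 21 * ct u m s := by
  have hB2 : 4 ≤ B ^ 2 := by nlinarith
  have hK0 : 0 < K := by linarith
  have hK21 : K ≤ K ^ 21 := by
    calc K = K * 1 := by ring
      _ ≤ K * K ^ 20 := mul_le_mul_of_nonneg_left (one_le_pow₀ (by linarith)) hK0.le
      _ = K ^ 21 := by ring
  have p := hT.pos
  have c0 : 0 < ct u l q := ct_pos p.2.1
  have c0' : 0 < ct u m s := ct_pos p.2.2.1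
  have d1 := mul_le_mul_of_nonneg_right hK21 c0.le
  have d2 := mul_le_mul_of_nonneg_right hK21 c0'.le
  constructor
  · by_contra hcon
    push Not at hcon
    rcases h4a _ _ _ _ _ _ hT hN with h | h
    · linarith
    · exact hR.four_c' hB hKB h4a hT hN h hcon
  · by_contra hcon
    push Not at hcon
    rcases h4a _ _ _ _ _ _ hT hN with h | h
    · exact hR.four_c hB hKB h4a hT hN h hcon
    · linarith

end Pool.Agent.H4G.Six
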