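import Pool.Agent.H4G.Six.NR.Both
import Pool.Agent.H4G.Six.NR.CaseI
import Pool.Agent.H4G.Six.NR.FourC

/-!
# THEOREM NR: no roomy tree, so all contents are large (helper58; assembly helper41)
-/

set_option autoImplicit false

namespace Pool.Agent.H4G.Six

open Pool.Agent.H4G

variable {X : Type} {O : PO X} {N B : ℤ} {u v l q m s : Z2}

/-- **(4a)**: the two contents of a tree are not both small -/
theorem NoRoom.notBoth (h : NoRoom O N B) (hB : 10 ^ 6 ≤ B) : NotBoth O N (B ^ 140) := by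
  intro u v l q m s hT hN
  by_contra hc
  push Not at hc
  obtain ⟨h1, h2⟩ := hc
  obtain ⟨a1, a2⟩ := h.both_tree hB hT hN h1 h2
  obtain ⟨-, p2, p3, -, -⟩ := hT.pos
  have hpow : 6000 * B ^ 6 ≤ B ^ 140 := by
    calc 6000 * B ^ 6 ≤ B * B ^ 6 := mul_le_mul_of_nonneg_right (by linarith) (by positivity)
      _ = B ^ 7 := by ring
      _ ≤ B ^ 140 := pow_le_pow_right₀ (by linarith) (by norm_num)
  have h3 := mul_le_mul_of_nonneg_right hpow (ct_pos (q := q) p2).le
  have h4 := mul_le_mul_of_nonneg_right hpow (ct_pos (q := s) p3).le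
  exact NR.both_short h (by linarith) hT hN (h3.trans h1) (h4.trans h2) a1 a2

/-- **THEOREM NR** -/
theorem NoRoom.nr (h : NoRoom O N B) (hB : 10 ^ 6 ≤ B) (hT : Has6 O (u, v, l, q, m, s))
    (hN : vol6 (u, v, l, q, m, s) = N) :
    N < B ^ 2940 * ct u l q ∧ N < B ^ 2940 * ct u m s := by
  have hK : 32 * B ^ 2 ≤ B ^ 140 := by
    calc 32 * B ^ 2 ≤ B * B ^ 2 := mul_le_mul_of_nonneg_right (by linarith) (by positivity)
      _ = B ^ 3 := by ring
      _ ≤ B ^ 140 := pow_le_pow_right₀ (by linarith) (by norm_num)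
  have h1 := h.contents (by linarith) hK (h.notBoth hB) hT hN
  have e : (B ^ 140) ^ 21 = B ^ 2940 := by rw [← pow_mul]
  rwa [e] at h1

end Pool.Agent.H4G.Six
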