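import Pool.Agent.H4G.Six.NR.Cen
import Pool.Agent.H4G.Six.NR.T12

/-!
# No roomy trees, step (4b) (page NR of helper58; typed by helper2)

`four_b`: a tree with `N < K c`, `K ^ 9 c' ≤ N`, `2 c' < a'` is impossible, if every tree has
`N < K c` or `N < K c'` (step (4a)).
-/

set_option autoImplicit false

namespace Pool.Agent.H4G.Six

open Pool.Agent.H4G

variable {X : Type} {O : PO X} {N K E B : ℤ} {u v l q m s : Z2}

/-- step (4a): no tree has both contents `≤ N / K` -/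
def NotBoth (O : PO X) (N K : ℤ) : Prop := ∀ u v l q m s : Z2, Has6 O (u, v, l, q, m, s) →
  vol6 (u, v, l, q, m, s) = N → N < K * ct u l q ∨ N < K * ct u m s

/-- the sizes in (4b) -/
theorem fourb_num {c A W a s' P ρ : ℤ} (hK : 2 ≤ K) (hE : 2 * E ≤ K ^ 3) (hc : N < K * c)
    (c0 : 0 < c) (A0 : 0 < A) (hA : N < E * A) (s0 : 0 < s') (hs : K ^ 8 * s' ≤ N) (W0 : 0 < W)
    (hW : W ≤ N) (a0 : 0 < a) (ha : a ≤ N) (hP : c * P = a * s') (ρ0 : 0 < ρ)
    (hρ : ρ ≤ (K ^ 3 + 1) * P) :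
    W * ρ < c * A ∧ ∀ V r : ℤ, r ≤ c → c * V = s' * r + W * ρ → K * V < N := by
  have N0 : 0 < N := W0.trans_le hW
  have K0 : 0 < K := by linarith
  have k3 : (1:ℤ) ≤ K ^ 3 := one_le_pow₀ (by linarith)
  have h1 : c * (W * ρ) ≤ (K ^ 3 + 1) * (N * (N * s')) := by
    have e1 : c * (W * ρ) ≤ c * (W * ((K ^ 3 + 1) * P)) :=
      mul_le_mul_of_nonneg_left (mul_le_mul_of_nonneg_left hρ W0.le) c0.le
    have e2 : c * (W * ((K ^ 3 + 1) * P)) = (K ^ 3 + 1) * (W * (a * s')) := by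
      rw [← hP]; ring
    have e3 : W * (a * s') ≤ N * (N * s') :=
      mul_le_mul hW (mul_le_mul_of_nonneg_right ha s0.le) (mul_pos a0 s0).le N0.le
    rw [e2] at e1
    exact e1.trans (mul_le_mul_of_nonneg_left e3 (by linarith))
  have h3 : N * N ≤ K * c * (K * c) := mul_le_mul hc.le hc.le N0.le (mul_pos K0 c0).le
  have h4 : K ^ 3 * (W * ρ) ≤ 2 * (c * N) := by
    have e1 : K ^ 8 * (c * (W * ρ)) ≤ (K ^ 3 + 1) * (N * (N * N)) := by
      have f1 : K ^ 8 * (c * (W * ρ)) ≤ K ^ 8 * ((K ^ 3 + 1) * (N * (N * s'))) :=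
        mul_le_mul_of_nonneg_left h1 (by positivity)
      have f2 : K ^ 8 * ((K ^ 3 + 1) * (N * (N * s'))) =
          (K ^ 3 + 1) * (N * (N * (K ^ 8 * s'))) := by ring
      rw [f2] at f1
      refine f1.trans (mul_le_mul_of_nonneg_left ?_ (by linarith))
      exact mul_le_mul_of_nonneg_left (mul_le_mul_of_nonneg_left hs N0.le) N0.le
    have e2 : (K ^ 3 + 1) * (N * (N * N)) ≤ (2 * K ^ 3) * (N * (K * c * (K * c))) :=
      mul_le_mul (by linarith) (mul_le_mul_of_nonneg_left h3 N0.le) (by positivity) (by positivity)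
    have e3 : K ^ 5 * c * (K ^ 3 * (W * ρ)) ≤ K ^ 5 * c * (2 * (c * N)) := by
      have g1 : K ^ 5 * c * (K ^ 3 * (W * ρ)) = K ^ 8 * (c * (W * ρ)) := by ring
      have g2 : K ^ 5 * c * (2 * (c * N)) = (2 * K ^ 3) * (N * (K * c * (K * c))) := by ring
      rw [g1, g2]
      exact e1.trans e2
    exact le_of_mul_le_mul_left e3 (by positivity)
  constructor
  · have e1 : K ^ 3 * (W * ρ) < K ^ 3 * (c * A) := by
      have f1 : c * N < c * (E * A) := mul_lt_mul_of_pos_left hA c0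
      have f2 : 2 * E * (c * A) ≤ K ^ 3 * (c * A) :=
        mul_le_mul_of_nonneg_right hE (mul_pos c0 A0).le
      have f3 : 2 * E * (c * A) = 2 * (c * (E * A)) := by ring
      linarith
    exact lt_of_mul_lt_mul_left e1 (by positivity)
  · intro V r hr hV
    have e1 : 2 * K * s' ≤ N := by
      have f1 : 2 * K ≤ K ^ 8 := by
        have : (2:ℤ) ≤ K ^ 7 := hK.trans (le_self_pow₀ (by linarith) (by norm_num))
        have h := mul_le_mul_of_nonneg_left this K0.le
        have e : K * K ^ 7 = K ^ 8 := by ring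
        linarith
      exact (mul_le_mul_of_nonneg_right f1 s0.le).trans hs
    have e2 : 4 * (K * (W * ρ)) ≤ 2 * (c * N) := by
      have f1 : (4:ℤ) ≤ K ^ 2 := by nlinarith
      have f2 : 4 * (K * (W * ρ)) ≤ K ^ 2 * (K * (W * ρ)) :=
        mul_le_mul_of_nonneg_right f1 (by positivity)
      have f3 : K ^ 2 * (K * (W * ρ)) = K ^ 3 * (W * ρ) := by ring
      linarith
    -- `2 K c V ≤ 2 N c`, strict because of `K s' < N`
    have e3 : s' * r ≤ s' * c := mul_le_mul_of_nonneg_left hr s0.le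
    have e4 : K * s' < N := by
      have : 0 < K * s' := mul_pos K0 s0
      have e : 2 * K * s' = 2 * (K * s') := by ring
      linarith
    have e5 : c * (K * V) < c * N := by
      have g1 : c * (K * V) = K * (c * V) := by ring
      have g2 : K * (s' * r + W * ρ) = K * (s' * r) + K * (W * ρ) := by ring
      have g3 : K * (s' * r) ≤ K * (s' * c) := mul_le_mul_of_nonneg_left e3 K0.le
      have g4 : 2 * (K * (s' * c)) ≤ c * N := by
        have := mul_le_mul_of_nonneg_left e1 c0.le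
        have e : c * (2 * K * s') = 2 * (K * (s' * c)) := by ring
        linarith
      have g5 : 0 < K * (W * ρ) := by positivity
      have g6 : 2 * (K * (s' * c)) < c * N ∨ K * (W * ρ) * 4 ≤ 2 * (c * N) := Or.inr (by linarith)
      rw [g1, hV, g2]
      by_contra hcon
      push Not at hcon
      -- equality would force `2 K s' = N` and `K W ρ = c N / 2`
      have g7 : K * (s' * c) * 2 = c * N := by linarith
      have g8 : K ^ 8 * (s' * c) ≤ c * N := by
        have := mul_le_mul_of_nonneg_left hs c0.le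
        have e : c * (K ^ 8 * s') = K ^ 8 * (s' * c) := by ring
        linarith
      have g9 : K * 4 ≤ K ^ 8 := by
        have : (4:ℤ) ≤ K ^ 7 := by
          have h1 : (4:ℤ) ≤ K ^ 2 := by nlinarith
          have h2 : K ^ 2 ≤ K ^ 7 := pow_le_pow_right₀ (by linarith) (by norm_num)
          linarith
        have h := mul_le_mul_of_nonneg_left this K0.le
        have e : K * K ^ 7 = K ^ 8 := by ring
        linarith
      have g10 : K * 4 * (s' * c) ≤ K ^ 8 * (s' * c) :=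
        mul_le_mul_of_nonneg_right g9 (mul_pos s0 c0).le
      have g11 : 0 < K * (s' * c) := by positivity
      have e : K * 4 * (s' * c) = 4 * (K * (s' * c)) := by ring
      linarith
    exact lt_of_mul_lt_mul_left e5 c0.le

/-- one vector `m` in (4b) -/
theorem four_b_aux (hK : 2 ≤ K) (hE : 2 * E ≤ K ^ 3) (h4a : NotBoth O N K)
    (hT : Has6 O (u, v, l, q, m, s)) (hN : vol6 (u, v, l, q, m, s) = N) (uq : cr u q = 0)
    (hc : N < K * cr u l) (hA : N < E * cr u v) (hs : K ^ 8 * cr u m ≤ N) :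
    ∃ x : ℤ, 1 ≤ x ∧ x ≤ K ^ 3 ∧ cr u l ∣ x * cr (u + q) (v + m) := by
  obtain ⟨p1, p2, p3, p4, p5⟩ := hT.pos
  have qu : cr q u = 0 := by rw [cr_swap' u q, uq, neg_zero]
  have hvol : cr u v + (cr u l + cr q l) + (cr u m + cr s m) = N := by
    rw [← hN]
    simp only [vol6]
    ring
  have hP := cr_uq (l := l) uq m
  obtain ⟨P, hPe⟩ : ∃ P, P = cr (u + q) m := ⟨_, rfl⟩
  rw [← hPe] at hP
  have P0 : 0 < P := by
    have : 0 < cr u l * P := by
      rw [hP]
      exact mul_pos (by linarith) p3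
    exact (mul_pos_iff_of_pos_left p2).1 this
  have K0 : 0 < K := by linarith
  have N0 : 0 < N := by linarith
  -- the first positive product
  obtain ⟨k0, hk0⟩ : ∃ k0, k0 = -((cr l m - 1) / P) := ⟨_, rfl⟩
  have hρ0 : 0 < cr l m + k0 * P ∧ cr l m + k0 * P ≤ P := by
    have e1 := Int.emod_add_mul_ediv (cr l m - 1) P
    have e2 := Int.emod_nonneg (cr l m - 1) P0.ne'
    have e3 := Int.emod_lt_of_pos (cr l m - 1) P0
    have e4 : cr l m + k0 * P = (cr l m - 1) % P + 1 := by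
      rw [hk0]
      linarith
    constructor <;> linarith
  obtain ⟨Q0, hQ0⟩ : ∃ Q0, Q0 = cr q (v + l + m) := ⟨_, rfl⟩
  have hcQ : cr u l * Q0 = cr q l * (cr u v + cr u l + cr u m) := by
    have : cr u l * cr q (v + l + m) - cr q l * (cr u v + cr u l + cr u m) =
        -cr u q * cr (v + m) l := by
      simp only [cr, Prod.fst_add, Prod.snd_add]
      ring
    rw [uq, neg_zero, zero_mul] at this
    rw [hQ0]
    linarith
  have Q00 : 0 < Q0 := by
    have : 0 < cr u l * Q0 := by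
      rw [hcQ]
      exact mul_pos p4 (by linarith)
    exact (mul_pos_iff_of_pos_left p2).1 this
  have hQK : Q0 < K * N := by
    have h1 : cr u l * Q0 < cr u l * (K * N) := by
      rw [hcQ]
      have e1 : cr q l * (cr u v + cr u l + cr u m) ≤ N * N :=
        mul_le_mul (by linarith) (by linarith) (by linarith) N0.le
      have e2 : N * N < K * cr u l * N := mul_lt_mul_of_pos_right hc N0
      have e3 : K * cr u l * N = cr u l * (K * N) := by ring
      linarith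
    exact lt_of_mul_lt_mul_left h1 p2.le
  -- the data of one `k`
  have key : ∀ j : ℤ, 0 ≤ j → j ≤ K ^ 3 → ∃ r t e e2 : ℤ,
      r = cr (v + m) (l + (k0 + j) • (u + q)) + t * cr u l ∧ 1 ≤ e ∧ e < K ∧ 1 ≤ e2 ∧
        e2 < K ^ 2 ∧ e2 * r = e * Q0 := by
    intro j j0 j1
    have hρ : cr (l + (k0 + j) • (u + q)) m = cr l m + k0 * P + j * P := by
      rw [(hT.row_k hN uq (k0 + j)).2.2.2.2, ← hPe]; ring
    have hρpos : 0 < cr (l + (k0 + j) • (u + q)) m := by
      rw [hρ]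
      have := mul_nonneg j0 P0.le
      linarith
    have hρle : cr (l + (k0 + j) • (u + q)) m ≤ (K ^ 3 + 1) * P := by
      rw [hρ]
      have := mul_le_mul_of_nonneg_right j1 P0.le
      have e : (K ^ 3 + 1) * P = K ^ 3 * P + P := by ring
      linarith
    obtain ⟨n1, n2⟩ := fourb_num hK hE hc p2 p1 hA p3 hs
      (show 0 < cr u v + cr u l + cr u m by linarith) (by linarith)
      (show 0 < cr u l + cr q l by linarith) (by linarith) hP hρpos hρle
    obtain ⟨t, r, V, y, v', hy, k1, k2, k3, r0, r1, r2, k4, V0, k5, k6, k7, k8⟩ :=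
      hT.centre_k hN uq (k0 + j) hρpos n1
    have hV := n2 V r r1 k6
    rcases h4a _ _ _ _ _ _ k1 k2 with h | h
    · obtain ⟨g, hg⟩ : ∃ g, g = ct y (l + (k0 + j) • (u + q)) q := ⟨_, rfl⟩
      rw [← hg] at h
      have g0 : 0 < g := by rw [hg]; exact ct_pos (by rw [k3]; exact r0)
      obtain ⟨e, he⟩ : g ∣ r := by rw [hg, ← k3]; exact ct_dvd_left
      obtain ⟨e2, he2⟩ : g ∣ Q0 := by
        have h5 : g ∣ cr y q := by rw [hg]; exact ct_dvd_right
        rw [k7, dvd_neg] at h5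
        rw [hQ0]
        exact h5
      have e0 : 0 < e := (mul_pos_iff_of_pos_left g0).1 (he ▸ r0)
      have e20 : 0 < e2 := (mul_pos_iff_of_pos_left g0).1 (he2 ▸ Q00)
      refine ⟨r, t, e, e2, r2, e0, ?_, e20, ?_, by rw [he, he2]; ring⟩
      · have h6 : g * e < g * K := by
          rw [← he]
          linarith
        exact lt_of_mul_lt_mul_left h6 g0.le
      · have h6 : g * e2 < g * K ^ 2 := by
          rw [← he2]
          have := mul_lt_mul_of_pos_left h K0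
          have e : K * (K * g) = g * K ^ 2 := by ring
          linarith
        exact lt_of_mul_lt_mul_left h6 g0.le
    · exfalso
      have h1 : ct y m s ≤ V := by
        rw [← k4]
        exact ct_le (by rw [k4]; exact V0)
      have := mul_le_mul_of_nonneg_left h1 K0.le
      linarith
  -- pigeonhole
  have key' : ∀ j : ℤ, ∃ p : ℤ × ℤ, j ∈ Finset.Icc (0:ℤ) (K ^ 3) →
      p ∈ Finset.Ico (1:ℤ) K ×ˢ Finset.Ico (1:ℤ) (K ^ 2) ∧ ∃ r t : ℤ,
        r = cr (v + m) (l + (k0 + j) • (u + q)) + t * cr u l ∧ p.2 * r = p.1 * Q0 := by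
    intro j
    by_cases hj : j ∈ Finset.Icc (0:ℤ) (K ^ 3)
    · obtain ⟨j0, j1⟩ := Finset.mem_Icc.1 hj
      obtain ⟨r, t, e, e2, h1, h2, h3, h4, h5, h6⟩ := key j j0 j1
      exact ⟨(e, e2), fun _ => ⟨Finset.mem_product.2 ⟨Finset.mem_Ico.2 ⟨h2, h3⟩,
        Finset.mem_Ico.2 ⟨h4, h5⟩⟩, r, t, h1, h6⟩⟩
    · exact ⟨(0, 0), fun h => absurd h hj⟩
  choose f hf using key'
  obtain ⟨j1, hj1, j2, hj2, hne, heq⟩ := Finset.exists_ne_map_eq_of_card_lt_of_maps_to
    (s := Finset.Icc (0:ℤ) (K ^ 3)) (t := Finset.Ico (1:ℤ) K ×ˢ Finset.Ico (1:ℤ) (K ^ 2))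
    (f := f) (by
      rw [Finset.card_product, Int.card_Ico, Int.card_Ico, Int.card_Icc]
      have h1 : (K - 1).toNat * (K ^ 2 - 1).toNat = ((K - 1) * (K ^ 2 - 1)).toNat := by
        have k2 : (1:ℤ) ≤ K ^ 2 := one_le_pow₀ (by linarith)
        rw [Int.toNat_mul (by linarith) (by linarith)]
      rw [h1]
      have h2 : (K - 1) * (K ^ 2 - 1) < K ^ 3 + 1 - 0 := by
        have : 0 < K ^ 2 := by positivity
        have e : (K - 1) * (K ^ 2 - 1) = K ^ 3 - K ^ 2 - K + 1 := by ring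
        linarith
      have k3 : (1:ℤ) ≤ K ^ 3 := one_le_pow₀ (by linarith)
      omega)
    (fun j hj => (hf j hj).1)
  -- the two indices give the same residue
  have fin : ∀ j1 j2 : ℤ, j1 ∈ Finset.Icc (0:ℤ) (K ^ 3) → j2 ∈ Finset.Icc (0:ℤ) (K ^ 3) →
      f j1 = f j2 → j1 < j2 → ∃ x : ℤ, 1 ≤ x ∧ x ≤ K ^ 3 ∧ cr u l ∣ x * cr (u + q) (v + m) := by
    intro j1 j2 h1 h2 h3 h4
    obtain ⟨a1, r1, t1, b1, c1⟩ := hf j1 h1
    obtain ⟨a2, r2, t2, b2, c2⟩ := hf j2 h2
    rw [← h3] at a2 c2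
    obtain ⟨-, d1⟩ := Finset.mem_product.1 a1
    have d2 := (Finset.mem_Ico.1 d1).1
    have hr : r1 = r2 := by
      have : (f j1).2 * r1 = (f j1).2 * r2 := by rw [c1, c2]
      exact mul_left_cancel₀ (by linarith) this
    obtain ⟨i1, i2⟩ := Finset.mem_Icc.1 h1
    obtain ⟨i3, i4⟩ := Finset.mem_Icc.1 h2
    refine ⟨j2 - j1, by linarith, by linarith, ⟨t2 - t1, ?_⟩⟩
    have e1 : cr (v + m) (l + (k0 + j1) • (u + q)) - cr (v + m) (l + (k0 + j2) • (u + q)) =
        (j2 - j1) * cr (u + q) (v + m) := by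
      simp only [cr, Prod.fst_add, Prod.snd_add, Prod.smul_fst, Prod.smul_snd, smul_eq_mul]
      ring
    rw [← e1]
    rw [b1, b2] at hr
    linarith
  rcases lt_or_gt_of_ne hne with h | h
  · exact fin j1 j2 hj1 hj2 heq h
  · exact fin j2 j1 hj2 hj1 heq.symm h

/-- **STEP (4b)** -/
theorem four_b (hK : 2 ≤ K) (hE : 2 * E ≤ K ^ 3) (h4a : NotBoth O N K)
    (hT : Has6 O (u, v, l, q, m, s)) (hN : vol6 (u, v, l, q, m, s) = N)
    (hA : N < E * cr u v) (hc : N < K * ct u l q) (hc' : K ^ 9 * ct u m s ≤ N)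
    (hz : 2 * ct u m s < cr u m + cr s m) : False := by
  obtain ⟨l1, q1, m1, s1, h1, h2, -, -, e1, e2, e3, e4, e5, e6⟩ := hT.rows0 hN
  rw [← e1] at hc
  rw [← e2] at hc' hz
  rw [← e6] at hz
  obtain ⟨p1, p2, p3, p4, p5⟩ := h1.pos
  have K0 : 0 < K := by linarith
  have hvol : cr u v + (cr u l1 + cr q1 l1) + (cr u m1 + cr s1 m1) = N := by
    rw [← h2]
    simp only [vol6]
    ring
  have N0 : 0 < N := by linarith
  -- the two vectors
  have s1' : K ^ 8 * cr u m1 ≤ N := by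
    have f1 : K ^ 8 ≤ K ^ 9 := pow_le_pow_right₀ (by linarith) (by norm_num)
    exact (mul_le_mul_of_nonneg_right f1 p3.le).trans hc'
  obtain ⟨x1, a1, a2, a3⟩ := four_b_aux hK hE h4a h1 h2 e3 hc hA s1'
  have f1 : cr u ((2:ℤ) • m1 + (1:ℤ) • (u + s1)) = 2 * cr u m1 := by
    have : cr u ((2:ℤ) • m1 + (1:ℤ) • (u + s1)) = 2 * cr u m1 + cr u s1 := by
      simp only [cr, Prod.fst_add, Prod.snd_add, Prod.smul_fst, Prod.smul_snd, smul_eq_mul]
      ring
    rw [this, e4]; ring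
  obtain ⟨s2, k1, k2⟩ := exists_slit (i := 2) (j := 1) (U := u) (l := m1) (q := s1)
    isCoprime_one_right rfl
  have h3 := h1.change p2 p4 rfl (l1 := l1) (m1 := (2:ℤ) • m1 + (1:ℤ) • (u + s1)) (s1 := s2)
    (by rw [f1]; linarith) (by rw [k2, f1]; linarith) k1
  have h4 : vol6 (u, v, l1, q1, (2:ℤ) • m1 + (1:ℤ) • (u + s1), s2) = N := by
    rw [← h2]
    simp only [vol6]
    rw [k2]
    ring
  have s2' : K ^ 8 * cr u ((2:ℤ) • m1 + (1:ℤ) • (u + s1)) ≤ N := by
    rw [f1]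
    have g1 : 2 * (K ^ 8 * cr u m1) ≤ K * (K ^ 8 * cr u m1) :=
      mul_le_mul_of_nonneg_right hK (by positivity)
    have g2 : K * (K ^ 8 * cr u m1) = K ^ 9 * cr u m1 := by ring
    have g3 : K ^ 8 * (2 * cr u m1) = 2 * (K ^ 8 * cr u m1) := by ring
    linarith
  obtain ⟨x2, b1, b2, b3⟩ := four_b_aux hK hE h4a h3 h4 e3 hc hA s2'
  -- the difference
  have hP := cr_uq (l := l1) e3 m1
  obtain ⟨P, hPe⟩ : ∃ P, P = cr (u + q1) m1 := ⟨_, rfl⟩
  rw [← hPe] at hP
  have P0 : 0 < P := by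
    have : 0 < cr u l1 * P := by
      rw [hP]
      exact mul_pos (by linarith) p3
    exact (mul_pos_iff_of_pos_left p2).1 this
  have hus : cr (u + q1) (u + s1) = 0 := by
    have : cr u l1 * cr (u + q1) (u + s1) = 0 := by
      rw [cr_uq e3, cr_addr, cr_self', e4]; ring
    exact (mul_eq_zero.1 this).resolve_left p2.ne'
  have hd : cr (u + q1) (v + ((2:ℤ) • m1 + (1:ℤ) • (u + s1))) = cr (u + q1) (v + m1) + P := by
    have : cr (u + q1) (v + ((2:ℤ) • m1 + (1:ℤ) • (u + s1))) =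
        cr (u + q1) (v + m1) + cr (u + q1) m1 + cr (u + q1) (u + s1) := by
      simp only [cr, Prod.fst_add, Prod.snd_add, Prod.smul_fst, Prod.smul_snd, smul_eq_mul]
      ring
    rw [this, hus, ← hPe, add_zero]
  rw [hd] at b3
  have h5 : cr u l1 ∣ x1 * x2 * P := by
    have g1 := a3.mul_left x2
    have g2 := b3.mul_left x1
    have : x1 * x2 * P = x1 * (x2 * (cr (u + q1) (v + m1) + P)) -
        x2 * (x1 * cr (u + q1) (v + m1)) := by ring
    rw [this]
    exact dvd_sub g2 g1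
  have h6 : cr u l1 ≤ x1 * x2 * P :=
    Int.le_of_dvd (mul_pos (mul_pos (by linarith) (by linarith)) P0) h5
  have h7 : x1 * x2 ≤ K ^ 6 := by
    have := mul_le_mul a2 b2 (by linarith) (by positivity : (0:ℤ) ≤ K ^ 3)
    have e : K ^ 3 * K ^ 3 = K ^ 6 := by ring
    linarith
  have h8 : cr u l1 ≤ K ^ 6 * P := h6.trans (mul_le_mul_of_nonneg_right h7 P0.le)
  -- `c P ≤ N c'`
  have h9 : cr u l1 * P ≤ N * cr u m1 := by
    rw [hP]
    exact mul_le_mul_of_nonneg_right (by linarith) p3.le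
  have h10 : cr u l1 * cr u l1 ≤ K ^ 6 * (N * cr u m1) := by
    have g1 := mul_le_mul_of_nonneg_left h8 p2.le
    have g2 := mul_le_mul_of_nonneg_left h9 (by positivity : (0:ℤ) ≤ K ^ 6)
    have e : cr u l1 * (K ^ 6 * P) = K ^ 6 * (cr u l1 * P) := by ring
    linarith
  have h11 : N * N < K * cr u l1 * (K * cr u l1) := by
    have := mul_lt_mul hc hc.le N0 (by positivity : (0:ℤ) ≤ K * cr u l1)
    exact this
  have h12 : K ^ 9 * (N * cr u m1) ≤ N * N := by
    have := mul_le_mul_of_nonneg_left hc' N0.le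
    have e : N * (K ^ 9 * cr u m1) = K ^ 9 * (N * cr u m1) := by ring
    linarith
  have h13 : K ^ 8 * (N * cr u m1) ≤ K ^ 9 * (N * cr u m1) :=
    mul_le_mul_of_nonneg_right (pow_le_pow_right₀ (by linarith) (by norm_num)) (by positivity)
  have h14 : K * cr u l1 * (K * cr u l1) ≤ K ^ 8 * (N * cr u m1) := by
    have := mul_le_mul_of_nonneg_left h10 (by positivity : (0:ℤ) ≤ K ^ 2)
    have e1 : K ^ 2 * (cr u l1 * cr u l1) = K * cr u l1 * (K * cr u l1) := by ring
    have e2 : K ^ 2 * (K ^ 6 * (N * cr u m1)) = K ^ 8 * (N * cr u m1) := by ring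
    linarith
  linarith

/-- **STEP (4b)** with the two handles exchanged -/
theorem four_b' (hK : 2 ≤ K) (hE : 2 * E ≤ K ^ 3) (h4a : NotBoth O N K)
    (hT : Has6 O (u, v, l, q, m, s)) (hN : vol6 (u, v, l, q, m, s) = N)
    (hA : N < E * cr u v) (hc : N < K * ct u m s) (hc' : K ^ 9 * ct u l q ≤ N)
    (hz : 2 * ct u l q < cr u l + cr q l) : False := by
  refine four_b hK hE h4a hT.swap (vol6_swap.trans hN) ?_ ?_ ?_ ?_
  · rw [cr_negl, cr_negr, neg_neg]; exact hA
  · rw [ct_neg]; exact hc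
  · rw [ct_neg]; exact hc'
  · rw [ct_neg, cr_negl, cr_negr, neg_neg, cr_negl, cr_negr, neg_neg]; exact hz

/-- a small content gives a large torus `⟨u, v⟩` -/
theorem NoRoom.large (h : NoRoom O N B) (hB : 2 ≤ B) (hT : Has6 O (u, v, l, q, m, s))
    (hN : vol6 (u, v, l, q, m, s) = N) (hc : 4 * B ^ 2 * ct u l q < N ∨ 4 * B ^ 2 * ct u m s < N) :
    N < 8 * B ^ 2 * cr u v := by
  by_contra hcon
  push Not at hcon
  obtain ⟨h1, h2⟩ := h.t1 hB hT hN hcon
  rcases hc with hc | hc <;> linarith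

/-- step (4b) from `NoRoom` -/
theorem NoRoom.four_b (h : NoRoom O N B) (hB : 2 ≤ B) (hK : 16 * B ^ 2 ≤ K ^ 3) (hK2 : 2 ≤ K)
    (h4a : NotBoth O N K) (hT : Has6 O (u, v, l, q, m, s)) (hN : vol6 (u, v, l, q, m, s) = N)
    (hc : N < K * ct u l q) (hc' : K ^ 9 * ct u m s ≤ N)
    (hz : 2 * ct u m s < cr u m + cr s m) : False := by
  have p := hT.pos
  have c0 : 0 < ct u m s := ct_pos p.2.2.1
  refine Six.four_b hK2 (E := 8 * B ^ 2) (by linarith) h4a hT hN
    (h.large hB hT hN (Or.inr ?_)) hc hc' hz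
  have h1 : K ^ 3 ≤ K ^ 9 := pow_le_pow_right₀ (by linarith) (by norm_num)
  have h2 : 16 * B ^ 2 * ct u m s ≤ K ^ 9 * ct u m s :=
    mul_le_mul_of_nonneg_right (hK.trans h1) c0.le
  have h3 : 0 < B ^ 2 * ct u m s := by positivity
  linarith

/-- step (4b) from `NoRoom`, the handles exchanged -/
theorem NoRoom.four_b' (h : NoRoom O N B) (hB : 2 ≤ B) (hK : 16 * B ^ 2 ≤ K ^ 3) (hK2 : 2 ≤ K)
    (h4a : NotBoth O N K) (hT : Has6 O (u, v, l, q, m, s)) (hN : vol6 (u, v, l, q, m, s) = N)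
    (hc : N < K * ct u m s) (hc' : K ^ 9 * ct u l q ≤ N)
    (hz : 2 * ct u l q < cr u l + cr q l) : False := by
  have p := hT.pos
  have c0 : 0 < ct u l q := ct_pos p.2.1
  refine Six.four_b' hK2 (E := 8 * B ^ 2) (by linarith) h4a hT hN
    (h.large hB hT hN (Or.inl ?_)) hc hc' hz
  have h1 : K ^ 3 ≤ K ^ 9 := pow_le_pow_right₀ (by linarith) (by norm_num)
  have h2 : 16 * B ^ 2 * ct u l q ≤ K ^ 9 * ct u l q :=
    mul_le_mul_of_nonneg_right (hK.trans h1) c0.le
  have h3 : 0 < B ^ 2 * ct u l q := by positivity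
  linarith

end Pool.Agent.H4G.Six
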