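import Pool.Agent.H4G.Six.NR.FourC

/-!
# THEOREM NR (helper58), assembly of (4a), (4b), (4c) (helper96, helper77)
-/

set_option autoImplicit false

namespace Pool.Agent.H4G.Six

open Pool.Agent.H4G

variable {X : Type} {O : PO X} {N B K : ℤ} {u v l q m s : Z2}

/-- **THEOREM NR**, from (4a): every tree has both contents `> N / K^21` -/
theorem nr_of_notBoth (hR : NoRoom O N B) (hB : 10 ^ 6 ≤ B) (hK : B ^ 3 ≤ K)
    (h4a : NotBoth O N K) (hT : Has6 O (u, v, l, q, m, s))
    (hN : vol6 (u, v, l, q, m, s) = N) :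
    N < K ^ 21 * ct u l q ∧ N < K ^ 21 * ct u m s := by
  refine hR.contents (by linarith) ?_ h4a hT hN
  have h1 : 32 * B ^ 2 ≤ B * B ^ 2 := mul_le_mul_of_nonneg_right (by linarith) (by positivity)
  have h2 : B * B ^ 2 = B ^ 3 := by ring
  linarith

end Pool.Agent.H4G.Six
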