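import Pool.Agent.H4G.Six.Defs
import Mathlib.NumberTheory.Padics.PadicVal.Basic

/-!
# Three centres on a line (helper26, helper58, helper68; Lean: helper53)

`X i = X0 + i x`, `Q i = Q0 + i y` for `i = 0, 1, 2`, `c i ∣ X i, Q i`, `D = X0 y - x Q0`.  Then
`c0 c1 c2` divides `2 D x` and `2 D y`.
-/

set_option autoImplicit false

namespace Pool.Agent.H4G.Six

open Pool.Agent.H4G

/-- `c ∣ x` by prime powers -/
lemma int_dvd_of_pow {c x : ℤ} (h : ∀ p k : ℕ, p.Prime → (p : ℤ) ^ k ∣ c → (p : ℤ) ^ k ∣ x) :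
    c ∣ x := by
  rw [← Int.natAbs_dvd_natAbs, Nat.dvd_iff_prime_pow_dvd_dvd]
  intro p k hp hk
  have h1 : (p : ℤ) ^ k ∣ c := by
    have h2 : ((p ^ k : ℕ) : ℤ) ∣ c := Int.natCast_dvd.2 hk
    rwa [Nat.cast_pow] at h2
  have h3 := h p k hp h1
  have h4 : ((p ^ k : ℕ) : ℤ) ∣ x := by rwa [Nat.cast_pow]
  exact Int.natCast_dvd.1 h4

/-- three numbers whose pairwise products divide `D2`, and whose common prime powers divide `x` -/
lemma three_dvd {a b c D x : ℤ} (h1 : a * b ∣ D) (h2 : b * c ∣ D) (h3 : a * c ∣ D)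
    (hx : ∀ d : ℤ, d ∣ a → d ∣ b → d ∣ c → d ∣ x) : a * b * c ∣ D * x := by
  by_cases ha : a = 0
  · subst ha
    rw [zero_mul] at h1
    have e : D = 0 := zero_dvd_iff.1 h1
    rw [e, zero_mul x]
    exact dvd_zero _
  by_cases hb : b = 0
  · subst hb
    rw [mul_zero] at h1
    have e : D = 0 := zero_dvd_iff.1 h1
    rw [e, zero_mul x]
    exact dvd_zero _
  by_cases hc : c = 0
  · subst hc
    rw [mul_zero] at h3
    have e : D = 0 := zero_dvd_iff.1 h3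
    rw [e, zero_mul x]
    exact dvd_zero _
  refine int_dvd_of_pow fun p k hp hk => ?_
  by_cases hk0 : k = 0
  · rw [hk0, pow_zero]
    exact one_dvd _
  have : Fact p.Prime := ⟨hp⟩
  by_cases hD : D = 0
  · rw [hD, zero_mul]
    exact dvd_zero _
  by_cases hx0 : x = 0
  · rw [hx0, mul_zero]
    exact dvd_zero _
  have v : ∀ y : ℤ, y ≠ 0 → ∀ n : ℕ, ((p : ℤ) ^ n ∣ y ↔ n ≤ padicValInt p y) := by
    intro y hy n
    rw [padicValInt_dvd_iff]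
    simp [hy]
  have e1 := padicValInt.mul (p := p) (mul_ne_zero ha hb) hc
  have e2 := padicValInt.mul (p := p) ha hb
  have e3 := padicValInt.mul (p := p) hb hc
  have e4 := padicValInt.mul (p := p) ha hc
  have e5 := padicValInt.mul (p := p) hD hx0
  have m : ∀ y z : ℤ, y ∣ z → z ≠ 0 → padicValInt p y ≤ padicValInt p z := by
    intro y z hyz hz
    have hy : y ≠ 0 := fun h => hz (zero_dvd_iff.1 (h ▸ hyz))
    exact (v z hz _).1 (((v y hy _).2 le_rfl).trans hyz)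
  have g1 := m _ _ h1 hD
  have g2 := m _ _ h2 hD
  have g3 := m _ _ h3 hD
  have hle : ∀ n : ℕ, n ≤ padicValInt p a → n ≤ padicValInt p b → n ≤ padicValInt p c →
      n ≤ padicValInt p x := fun n k1 k2 k3 =>
    (v x hx0 n).1 (hx _ ((v a ha n).2 k1) ((v b hb n).2 k2) ((v c hc n).2 k3))
  rw [v _ (mul_ne_zero hD hx0)]
  rw [v _ (mul_ne_zero (mul_ne_zero ha hb) hc)] at hk
  have hmin := hle (min (padicValInt p a) (min (padicValInt p b) (padicValInt p c)))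
    (min_le_left _ _) ((min_le_right _ _).trans (min_le_left _ _))
    ((min_le_right _ _).trans (min_le_right _ _))
  rw [e1, e2] at hk
  rw [e2] at g1
  rw [e3] at g2
  rw [e4] at g3
  rw [e5]
  omega

/-- **Three centres, numbers.** -/
theorem three_num {X0 x Q0 y c0 c1 c2 : ℤ} (h0 : c0 ∣ X0 ∧ c0 ∣ Q0)
    (h1 : c1 ∣ X0 + x ∧ c1 ∣ Q0 + y) (h2 : c2 ∣ X0 + 2 * x ∧ c2 ∣ Q0 + 2 * y) :
    c0 * c1 ∣ X0 * y - x * Q0 ∧ c1 * c2 ∣ X0 * y - x * Q0 ∧ c0 * c2 ∣ 2 * (X0 * y - x * Q0) ∧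
      c0 * c1 * c2 ∣ 2 * (X0 * y - x * Q0) * x ∧ c0 * c1 * c2 ∣ 2 * (X0 * y - x * Q0) * y := by
  have k1 : c0 * c1 ∣ X0 * y - x * Q0 := by
    have e : X0 * y - x * Q0 = X0 * (Q0 + y) - Q0 * (X0 + x) := by ring
    rw [e]
    exact dvd_sub (mul_dvd_mul h0.1 h1.2) (mul_dvd_mul h0.2 h1.1)
  have k2 : c1 * c2 ∣ X0 * y - x * Q0 := by
    have e : X0 * y - x * Q0 = (X0 + x) * (Q0 + 2 * y) - (Q0 + y) * (X0 + 2 * x) := by ring
    rw [e]
    exact dvd_sub (mul_dvd_mul h1.1 h2.2) (mul_dvd_mul h1.2 h2.1)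
  have k3 : c0 * c2 ∣ 2 * (X0 * y - x * Q0) := by
    have e : 2 * (X0 * y - x * Q0) = X0 * (Q0 + 2 * y) - Q0 * (X0 + 2 * x) := by ring
    rw [e]
    exact dvd_sub (mul_dvd_mul h0.1 h2.2) (mul_dvd_mul h0.2 h2.1)
  refine ⟨k1, k2, k3, ?_, ?_⟩
  · refine three_dvd (k1.mul_left 2) (k2.mul_left 2) k3 fun d d0 d1 _ => ?_
    have e : x = (X0 + x) - X0 := by ring
    rw [e]
    exact dvd_sub (d1.trans h1.1) (d0.trans h0.1)
  · refine three_dvd (k1.mul_left 2) (k2.mul_left 2) k3 fun d d0 d1 _ => ?_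
    have e : y = (Q0 + y) - Q0 := by ring
    rw [e]
    exact dvd_sub (d1.trans h1.2) (d0.trans h0.2)

/-- three large contents: the step is large -/
theorem three_le {X0 x Q0 y c0 c1 c2 c M : ℤ} (h0 : c0 ∣ X0 ∧ c0 ∣ Q0)
    (h1 : c1 ∣ X0 + x ∧ c1 ∣ Q0 + y) (h2 : c2 ∣ X0 + 2 * x ∧ c2 ∣ Q0 + 2 * y) (hc : 0 < c)
    (k0 : c ≤ c0) (k1 : c ≤ c1) (k2 : c ≤ c2) (hD : X0 * y - x * Q0 ≠ 0)
    (hM : |X0 * y - x * Q0| ≤ M) :
    (x ≠ 0 → c ^ 3 ≤ 2 * M * |x|) ∧ (y ≠ 0 → c ^ 3 ≤ 2 * M * |y|) ∧ c ^ 2 ≤ M := by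
  obtain ⟨j1, j2, j3, j4, j5⟩ := three_num h0 h1 h2
  have c30 : c ^ 3 ≤ c0 * c1 * c2 := by
    have e1 : c * c ≤ c0 * c1 := mul_le_mul k0 k1 hc.le (hc.le.trans k0)
    have e2 : c * c * c ≤ c0 * c1 * c2 :=
      mul_le_mul e1 k2 hc.le (mul_nonneg (hc.le.trans k0) (hc.le.trans k1))
    calc c ^ 3 = c * c * c := by ring
      _ ≤ _ := e2
  have key : ∀ z : ℤ, z ≠ 0 → c0 * c1 * c2 ∣ 2 * (X0 * y - x * Q0) * z → c ^ 3 ≤ 2 * M * |z| := by
    intro z hz hd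
    have hne : 2 * (X0 * y - x * Q0) * z ≠ 0 := mul_ne_zero (mul_ne_zero two_ne_zero hD) hz
    have e1 : c0 * c1 * c2 ≤ |2 * (X0 * y - x * Q0) * z| :=
      Int.le_of_dvd (abs_pos.2 hne) ((dvd_abs _ _).2 hd)
    rw [abs_mul, abs_mul, abs_two] at e1
    have e2 : 2 * |X0 * y - x * Q0| * |z| ≤ 2 * M * |z| :=
      mul_le_mul_of_nonneg_right (by linarith) (abs_nonneg z)
    linarith
  refine ⟨fun hx => key x hx j4, fun hy => key y hy j5, ?_⟩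
  have e1 : c0 * c1 ≤ |X0 * y - x * Q0| := Int.le_of_dvd (abs_pos.2 hD) ((dvd_abs _ _).2 j1)
  have e2 : c * c ≤ c0 * c1 := mul_le_mul k0 k1 hc.le (hc.le.trans k0)
  calc c ^ 2 = c * c := by ring
    _ ≤ _ := by linarith

/-- **Three centres** `z, z + w, z + 2 w` with large contents of the torus with `l, q`. -/
theorem three_centres_cr {z w l q : Z2} {c0 c1 c2 c M : ℤ} (h0 : c0 ∣ cr z l ∧ c0 ∣ cr z q)
    (h1 : c1 ∣ cr (z + w) l ∧ c1 ∣ cr (z + w) q)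
    (h2 : c2 ∣ cr (z + (w + w)) l ∧ c2 ∣ cr (z + (w + w)) q) (hc : 0 < c)
    (k0 : c ≤ c0) (k1 : c ≤ c1) (k2 : c ≤ c2) (hzw : cr z w ≠ 0) (hlq : cr l q ≠ 0)
    (hM : |cr z w| * |cr l q| ≤ M) :
    (cr w l ≠ 0 → c ^ 3 ≤ 2 * M * |cr w l|) ∧ (cr w q ≠ 0 → c ^ 3 ≤ 2 * M * |cr w q|) ∧
      c ^ 2 ≤ M ∧ (cr w l ≠ 0 ∨ cr w q ≠ 0) := by
  have eD : cr z l * cr w q - cr w l * cr z q = cr z w * cr l q := by
    unfold cr
    ring
  have e1 : ∀ a : Z2, cr (z + w) a = cr z a + cr w a := by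
    intro a
    unfold cr
    simp only [Prod.fst_add, Prod.snd_add]
    ring
  have e2 : ∀ a : Z2, cr (z + (w + w)) a = cr z a + 2 * cr w a := by
    intro a
    unfold cr
    simp only [Prod.fst_add, Prod.snd_add]
    ring
  rw [e1, e1] at h1
  rw [e2, e2] at h2
  have hD : cr z l * cr w q - cr w l * cr z q ≠ 0 := by
    rw [eD]
    exact mul_ne_zero hzw hlq
  have h3 := three_le (M := M) h0 h1 h2 hc k0 k1 k2 hD (by rw [eD, abs_mul]; exact hM)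
  refine ⟨h3.1, h3.2.1, h3.2.2, ?_⟩
  by_contra hcon
  push Not at hcon
  rw [hcon.1, hcon.2, mul_zero, zero_mul, sub_zero] at hD
  exact hD rfl

end Pool.Agent.H4G.Six
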